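import Mathlib

set_option autoImplicit false

open Complex ComplexConjugate

namespace Pool.Agent.Helper809.Cubic

/-- second coefficient. -/
noncomputable def a : ℂ := ⟨44 / 51, -11 / 51⟩
/-- third coefficient. -/
noncomputable def b : ℂ := ⟨12 / 51, -7 / 51⟩

noncomputable def Af (l : ℂ) : ℂ := a * (1 + l)
noncomputable def Bf (l : ℂ) : ℂ := b * (1 + l + l ^ 2)

/-- Schur-Cohn for a monic quadratic given by its roots. -/
lemma schur_cohn {x y : ℂ} (h1 : ‖x‖ * ‖y‖ < 1)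
    (h2 : ‖x * (1 - (‖y‖ : ℂ) ^ 2) + y * (1 - (‖x‖ : ℂ) ^ 2)‖ ≤ 1 - (‖x‖ * ‖y‖) ^ 2) :
    ‖x‖ ≤ 1 := by
  by_contra hc
  push Not at hc
  have hy0 := norm_nonneg y
  have hx0 := norm_nonneg x
  have hy : ‖y‖ < 1 := by
    by_contra hh
    push Not at hh
    nlinarith
  have e1 : ‖x * (1 - (‖y‖ : ℂ) ^ 2)‖ = ‖x‖ * (1 - ‖y‖ ^ 2) := by
    rw [norm_mul]
    congr 1
    have : (1 - (‖y‖ : ℂ) ^ 2) = ((1 - ‖y‖ ^ 2 : ℝ) : ℂ) := by push_cast; ring
    rw [this, Complex.norm_real, Real.norm_eq_abs, abs_of_nonneg]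
    nlinarith
  have e2 : ‖y * (1 - (‖x‖ : ℂ) ^ 2)‖ = ‖y‖ * (‖x‖ ^ 2 - 1) := by
    rw [norm_mul]
    congr 1
    have : (1 - (‖x‖ : ℂ) ^ 2) = ((1 - ‖x‖ ^ 2 : ℝ) : ℂ) := by push_cast; ring
    rw [this, Complex.norm_real, Real.norm_eq_abs, abs_of_nonpos]
    · ring
    · nlinarith
  have e3 : ‖x * (1 - (‖y‖ : ℂ) ^ 2)‖ - ‖y * (1 - (‖x‖ : ℂ) ^ 2)‖
      ≤ ‖x * (1 - (‖y‖ : ℂ) ^ 2) + y * (1 - (‖x‖ : ℂ) ^ 2)‖ := by
    have := norm_sub_le (x * (1 - (‖y‖ : ℂ) ^ 2) + y * (1 - (‖x‖ : ℂ) ^ 2)) (y * (1 - (‖x‖ : ℂ) ^ 2))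
    rw [add_sub_cancel_right] at this
    linarith
  rw [e1, e2] at e3
  have e4 : ‖x‖ * (1 - ‖y‖ ^ 2) - ‖y‖ * (‖x‖ ^ 2 - 1) ≤ 1 - (‖x‖ * ‖y‖) ^ 2 := e3.trans h2
  -- (1 - xy)(x + y) ≤ (1 - xy)(1 + xy)
  have e5 : (1 - ‖x‖ * ‖y‖) * ((‖x‖ - 1) * (1 - ‖y‖)) ≤ 0 := by nlinarith
  have e6 : 0 < (1 - ‖x‖ * ‖y‖) * ((‖x‖ - 1) * (1 - ‖y‖)) := by
    apply mul_pos (by linarith)
    apply mul_pos <;> linarith
  linarith

lemma poly_pos {t : ℝ} (h3 : t ≤ 3) :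
    0 ≤ 37249 * t ^ 4 - 397001 * t ^ 3 + 1511725 * t ^ 2 - 2437545 * t + 1414944 := by
  nlinarith [mul_nonneg (sub_nonneg.mpr h3) (sq_nonneg (t - 173 / 100)),
    sq_nonneg ((t - 173 / 100) * (3 - t)), sq_nonneg (t - 173 / 100)]

lemma normSq_a : Complex.normSq a = 2057 / 2601 := by
  simp only [Complex.normSq_apply, a]; norm_num

lemma normSq_b : Complex.normSq b = 193 / 2601 := by
  simp only [Complex.normSq_apply, b]; norm_num

lemma normSq_aab (t : ℝ) : Complex.normSq (a - conj a * b * t)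
    = 2057 / 2601 - 2 * (28556 / 132651) * t + 2057 * 193 / 6765201 * t ^ 2 := by
  simp only [Complex.normSq_apply, Complex.sub_re, Complex.sub_im, Complex.mul_re, Complex.mul_im,
    Complex.conj_re, Complex.conj_im, Complex.ofReal_re, Complex.ofReal_im, a, b]
  ring

lemma on_circle {l x y : ℂ} (hl : ‖l‖ = 1) (hs : x + y = -(Af l)) (hp : x * y = Bf l) :
    ‖x‖ ≤ 1 := by
  have hll : l * conj l = 1 := by
    rw [Complex.mul_conj, Complex.normSq_eq_norm_sq, hl]; norm_num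
  have hls : l.re ^ 2 + l.im ^ 2 = 1 := by
    have : Complex.normSq l = 1 := by rw [Complex.normSq_eq_norm_sq, hl]; norm_num
    rw [Complex.normSq_apply] at this
    nlinarith
  obtain ⟨t, ht⟩ : ∃ t : ℝ, t = 1 + 2 * l.re := ⟨_, rfl⟩
  have htc : (t : ℂ) = 1 + l + conj l := by
    rw [ht]
    apply Complex.ext
    · simp; ring
    · simp
  have ht3 : t ≤ 3 := by
    rw [ht]; nlinarith [sq_nonneg l.im]
  have ht1 : -1 ≤ t := by
    rw [ht]; nlinarith [sq_nonneg l.im]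
  have hB : Bf l = b * l * t := by
    unfold Bf
    rw [htc]
    linear_combination (-b) * hll
  have hA : -(Af l) - conj (-(Af l)) * Bf l = -((1 + l) * (a - conj a * b * t)) := by
    rw [hB]
    unfold Af
    rw [map_neg, map_mul, map_add, map_one]
    linear_combination (conj a * b * t) * hll
  have hnB : (‖x‖ * ‖y‖) ^ 2 = 193 / 2601 * t ^ 2 := by
    rw [← norm_mul, hp, hB, ← Complex.normSq_eq_norm_sq, Complex.normSq_mul, Complex.normSq_mul,
      normSq_b, Complex.normSq_ofReal, Complex.normSq_eq_norm_sq l, hl]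
    ring
  have hn0 : 0 ≤ ‖x‖ * ‖y‖ := by positivity
  have hlt : (‖x‖ * ‖y‖) ^ 2 < 1 := by
    rw [hnB]; nlinarith
  apply schur_cohn (x := x) (y := y)
  · nlinarith
  · have e1 : x * (1 - (‖y‖ : ℂ) ^ 2) + y * (1 - (‖x‖ : ℂ) ^ 2)
        = (x + y) - conj (x + y) * (x * y) := by
      have hx : (‖x‖ : ℂ) ^ 2 = x * conj x := by
        rw [Complex.mul_conj, Complex.normSq_eq_norm_sq]; push_cast; ring
      have hy : (‖y‖ : ℂ) ^ 2 = y * conj y := by
        rw [Complex.mul_conj, Complex.normSq_eq_norm_sq]; push_cast; ring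
      rw [hx, hy, map_add]
      ring
    rw [e1, hs, hp, hA, norm_neg]
    apply le_of_sq_le_sq _ (by linarith)
    rw [← Complex.normSq_eq_norm_sq, Complex.normSq_mul, normSq_aab, hnB]
    have e2 : Complex.normSq (1 + l) = t + 1 := by
      rw [Complex.normSq_apply, ht]
      simp only [Complex.add_re, Complex.one_re, Complex.add_im, Complex.one_im]
      nlinarith
    rw [e2]
    have := poly_pos ht3
    nlinarith
end Pool.Agent.Helper809.Cubic
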