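import Mathlib
import Pool.Agent.Helper809.CubicA

set_option autoImplicit false

open Complex ComplexConjugate

namespace Pool.Agent.Helper809.Cubic

/-- power sums of the roots of `x^2 + A x + B`. -/
noncomputable def S : ℕ → ℂ → ℂ
  | 0, _ => 2
  | 1, l => -(Af l)
  | (n + 2), l => -(Af l) * S (n + 1) l - Bf l * S n l

lemma S_eq {l x y : ℂ} (hs : x + y = -(Af l)) (hp : x * y = Bf l) :
    ∀ n : ℕ, S n l = x ^ n + y ^ n ∧ S (n + 1) l = x ^ (n + 1) + y ^ (n + 1) := by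
  intro n
  induction n with
  | zero =>
    constructor
    · simp [S]; norm_num
    · simp [S, hs]
  | succ n ih =>
    refine ⟨ih.2, ?_⟩
    have : S (n + 1 + 1) l = -(Af l) * S (n + 1) l - Bf l * S n l := rfl
    rw [this, ih.1, ih.2, ← hs, ← hp]
    ring

lemma exists_roots (l : ℂ) : ∃ x y : ℂ, x + y = -(Af l) ∧ x * y = Bf l := by
  obtain ⟨d, hd⟩ := IsAlgClosed.exists_pow_nat_eq ((Af l) ^ 2 - 4 * Bf l) (n := 2) (by norm_num)
  refine ⟨(-(Af l) + d) / 2, (-(Af l) - d) / 2, by ring, ?_⟩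
  linear_combination (-1 / 4 : ℂ) * hd

lemma Af_diff : Differentiable ℂ Af := by unfold Af; fun_prop
lemma Bf_diff : Differentiable ℂ Bf := by unfold Bf; fun_prop

lemma S_diff : ∀ n : ℕ, Differentiable ℂ (S n) ∧ Differentiable ℂ (S (n + 1)) := by
  intro n
  induction n with
  | zero =>
    constructor
    · have : S 0 = fun _ => 2 := rfl
      rw [this]; fun_prop
    · have : S (0 + 1) = fun l => -(Af l) := rfl
      rw [this]; exact Af_diff.neg
  | succ n ih =>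
    refine ⟨ih.2, ?_⟩
    have : S (n + 1 + 1) = fun l => -(Af l) * S (n + 1) l - Bf l * S n l := rfl
    rw [this]
    exact (Af_diff.neg.mul ih.2).sub (Bf_diff.mul ih.1)

lemma S_circle {l : ℂ} (hl : ‖l‖ = 1) (n : ℕ) : ‖S n l‖ ≤ 2 := by
  obtain ⟨x, y, hs, hp⟩ := exists_roots l
  have hx := on_circle hl hs hp
  have hy := on_circle hl (x := y) (y := x) (by rw [add_comm]; exact hs) (by rw [mul_comm]; exact hp)
  rw [(S_eq hs hp n).1]
  refine (norm_add_le _ _).trans ?_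
  rw [norm_pow, norm_pow]
  have h1 : ‖x‖ ^ n ≤ 1 := pow_le_one₀ (norm_nonneg _) hx
  have h2 : ‖y‖ ^ n ≤ 1 := pow_le_one₀ (norm_nonneg _) hy
  linarith

lemma S_disc {l : ℂ} (hl : ‖l‖ ≤ 1) (n : ℕ) : ‖S n l‖ ≤ 2 := by
  have hb : Bornology.IsBounded (Metric.ball (0 : ℂ) 1) := Metric.isBounded_ball
  refine Complex.norm_le_of_forall_mem_frontier_norm_le hb (f := S n)
    ((S_diff n).1.diffContOnCl) ?_ ?_
  · intro z hz
    rw [frontier_ball (0 : ℂ) one_ne_zero] at hz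
    exact S_circle (by simpa using hz) n
  · rw [closure_ball (0 : ℂ) one_ne_zero]
    simpa using hl

lemma root_le {l x y : ℂ} (hl : ‖l‖ ≤ 1) (hs : x + y = -(Af l)) (hp : x * y = Bf l) :
    ‖x‖ ≤ 1 := by
  by_contra hc
  push Not at hc
  have hS : ∀ n : ℕ, ‖x ^ n + y ^ n‖ ≤ 2 := by
    intro n
    rw [← (S_eq hs hp n).1]
    exact S_disc hl n
  rcases le_or_gt (‖x‖ * ‖y‖) 1 with h | h
  · -- then ‖y‖ ≤ 1
    have hy : ‖y‖ ≤ 1 := by
      by_contra hh
      push Not at hh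
      nlinarith
    obtain ⟨n, hn⟩ := pow_unbounded_of_one_lt (3 : ℝ) hc
    have h1 := hS n
    have h2 : ‖x ^ n‖ ≤ ‖x ^ n + y ^ n‖ + ‖y ^ n‖ := by
      have := norm_sub_le (x ^ n + y ^ n) (y ^ n)
      rwa [add_sub_cancel_right] at this
    rw [norm_pow, norm_pow] at h2
    have h3 : ‖y‖ ^ n ≤ 1 := pow_le_one₀ (norm_nonneg _) hy
    linarith
  · obtain ⟨n, hn⟩ := pow_unbounded_of_one_lt (4 : ℝ) h
    have h1 := hS n
    have h2 := hS (2 * n)
    have h3 : 2 * (x * y) ^ n = (x ^ n + y ^ n) ^ 2 - (x ^ (2 * n) + y ^ (2 * n)) := by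
      rw [mul_pow, pow_mul', pow_mul']; ring
    have h4 : ‖2 * (x * y) ^ n‖ ≤ 2 ^ 2 + 2 := by
      rw [h3]
      refine (norm_sub_le _ _).trans ?_
      rw [norm_pow]
      have := pow_le_pow_left₀ (norm_nonneg _) h1 2
      linarith
    rw [norm_mul, norm_pow, norm_mul] at h4
    have h5 : ‖(2 : ℂ)‖ = 2 := by simp
    rw [h5] at h4
    linarith

/-- The divided difference. -/
noncomputable def Qf (z w : ℂ) : ℂ := 1 + a * (z + w) + b * (z ^ 2 + z * w + w ^ 2)

lemma Q_aux {z w : ℂ} (hz : ‖z‖ < 1) (hwz : ‖w‖ ≤ ‖z‖) : Qf z w ≠ 0 := by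
  intro h
  have hz0 : z ≠ 0 := by
    rintro rfl
    have hw : w = 0 := by
      rw [norm_zero] at hwz
      exact norm_le_zero_iff.mp hwz
    rw [hw] at h
    unfold Qf at h
    simp at h
  have hzp : 0 < ‖z‖ := norm_pos_iff.mpr hz0
  obtain ⟨l, hl⟩ : ∃ l : ℂ, l = w / z := ⟨_, rfl⟩
  have hw : w = l * z := by rw [hl]; field_simp
  have hln : ‖l‖ ≤ 1 := by
    rw [hl, norm_div, div_le_one hzp]; exact hwz
  have hroot : (1 / z) ^ 2 + Af l * (1 / z) + Bf l = 0 := by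
    have : Qf z w = z ^ 2 * ((1 / z) ^ 2 + Af l * (1 / z) + Bf l) := by
      unfold Qf Af Bf
      rw [hw]
      field_simp
    rw [this] at h
    rcases mul_eq_zero.mp h with h | h
    · exact absurd (pow_eq_zero_iff (by norm_num) |>.mp h) hz0
    · exact h
  have := root_le (x := 1 / z) (y := -(Af l) - 1 / z) hln (by ring)
    (by linear_combination (-1 : ℂ) * hroot)
  rw [norm_div, norm_one, div_le_one hzp] at this
  linarith

lemma Q_ne {z w : ℂ} (hz : ‖z‖ < 1) (hw : ‖w‖ < 1) : Qf z w ≠ 0 := by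
  rcases le_total ‖w‖ ‖z‖ with h | h
  · exact Q_aux hz h
  · have e : Qf z w = Qf w z := by unfold Qf; ring
    rw [e]
    exact Q_aux hw h

/-- the cubic. -/
noncomputable def P (z : ℂ) : ℂ := z + a * z ^ 2 + b * z ^ 3

lemma P_sub (z w : ℂ) : P z - P w = (z - w) * Qf z w := by unfold P Qf; ring

lemma P_inj {z w : ℂ} (hz : ‖z‖ < 1) (hw : ‖w‖ < 1) (h : P z = P w) : z = w := by
  have h1 : (z - w) * Qf z w = 0 := by rw [← P_sub, h, sub_self]
  rcases mul_eq_zero.mp h1 with h2 | h2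
  · exact sub_eq_zero.mp h2
  · exact absurd h2 (Q_ne hz hw)

lemma P_hasStrictDerivAt (z : ℂ) : HasStrictDerivAt P (Qf z z) z := by
  have h : HasStrictDerivAt P (1 + a * (2 * z) + b * (3 * z ^ 2)) z := by
    unfold P
    have h1 := (hasStrictDerivAt_id z)
    have h2 := (hasStrictDerivAt_pow 2 z).const_mul a
    have h3 := (hasStrictDerivAt_pow 3 z).const_mul b
    convert! (h1.add h2).add h3 using 1
    simp
  convert! h using 1
  unfold Qf; ring

lemma not_mem_image : P (-1) ∉ P '' Metric.ball (0 : ℂ) 1 := by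
  rintro ⟨z, hz, hPz⟩
  have hz1 : ‖z‖ < 1 := by simpa using hz
  have hmap : Filter.map P (nhds z) = nhds (P z) :=
    (P_hasStrictDerivAt z).map_nhds_eq (Q_ne hz1 hz1)
  -- a neighbourhood of z avoiding points near -1
  obtain ⟨r, hr1, hr2⟩ := exists_between hz1
  have hV : Metric.ball (0 : ℂ) r ∈ nhds z := Metric.isOpen_ball.mem_nhds (by simpa using hr1)
  have hPV : P '' Metric.ball (0 : ℂ) r ∈ nhds (P (-1)) := by
    rw [← hPz, ← hmap]
    exact Filter.image_mem_map hV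
  have hcont : Filter.Tendsto (fun t : ℝ => P (-(t : ℂ))) (nhdsWithin 1 (Set.Iio 1))
      (nhds (P (-1))) := by
    have hc : Continuous (fun t : ℝ => P (-(t : ℂ))) := by unfold P; fun_prop
    have := (hc.tendsto 1).mono_left (nhdsWithin_le_nhds (s := Set.Iio 1))
    simpa using this
  have hev := hcont.eventually hPV
  have hev2 : ∀ᶠ t : ℝ in nhdsWithin 1 (Set.Iio 1), r < t :=
    nhdsWithin_le_nhds (lt_mem_nhds hr2)
  have hev3 : ∀ᶠ t : ℝ in nhdsWithin 1 (Set.Iio 1), t < 1 := eventually_mem_nhdsWithin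
  obtain ⟨t, ⟨w, hw, hPw⟩, hrt, ht1⟩ := (hev.and (hev2.and hev3)).exists
  have hw1 : ‖w‖ < r := by simpa using hw
  have hr0 : 0 ≤ r := (norm_nonneg z).trans hr1.le
  have ht0 : 0 ≤ t := hr0.trans hrt.le
  have hnt : ‖(-(t : ℂ))‖ = t := by
    rw [norm_neg, Complex.norm_real, Real.norm_eq_abs, abs_of_nonneg ht0]
  have := P_inj (hw1.trans hr2) (by rw [hnt]; exact ht1) hPw
  rw [this, hnt] at hw1
  linarith

lemma norm_P_neg_one : ‖P (-1)‖ ^ 2 = 377 / 2601 := by
  rw [← Complex.normSq_eq_norm_sq]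
  unfold P a b
  simp only [Complex.normSq_apply]
  norm_num [pow_succ, Complex.mul_re, Complex.mul_im]

end Pool.Agent.Helper809.Cubic
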