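import Pool.Agent.Helper809.KPLimit

set_option autoImplicit false

open Filter Topology Finset Complex

namespace Pool.Agent.Helper809.KP

/-- a nonvanishing holomorphic function on the disc has a holomorphic logarithm -/
lemma exists_log {G : ℂ → ℂ} (hG : DifferentiableOn ℂ G (Metric.ball 0 1)) (h0 : G 0 = 1)
    (hne : ∀ z ∈ Metric.ball (0:ℂ) 1, G z ≠ 0) :
    ∃ l : ℂ → ℂ, DifferentiableOn ℂ l (Metric.ball 0 1) ∧ l 0 = 0 ∧
      ∀ z ∈ Metric.ball (0:ℂ) 1, exp (l z) = G z := by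
  have hq : DifferentiableOn ℂ (fun z => deriv G z / G z) (Metric.ball 0 1) :=
    (hG.deriv Metric.isOpen_ball).div hG hne
  obtain ⟨L, hL0, hL⟩ := (hq.isExactOn_ball).with_val_at 0 0
  refine ⟨L, fun z hz => (hL z hz).differentiableAt.differentiableWithinAt, hL0, ?_⟩
  have hd : ∀ z ∈ Metric.ball (0:ℂ) 1, HasDerivAt (fun z => exp (-L z) * G z) 0 z := by
    intro z hz
    have e1 := (hL z hz).neg.cexp
    have e2 := (hG.differentiableAt (Metric.isOpen_ball.mem_nhds hz)).hasDerivAt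
    have e3 := e1.mul e2
    convert! e3 using 1
    have := hne z hz
    simp only [Pi.neg_apply]
    field_simp
    ring
  intro z hz
  have := (convex_ball (0:ℂ) 1).is_const_of_fderivWithin_eq_zero (𝕜 := ℂ) (f := fun z => exp (-L z) * G z)
    (fun z hz => (hd z hz).differentiableAt.differentiableWithinAt)
    (fun z hz => by
      rw [fderivWithin_of_isOpen Metric.isOpen_ball hz]
      ext
      simp [(hd z hz).hasFDerivAt.fderiv]) hz (show (0:ℂ) ∈ Metric.ball (0:ℂ) 1 by simp)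
  simp only [hL0, neg_zero, Complex.exp_zero, h0, one_mul] at this
  rw [Complex.exp_neg] at this
  have hx := Complex.exp_ne_zero (L z)
  field_simp at this
  exact this.symm

/-- the set of coefficients for `p = 1/2` -/
def S (n : ℕ) : Set ℝ :=
  {c : ℝ | ∃ f : ℂ → ℂ, ∃ h : ℂ → ℂ,
            DifferentiableOn ℂ f (Metric.ball (0:ℂ) 1) ∧
            Set.InjOn f (Metric.ball (0:ℂ) 1) ∧
            f 0 = 0 ∧ deriv f 0 = 1 ∧
            DifferentiableOn ℂ h (Metric.ball (0:ℂ) 1) ∧ h 0 = 0 ∧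
            (∀ z ∈ Metric.ball (0:ℂ) 1, z ≠ 0 → z * Complex.exp (h z) = f z) ∧
            c = ‖iteratedDeriv n (fun z => Complex.exp (((1/2 : ℝ):ℂ) * h z)) 0‖ / (n.factorial : ℝ)}

lemma an_mem (n : ℕ) (hn : 7 ≤ n) : ‖an n‖ ∈ S n := by
  have hn0 : (0 : ℝ) < n := by
    have : 0 < n := by omega
    exact_mod_cast this
  have hq0 : (0 : ℝ) < 47 / (n : ℝ) ^ 2 := by positivity
  have hq1 : 47 / (n : ℝ) ^ 2 ≤ 1 := by
    rw [div_le_one (by positivity)]
    have : (7 : ℝ) ≤ n := by exact_mod_cast hn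
    nlinarith
  set q : ℝ := 47 / (n : ℝ) ^ 2 with hq
  set G : ℂ → ℂ := Gq kap nu cc q with hGdef
  have hGd : DifferentiableOn ℂ G (Metric.ball 0 1) := by
    intro z hz
    apply DifferentiableAt.differentiableWithinAt
    exact Gq_differentiableAt norm_kap norm_nu cc_pos cc_le hq0 hq1 (by simpa using hz)
  have hGne : ∀ z ∈ Metric.ball (0:ℂ) 1, G z ≠ 0 := by
    intro z hz
    exact Gq_ne_zero norm_kap norm_nu cc_pos cc_le hq0 hq1 (by simpa using hz)
  have hG0 : G 0 = 1 := Gq_zero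
  obtain ⟨l, hl, hl0, hle⟩ := exists_log hGd hG0 hGne
  refine ⟨fq kap nu cc q, fun z => 2 * l z, ?_, ?_, ?_, ?_, ?_, ?_, ?_, ?_⟩
  · exact differentiableOn_id.mul (hGd.pow 2)
  · exact fq_inj norm_kap norm_nu cc_pos cc_le hq0 hq1
  · simp [fq]
  · have h1 : HasDerivAt G (deriv G 0) 0 :=
      (hGd.differentiableAt (Metric.isOpen_ball.mem_nhds (by simp))).hasDerivAt
    have h2 := (hasDerivAt_id (0:ℂ)).mul (h1.pow 2)
    have h3 : fq kap nu cc q = fun z => id z * (G z) ^ 2 := by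
      funext z; rfl
    have h4 : deriv (fq kap nu cc q) 0 = 1 := by
      rw [h3]
      convert! h2.deriv using 1
      simp [hG0]
    exact h4
  · exact hl.const_mul 2
  · simp [hl0]
  · intro z hz _
    have : exp (2 * l z) = exp (l z) ^ 2 := by
      rw [← Complex.exp_nat_mul]; norm_num
    rw [this, hle z hz]
    rfl
  · have he : (fun z => exp (((1 / 2 : ℝ) : ℂ) * (2 * l z))) =ᶠ[𝓝 0] G := by
      filter_upwards [Metric.isOpen_ball.mem_nhds (show (0:ℂ) ∈ Metric.ball (0:ℂ) 1 by simp)] with z hz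
      rw [← hle z hz]
      congr 1
      push_cast
      ring
    have h1 : iteratedDeriv n (fun z => exp (((1 / 2 : ℝ) : ℂ) * (2 * l z))) 0 = iteratedDeriv n G 0 :=
      he.iteratedDeriv_eq n
    rw [h1]
    have h2 : an n = tc G n := by
      have h3 := tc_comp PP_an (q : ℂ) n
      have h4 : G = fun z => PP ((q : ℂ) * (z * ((1 - z)⁻¹) ^ 2)) * (1 - z)⁻¹ := by
        funext z; rfl
      rw [h4, h3]
      rfl
    rw [h2]
    unfold tc
    rw [norm_div, Complex.norm_natCast]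

lemma not_tendsto : ¬ Tendsto (fun n : ℕ => sSup (S n)) atTop (𝓝 1) := by
  intro H
  have h1 : Tendsto (fun n => ‖an n‖) atTop (𝓝 ‖∑' j, gterm j‖) := an_tendsto.norm
  have h2 := Lam_norm
  have h3 : ∀ᶠ n in atTop, 1000003 / 1000000 < ‖an n‖ :=
    h1.eventually (lt_mem_nhds (by linarith))
  have h4 : ∀ᶠ n in atTop, sSup (S n) < 1000003 / 1000000 :=
    H.eventually (gt_mem_nhds (by norm_num))
  have h5 : ∀ᶠ n in atTop, 1 / 2 < sSup (S n) :=
    H.eventually (lt_mem_nhds (by norm_num))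
  obtain ⟨n, hn1, hn2, hn3, hn4⟩ := (h3.and (h4.and (h5.and (eventually_ge_atTop 7)))).exists
  by_cases hb : BddAbove (S n)
  · have := le_csSup hb (an_mem n hn4)
    linarith
  · rw [Real.sSup_of_not_bddAbove hb] at hn3
    linarith

end Pool.Agent.Helper809.KP
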