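import Pool.Agent.Helper809.KPTaylor

set_option autoImplicit false

open Filter Topology Finset Complex

namespace Pool.Agent.Helper809.KP

/-! ### square roots -/

lemma sqrt_sq' (a : ℂ) : Complex.sqrt a ^ 2 = a := by
  unfold Complex.sqrt
  have := Complex.cpow_nat_inv_pow a (n := 2) two_ne_zero
  simp

lemma sqrt_re_pos {a : ℂ} (ha : a ∈ slitPlane) : 0 < (Complex.sqrt a).re := by
  have ha0 : a ≠ 0 := slitPlane_ne_zero ha
  rw [sqrt_eq_exp ha0, Complex.exp_re]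
  apply mul_pos (Real.exp_pos _)
  have h1 : (log a / 2).im = arg a / 2 := by
    rw [← Complex.log_im]; simp
  rw [h1]
  have h2 := Complex.neg_pi_lt_arg a
  have h3 : arg a < Real.pi := lt_of_le_of_ne (Complex.arg_le_pi a) (by
    intro h
    rw [Complex.mem_slitPlane_iff_arg] at ha
    exact ha.1 h)
  apply Real.cos_pos_of_mem_Ioo
  constructor <;> linarith

lemma eq_of_sq_eq {x y : ℂ} (hx : 0 < x.re) (hy : 0 < y.re) (h : x ^ 2 = y ^ 2) : x = y := by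
  rcases sq_eq_sq_iff_eq_or_eq_neg.mp h with h | h
  · exact h
  · exfalso
    rw [h] at hx
    simp at hx
    linarith

lemma sq_mem_slitPlane {x : ℂ} (hx : 0 < x.re) (b : ℝ) (hb0 : 0 < b) (hb1 : b ≤ 1) :
    (1 - b : ℂ) + b * x ^ 2 ∈ slitPlane := by
  rw [Complex.mem_slitPlane_iff]
  by_contra hcon
  push Not at hcon
  obtain ⟨h1, h2⟩ := hcon
  have e1 : ((1 - b : ℂ) + b * x ^ 2).re = (1 - b) + b * (x.re ^ 2 - x.im ^ 2) := by
    simp [sq]
  have e2 : ((1 - b : ℂ) + b * x ^ 2).im = b * (2 * x.re * x.im) := by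
    simp only [sq, add_im, sub_im, one_im, ofReal_im, mul_im, ofReal_re, mul_re]; ring
  rw [e1] at h1
  rw [e2] at h2
  have h3 : x.im = 0 := by
    rcases mul_eq_zero.mp h2 with h | h
    · linarith
    · rcases mul_eq_zero.mp h with h | h
      · linarith
      · exact h
  rw [h3] at h1
  have : 0 < b * x.re ^ 2 := by positivity
  nlinarith

/-! ### Möbius maps of the right half plane -/

/-- numerator of the rotation of the right half plane -/
noncomputable def mob (k r : ℂ) : ℂ := ((1 + k) * r + (1 - k)) / ((1 - k) * r + (1 + k))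

lemma norm_one_parts {k : ℂ} (hk : ‖k‖ = 1) : k.re ^ 2 + k.im ^ 2 = 1 := by
  have : Complex.normSq k = 1 := by rw [Complex.normSq_eq_norm_sq, hk]; norm_num
  rw [Complex.normSq_apply] at this
  nlinarith

lemma re_num_den {k r : ℂ} (hk : ‖k‖ = 1) :
    (((1 + k) * r + (1 - k)) * (starRingEnd ℂ) ((1 - k) * r + (1 + k))).re = 4 * r.re := by
  have h := norm_one_parts hk
  simp only [map_add, map_mul, map_sub, map_one, mul_re, add_re, sub_re, one_re, add_im, sub_im, one_im, mul_im,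
    conj_re, conj_im]
  linear_combination (2 * r.re - (r.re ^ 2 + r.im ^ 2) - 1) * h

lemma div_eq_mul_conj (a : ℂ) {b : ℂ} (hb : b ≠ 0) :
    a / b = (a * (starRingEnd ℂ) b) / ((‖b‖ ^ 2 : ℝ) : ℂ) := by
  have hc : (starRingEnd ℂ) b ≠ 0 := by
    rw [Ne, map_eq_zero]; exact hb
  rw [← Complex.normSq_eq_norm_sq, ← Complex.mul_conj]
  field_simp

lemma den_ne_zero {k r : ℂ} (hk : ‖k‖ = 1) (hr : 0 < r.re) : (1 - k) * r + (1 + k) ≠ 0 := by
  intro h
  have := re_num_den (r := r) hk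
  rw [h] at this
  simp at this
  linarith

lemma mob_re_pos {k r : ℂ} (hk : ‖k‖ = 1) (hr : 0 < r.re) : 0 < (mob k r).re := by
  have hne := den_ne_zero hk hr
  rw [mob, div_eq_mul_conj _ hne, Complex.div_ofReal_re, re_num_den hk]
  have : 0 < ‖(1 - k) * r + (1 + k)‖ := norm_pos_iff.mpr hne
  positivity

lemma mob_inj {k r s : ℂ} (hk : ‖k‖ = 1) (hr : 0 < r.re) (hs : 0 < s.re) (h : mob k r = mob k s) : r = s := by
  have hk0 : k ≠ 0 := by
    intro h0; rw [h0] at hk; simp at hk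
  have h1 := den_ne_zero hk hr
  have h2 := den_ne_zero hk hs
  unfold mob at h
  rw [div_eq_div_iff h1 h2] at h
  have h3 : 4 * k * (r - s) = 0 := by linear_combination h
  have h4 : (4 : ℂ) * k ≠ 0 := mul_ne_zero (by norm_num) hk0
  rcases mul_eq_zero.mp h3 with h5 | h5
  · exact absurd h5 h4
  · exact sub_eq_zero.mp h5

/-- key algebraic identity -/
lemma mob_sq {k r : ℂ} (hne : (1 - k) * r + (1 + k) ≠ 0) :
    mob k r ^ 2 = 1 + 4 * k * ((r ^ 2 - 1) / ((1 - k) * r + (1 + k)) ^ 2) := by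
  have h : ((1 + k) * r + (1 - k)) ^ 2 = ((1 - k) * r + (1 + k)) ^ 2 + 4 * k * (r ^ 2 - 1) := by ring
  rw [mob, div_pow, h, add_div, div_self (pow_ne_zero 2 hne), mul_div_assoc]

/-! ### The function `P` -/

section P

variable (k n : ℂ) (c : ℝ)

noncomputable def R1 (w : ℂ) : ℂ := Complex.sqrt (1 + 4 * w)
noncomputable def D1 (w : ℂ) : ℂ := ((1 - k) * R1 w + (1 + k)) / 2
noncomputable def A2 (w : ℂ) : ℂ := 1 + 4 * k * c * w / D1 k w ^ 2
noncomputable def R2 (w : ℂ) : ℂ := Complex.sqrt (A2 k c w)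
noncomputable def D2 (w : ℂ) : ℂ := D1 k w * (((1 - n) * R2 k c w + (1 + n)) / 2)
noncomputable def P (w : ℂ) : ℂ := (D2 k n c w)⁻¹

variable {k n c}

lemma R1_re_pos {w : ℂ} (hw : 1 + 4 * w ∈ slitPlane) : 0 < (R1 w).re := sqrt_re_pos hw

lemma R1_sq (w : ℂ) : R1 w ^ 2 = 1 + 4 * w := sqrt_sq' _

lemma D1_ne_zero (hk : ‖k‖ = 1) {w : ℂ} (hw : 1 + 4 * w ∈ slitPlane) : D1 k w ≠ 0 := by
  unfold D1
  exact div_ne_zero (den_ne_zero hk (R1_re_pos hw)) two_ne_zero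

lemma A2_eq (hk : ‖k‖ = 1) {w : ℂ} (hw : 1 + 4 * w ∈ slitPlane) :
    A2 k c w = (1 - c : ℂ) + c * mob k (R1 w) ^ 2 := by
  have hne := den_ne_zero hk (R1_re_pos hw)
  rw [mob_sq hne, R1_sq]
  unfold A2 D1
  field_simp
  ring

lemma A2_mem (hk : ‖k‖ = 1) (hc0 : 0 < c) (hc1 : c ≤ 1) {w : ℂ} (hw : 1 + 4 * w ∈ slitPlane) :
    A2 k c w ∈ slitPlane := by
  rw [A2_eq hk hw]
  exact sq_mem_slitPlane (mob_re_pos hk (R1_re_pos hw)) c hc0 hc1

lemma R2_re_pos (hk : ‖k‖ = 1) (hc0 : 0 < c) (hc1 : c ≤ 1) {w : ℂ} (hw : 1 + 4 * w ∈ slitPlane) :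
    0 < (R2 k c w).re := sqrt_re_pos (A2_mem hk hc0 hc1 hw)

lemma R2_sq (w : ℂ) : R2 k c w ^ 2 = A2 k c w := sqrt_sq' _

lemma D2_ne_zero (hk : ‖k‖ = 1) (hn : ‖n‖ = 1) (hc0 : 0 < c) (hc1 : c ≤ 1) {w : ℂ}
    (hw : 1 + 4 * w ∈ slitPlane) : D2 k n c w ≠ 0 := by
  unfold D2
  exact mul_ne_zero (D1_ne_zero hk hw) (div_ne_zero (den_ne_zero hn (R2_re_pos hk hc0 hc1 hw)) two_ne_zero)

lemma R1_differentiableAt {w : ℂ} (hw : 1 + 4 * w ∈ slitPlane) : DifferentiableAt ℂ R1 w := by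
  unfold R1
  exact DifferentiableAt.comp w (f := fun w : ℂ => 1 + 4 * w) (Complex.differentiableAt_sqrt hw) (by fun_prop)

lemma D1_differentiableAt {w : ℂ} (hw : 1 + 4 * w ∈ slitPlane) : DifferentiableAt ℂ (D1 k) w := by
  unfold D1
  exact (((R1_differentiableAt hw).const_mul (1 - k)).add_const (1 + k)).div_const 2

lemma A2_differentiableAt (hk : ‖k‖ = 1) {w : ℂ} (hw : 1 + 4 * w ∈ slitPlane) :
    DifferentiableAt ℂ (A2 k c) w := by
  unfold A2
  apply DifferentiableAt.const_add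
  apply DifferentiableAt.div (by fun_prop) ((D1_differentiableAt hw).pow 2)
  exact pow_ne_zero 2 (D1_ne_zero hk hw)

lemma R2_differentiableAt (hk : ‖k‖ = 1) (hc0 : 0 < c) (hc1 : c ≤ 1) {w : ℂ} (hw : 1 + 4 * w ∈ slitPlane) :
    DifferentiableAt ℂ (R2 k c) w := by
  unfold R2
  exact DifferentiableAt.comp w (f := A2 k c) (Complex.differentiableAt_sqrt (A2_mem hk hc0 hc1 hw))
    (A2_differentiableAt hk hw)

lemma D2_differentiableAt (hk : ‖k‖ = 1) (hc0 : 0 < c) (hc1 : c ≤ 1) {w : ℂ} (hw : 1 + 4 * w ∈ slitPlane) :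
    DifferentiableAt ℂ (D2 k n c) w := by
  unfold D2
  exact (D1_differentiableAt hw).mul
    ((((R2_differentiableAt hk hc0 hc1 hw).const_mul (1 - n)).add_const (1 + n)).div_const 2)

lemma P_differentiableAt (hk : ‖k‖ = 1) (hn : ‖n‖ = 1) (hc0 : 0 < c) (hc1 : c ≤ 1) {w : ℂ}
    (hw : 1 + 4 * w ∈ slitPlane) : DifferentiableAt ℂ (P k n c) w :=
  (D2_differentiableAt hk hc0 hc1 hw).inv (D2_ne_zero hk hn hc0 hc1 hw)

lemma R1_zero : R1 0 = 1 := by simp [R1]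
lemma D1_zero : D1 k 0 = 1 := by
  unfold D1; rw [R1_zero]; ring
lemma A2_zero : A2 k c 0 = 1 := by simp [A2]
lemma R2_zero : R2 k c 0 = 1 := by unfold R2; rw [A2_zero]; simp
lemma D2_zero : D2 k n c 0 = 1 := by
  unfold D2; rw [D1_zero, R2_zero]; ring
lemma P_zero : P k n c 0 = 1 := by
  unfold P; rw [D2_zero]; simp

/-- the injectivity of `w P(w)²` -/
lemma T_inj (hk : ‖k‖ = 1) (hn : ‖n‖ = 1) (hc0 : 0 < c) (hc1 : c ≤ 1) {w v : ℂ}
    (hw : 1 + 4 * w ∈ slitPlane) (hv : 1 + 4 * v ∈ slitPlane)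
    (h : w * P k n c w ^ 2 = v * P k n c v ^ 2) : w = v := by
  have hk0 : k ≠ 0 := by
    intro h0; rw [h0] at hk; simp at hk
  have hcne : (c : ℂ) ≠ 0 := by exact_mod_cast hc0.ne'
  have key : ∀ u : ℂ, 1 + 4 * u ∈ slitPlane →
      mob n (R2 k c u) ^ 2 = 1 + 4 * n * (4 * k * c) * (u * P k n c u ^ 2) / 4 := by
    intro u hu
    have h1 := den_ne_zero hn (R2_re_pos hk hc0 hc1 hu)
    have h2 := D1_ne_zero hk hu
    rw [mob_sq h1, R2_sq]
    unfold P D2 A2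
    field_simp
    ring
  have e1 : mob n (R2 k c w) ^ 2 = mob n (R2 k c v) ^ 2 := by
    rw [key w hw, key v hv, h]
  have e2 := eq_of_sq_eq (mob_re_pos hn (R2_re_pos hk hc0 hc1 hw)) (mob_re_pos hn (R2_re_pos hk hc0 hc1 hv)) e1
  have e3 := mob_inj hn (R2_re_pos hk hc0 hc1 hw) (R2_re_pos hk hc0 hc1 hv) e2
  have e4 : A2 k c w = A2 k c v := by rw [← R2_sq, ← R2_sq, e3]
  rw [A2_eq hk hw, A2_eq hk hv] at e4
  have e5 : mob k (R1 w) ^ 2 = mob k (R1 v) ^ 2 := by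
    have : (c : ℂ) * mob k (R1 w) ^ 2 = c * mob k (R1 v) ^ 2 := by linear_combination e4
    exact mul_left_cancel₀ hcne this
  have e6 := eq_of_sq_eq (mob_re_pos hk (R1_re_pos hw)) (mob_re_pos hk (R1_re_pos hv)) e5
  have e7 := mob_inj hk (R1_re_pos hw) (R1_re_pos hv) e6
  have e8 : (1 : ℂ) + 4 * w = 1 + 4 * v := by rw [← R1_sq, ← R1_sq, e7]
  linear_combination e8 / 4

end P

/-! ### The functions on the disc -/

/-- Koebe function -/
noncomputable def koebe (z : ℂ) : ℂ := z * ((1 - z)⁻¹) ^ 2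

lemma one_sub_ne_zero {z : ℂ} (hz : ‖z‖ < 1) : 1 - z ≠ 0 := by
  intro h
  have : z = 1 := by linear_combination -h
  rw [this] at hz
  simp at hz

lemma cayley_re_pos {z : ℂ} (hz : ‖z‖ < 1) : 0 < ((1 + z) / (1 - z)).re := by
  have hne := one_sub_ne_zero hz
  have h1 := div_eq_mul_conj (1 + z) hne
  have h2 : ((1 + z) * (starRingEnd ℂ) (1 - z)).re = 1 - ‖z‖ ^ 2 := by
    rw [← Complex.normSq_eq_norm_sq, Complex.normSq_apply]
    simp only [map_sub, map_one, mul_re, add_re, sub_re, one_re, add_im, sub_im, one_im, conj_re, conj_im]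
    ring
  rw [h1, Complex.div_ofReal_re, h2]
  have h3 : 0 < ‖1 - z‖ := norm_pos_iff.mpr hne
  have h4 : ‖z‖ ^ 2 < 1 := by nlinarith [norm_nonneg z]
  apply div_pos (by linarith) (by positivity)

lemma koebe_mem {z : ℂ} (hz : ‖z‖ < 1) {q : ℝ} (hq0 : 0 < q) (hq1 : q ≤ 1) :
    1 + 4 * ((q : ℂ) * koebe z) ∈ slitPlane := by
  have hne := one_sub_ne_zero hz
  have h1 : 1 + 4 * ((q : ℂ) * koebe z) = (1 - q : ℂ) + q * ((1 + z) / (1 - z)) ^ 2 := by
    unfold koebe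
    field_simp
    ring
  rw [h1]
  exact sq_mem_slitPlane (cayley_re_pos hz) q hq0 hq1

lemma koebe_inj {z w : ℂ} (hz : ‖z‖ < 1) (hw : ‖w‖ < 1) (h : koebe z = koebe w) : z = w := by
  have h1 := one_sub_ne_zero hz
  have h2 := one_sub_ne_zero hw
  unfold koebe at h
  have h3 : (z - w) * (1 - z * w) = 0 := by
    field_simp at h
    linear_combination h
  rcases mul_eq_zero.mp h3 with h4 | h4
  · exact sub_eq_zero.mp h4
  · exfalso
    have h5 : z * w = 1 := by linear_combination -h4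
    have h6 : ‖z‖ * ‖w‖ = 1 := by rw [← norm_mul, h5, norm_one]
    nlinarith [norm_nonneg z, norm_nonneg w]

section G

variable (k n : ℂ) (c q : ℝ)

/-- square root of `f z / z` -/
noncomputable def Gq (z : ℂ) : ℂ := P k n c (q * koebe z) * (1 - z)⁻¹

/-- the univalent function -/
noncomputable def fq (z : ℂ) : ℂ := z * Gq k n c q z ^ 2

variable {k n c q}

lemma koebe_differentiableAt {z : ℂ} (hz : ‖z‖ < 1) : DifferentiableAt ℂ koebe z := by
  unfold koebe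
  have hne := one_sub_ne_zero hz
  have h1 : DifferentiableAt ℂ (fun z : ℂ => (1 - z)⁻¹) z := by
    apply DifferentiableAt.inv (by fun_prop) hne
  exact differentiableAt_id.mul (h1.pow 2)

lemma Gq_differentiableAt (hk : ‖k‖ = 1) (hn : ‖n‖ = 1) (hc0 : 0 < c) (hc1 : c ≤ 1) (hq0 : 0 < q) (hq1 : q ≤ 1)
    {z : ℂ} (hz : ‖z‖ < 1) : DifferentiableAt ℂ (Gq k n c q) z := by
  unfold Gq
  have hne := one_sub_ne_zero hz
  have h1 : DifferentiableAt ℂ (fun z : ℂ => (1 - z)⁻¹) z := by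
    apply DifferentiableAt.inv (by fun_prop) hne
  have h2 : DifferentiableAt ℂ (fun z : ℂ => (q : ℂ) * koebe z) z := (koebe_differentiableAt hz).const_mul _
  have h3 := P_differentiableAt (n := n) hk hn hc0 hc1 (koebe_mem hz hq0 hq1)
  exact (DifferentiableAt.comp z (f := fun z : ℂ => (q : ℂ) * koebe z) h3 h2).mul h1

lemma Gq_ne_zero (hk : ‖k‖ = 1) (hn : ‖n‖ = 1) (hc0 : 0 < c) (hc1 : c ≤ 1) (hq0 : 0 < q) (hq1 : q ≤ 1)
    {z : ℂ} (hz : ‖z‖ < 1) : Gq k n c q z ≠ 0 := by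
  unfold Gq P
  exact mul_ne_zero (inv_ne_zero (D2_ne_zero hk hn hc0 hc1 (koebe_mem hz hq0 hq1)))
    (inv_ne_zero (one_sub_ne_zero hz))

lemma Gq_zero : Gq k n c q 0 = 1 := by
  unfold Gq koebe
  simp [P_zero]

lemma fq_inj (hk : ‖k‖ = 1) (hn : ‖n‖ = 1) (hc0 : 0 < c) (hc1 : c ≤ 1) (hq0 : 0 < q) (hq1 : q ≤ 1) :
    Set.InjOn (fq k n c q) (Metric.ball (0:ℂ) 1) := by
  intro z hz w hw h
  have hz' : ‖z‖ < 1 := by simpa using hz
  have hw' : ‖w‖ < 1 := by simpa using hw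
  have hqne : (q : ℂ) ≠ 0 := by exact_mod_cast hq0.ne'
  have e : ∀ u : ℂ, (q : ℂ) * koebe u * P k n c (q * koebe u) ^ 2 = q * fq k n c q u := by
    intro u
    unfold fq Gq koebe
    ring
  have h1 : (q : ℂ) * koebe z * P k n c (q * koebe z) ^ 2 = (q : ℂ) * koebe w * P k n c (q * koebe w) ^ 2 := by
    rw [e, e, h]
  have h2 := T_inj hk hn hc0 hc1 (koebe_mem hz' hq0 hq1) (koebe_mem hw' hq0 hq1) h1
  exact koebe_inj hz' hw' (mul_left_cancel₀ hqne h2)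

end G

end Pool.Agent.Helper809.KP
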