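import Pool.Agent.Helper809.KPSeries

set_option autoImplicit false

open Filter Topology Finset Complex

namespace Pool.Agent.Helper809.KP

lemma norm_sq_mk {z : ℂ} {a b : ℝ} (hz : z = (a : ℂ) + (b : ℂ) * I) : ‖z‖ ^ 2 = a ^ 2 + b ^ 2 := by
  rw [← Complex.normSq_eq_norm_sq, Complex.normSq_apply, hz]
  simp
  ring

lemma norm_mk_le {z : ℂ} {a b M : ℝ} (hz : z = (a : ℂ) + (b : ℂ) * I) (hM : 0 ≤ M)
    (h : a ^ 2 + b ^ 2 ≤ M ^ 2) : ‖z‖ ≤ M := by
  have h1 := norm_sq_mk hz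
  rw [← h1] at h
  exact (pow_le_pow_iff_left₀ (norm_nonneg z) hM two_ne_zero).mp h

lemma le_norm_mk {z : ℂ} {a b M : ℝ} (hz : z = (a : ℂ) + (b : ℂ) * I) (hM : 0 ≤ M)
    (h : M ^ 2 ≤ a ^ 2 + b ^ 2) : M ≤ ‖z‖ := by
  have h1 := norm_sq_mk hz
  rw [← h1] at h
  exact (pow_le_pow_iff_left₀ hM (norm_nonneg z) two_ne_zero).mp h

lemma n1 : ‖1 - kap‖ ≤ 1 / 10 := by
  apply norm_mk_le (a := 1 / 221) (b := -21 / 221)
  · unfold kap; push_cast; ring
  · norm_num
  · norm_num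

lemma n2 : 199 / 100 ≤ ‖1 + kap‖ := by
  apply le_norm_mk (a := 441 / 221) (b := 21 / 221)
  · unfold kap; push_cast; ring
  · norm_num
  · norm_num

lemma n3 : ‖1 - nu‖ ≤ 13 / 100 := by
  apply norm_mk_le (a := 2 / 257) (b := 32 / 257)
  · unfold nu; push_cast; ring
  · norm_num
  · norm_num

lemma n4 : 199 / 100 ≤ ‖1 + nu‖ := by
  apply le_norm_mk (a := 512 / 257) (b := -32 / 257)
  · unfold nu; push_cast; ring
  · norm_num
  · norm_num

lemma den_lower {x y r : ℂ} {a b M : ℝ} (hx : ‖x‖ ≤ a) (hr : ‖r‖ ≤ M) (hy : b ≤ ‖y‖) :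
    (b - a * M) / 2 ≤ ‖(x * r + y) / 2‖ := by
  rw [norm_div]
  have h1 : ‖x * r‖ ≤ a * M := by
    rw [norm_mul]; gcongr
    exact le_trans (norm_nonneg _) hx
  have h2 : ‖y‖ ≤ ‖x * r + y‖ + ‖x * r‖ := by
    have : y = (x * r + y) - x * r := by ring
    calc ‖y‖ = ‖(x * r + y) - x * r‖ := by rw [← this]
      _ ≤ _ := norm_sub_le _ _
  have h3 : ‖(2 : ℂ)‖ = 2 := by simp
  rw [h3]
  linarith

lemma norm_PP_le {w : ℂ} (hw : ‖w‖ ≤ 6 / 25) : ‖PP w‖ ≤ 2 := by
  have hR1 : ‖R1 w‖ ≤ 7 / 5 := by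
    have h1 : ‖R1 w‖ ^ 2 ≤ (7 / 5) ^ 2 := by
      rw [← norm_pow, R1_sq]
      calc ‖1 + 4 * w‖ ≤ ‖(1 : ℂ)‖ + ‖4 * w‖ := norm_add_le _ _
        _ = 1 + 4 * ‖w‖ := by rw [norm_mul]; simp
        _ ≤ _ := by linarith
    exact (pow_le_pow_iff_left₀ (norm_nonneg _) (by norm_num) two_ne_zero).mp h1
  have hD1 : 9 / 10 ≤ ‖D1 kap w‖ := by
    have := den_lower n1 hR1 n2
    unfold D1
    linarith
  have hA2 : ‖A2 kap cc w‖ ≤ (3 / 2) ^ 2 := by
    unfold A2
    have h1 : ‖4 * kap * (cc : ℂ) * w / D1 kap w ^ 2‖ ≤ 4 * (9 / 11) * (6 / 25) / (9 / 10) ^ 2 := by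
      rw [norm_div, norm_mul, norm_mul, norm_mul, norm_pow, norm_kap]
      have h3 : ‖(4 : ℂ)‖ = 4 := by simp
      have h4 : ‖(cc : ℂ)‖ = 9 / 11 := by
        rw [Complex.norm_real]; unfold cc; norm_num
      rw [h3, h4, mul_one]
      gcongr
    calc ‖1 + 4 * kap * (cc : ℂ) * w / D1 kap w ^ 2‖ ≤ ‖(1 : ℂ)‖ + ‖4 * kap * (cc : ℂ) * w / D1 kap w ^ 2‖ :=
          norm_add_le _ _
      _ ≤ 1 + 4 * (9 / 11) * (6 / 25) / (9 / 10) ^ 2 := by
          rw [norm_one]; linarith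
      _ ≤ _ := by norm_num
  have hR2 : ‖R2 kap cc w‖ ≤ 3 / 2 := by
    have h1 : ‖R2 kap cc w‖ ^ 2 ≤ (3 / 2) ^ 2 := by
      rw [← norm_pow, R2_sq]; exact hA2
    exact (pow_le_pow_iff_left₀ (norm_nonneg _) (by norm_num) two_ne_zero).mp h1
  have hD2 : 1 / 2 ≤ ‖D2 kap nu cc w‖ := by
    have := den_lower n3 hR2 n4
    unfold D2
    rw [norm_mul]
    have h2 : (8 : ℝ) / 10 ≤ ‖((1 - nu) * R2 kap cc w + (1 + nu)) / 2‖ := by linarith
    calc (1 : ℝ) / 2 ≤ 9 / 10 * (8 / 10) := by norm_num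
      _ ≤ _ := by gcongr
  unfold PP P
  rw [norm_inv]
  rw [inv_le_comm₀ (by linarith) (by norm_num)]
  linarith

lemma slit_of_norm {w : ℂ} (hw : ‖w‖ ≤ 6 / 25) : 1 + 4 * w ∈ slitPlane := by
  rw [Complex.mem_slitPlane_iff]
  left
  have h1 : |w.re| ≤ ‖w‖ := Complex.abs_re_le_norm w
  have h2 := (abs_le.mp h1).1
  simp
  linarith

lemma norm_tc_PP (j : ℕ) : ‖tc PP j‖ ≤ 2 * (25 / 6) ^ j := by
  have hd : DiffContOnCl ℂ PP (Metric.ball 0 (6 / 25)) := by
    apply DifferentiableOn.diffContOnCl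
    rw [closure_ball _ (by norm_num)]
    intro w hw
    apply DifferentiableAt.differentiableWithinAt
    exact P_differentiableAt norm_kap norm_nu cc_pos cc_le (slit_of_norm (by simpa using hw))
  have h := Complex.norm_iteratedDeriv_le_of_forall_mem_sphere_norm_le (n := j) (c := 0) (R := 6 / 25) (C := 2)
    (f := PP) (by norm_num) hd (fun z hz => norm_PP_le (by
      rw [mem_sphere_zero_iff_norm] at hz; exact hz.le))
  unfold tc
  rw [norm_div, Complex.norm_natCast]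
  have hf : (0 : ℝ) < (j.factorial : ℝ) := by positivity
  rw [div_le_iff₀ hf]
  refine h.trans (le_of_eq ?_)
  have : ((25 : ℝ) / 6) ^ j = 1 / (6 / 25) ^ j := by
    rw [← one_div_pow]; norm_num
  rw [this]
  ring

/-- the `n`th Taylor coefficient of `G_q` for `q = 47 / n ^ 2` -/
noncomputable def an (n : ℕ) : ℂ :=
  ∑ j ∈ range (n + 1), tc PP j * ((47 / (n : ℝ) ^ 2 : ℝ) : ℂ) ^ j * ((n + j).choose (2 * j) : ℕ)

noncomputable def gterm (j : ℕ) : ℂ := tc PP j * 47 ^ j / (2 * j).factorial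

lemma choose_limit (j : ℕ) :
    Tendsto (fun n : ℕ => (((n + j).choose (2 * j) : ℕ) : ℝ) / (n : ℝ) ^ (2 * j)) atTop
      (𝓝 (1 / ((2 * j).factorial : ℝ))) := by
  have hf : (0 : ℝ) < ((2 * j).factorial : ℝ) := by positivity
  have e : ∀ n : ℕ, (((n + j).choose (2 * j) : ℕ) : ℝ) / (n : ℝ) ^ (2 * j) =
      (((n + j).descFactorial (2 * j) : ℕ) : ℝ) / (n : ℝ) ^ (2 * j) / ((2 * j).factorial : ℝ) := by
    intro n
    rw [Nat.descFactorial_eq_factorial_mul_choose]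
    push_cast
    field_simp
  simp_rw [e]
  apply Tendsto.div_const
  have l1 : Tendsto (fun n : ℕ => (((n : ℝ) + (j : ℝ)) / (n : ℝ)) ^ (2 * j)) atTop (𝓝 1) := by
    have : Tendsto (fun n : ℕ => ((n : ℝ) + (j : ℝ)) / (n : ℝ)) atTop (𝓝 1) := by
      have h1 : Tendsto (fun n : ℕ => 1 + (j : ℝ) / (n : ℝ)) atTop (𝓝 (1 + 0)) :=
        tendsto_const_nhds.add (tendsto_const_div_atTop_nhds_zero_nat (j : ℝ))
      rw [add_zero] at h1
      refine h1.congr' ?_
      filter_upwards [eventually_gt_atTop 0] with n hn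
      have : (n : ℝ) ≠ 0 := by exact_mod_cast hn.ne'
      field_simp
    simpa using this.pow (2 * j)
  have l2 : Tendsto (fun n : ℕ => (((n : ℝ) - (j : ℝ)) / (n : ℝ)) ^ (2 * j)) atTop (𝓝 1) := by
    have : Tendsto (fun n : ℕ => ((n : ℝ) - (j : ℝ)) / (n : ℝ)) atTop (𝓝 1) := by
      have h1 : Tendsto (fun n : ℕ => 1 - (j : ℝ) / (n : ℝ)) atTop (𝓝 (1 - 0)) :=
        tendsto_const_nhds.sub (tendsto_const_div_atTop_nhds_zero_nat (j : ℝ))
      rw [sub_zero] at h1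
      refine h1.congr' ?_
      filter_upwards [eventually_gt_atTop 0] with n hn
      have : (n : ℝ) ≠ 0 := by exact_mod_cast hn.ne'
      field_simp
    simpa using this.pow (2 * j)
  refine tendsto_of_tendsto_of_tendsto_of_le_of_le' l2 l1 ?_ ?_
  · filter_upwards [eventually_gt_atTop 0, eventually_ge_atTop j] with n hn hj
    rw [div_pow]
    gcongr
    have h1 := Nat.pow_sub_le_descFactorial (n + j) (2 * j)
    have h2 : (n - j) ^ (2 * j) ≤ (n + j).descFactorial (2 * j) := by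
      refine le_trans (Nat.pow_le_pow_left ?_ _) h1
      omega
    have h3 : (((n - j) ^ (2 * j) : ℕ) : ℝ) ≤ (((n + j).descFactorial (2 * j) : ℕ) : ℝ) := by
      exact_mod_cast h2
    rw [Nat.cast_pow, Nat.cast_sub hj] at h3
    exact h3
  · filter_upwards [eventually_gt_atTop 0] with n hn
    rw [div_pow]
    gcongr
    have h1 := Nat.descFactorial_le_pow (n + j) (2 * j)
    have h3 : (((n + j).descFactorial (2 * j) : ℕ) : ℝ) ≤ (((n + j) ^ (2 * j) : ℕ) : ℝ) := by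
      exact_mod_cast h1
    push_cast at h3
    exact h3

lemma an_tendsto : Tendsto an atTop (𝓝 (∑' j, gterm j)) := by
  have key : Tendsto (fun n : ℕ => ∑' j : ℕ, tc PP j * ((47 / (n : ℝ) ^ 2 : ℝ) : ℂ) ^ j *
      ((n + j).choose (2 * j) : ℕ)) atTop (𝓝 (∑' j, gterm j)) := by
    refine tendsto_tsum_of_dominated_convergence (bound := fun j : ℕ => 2 * ((2350 / 3 : ℝ) ^ j / (j.factorial : ℝ)))
      ?_ ?_ ?_
    · exact (Real.summable_pow_div_factorial _).mul_left 2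
    · intro j
      have h1 := choose_limit j
      have h2 : Tendsto (fun n : ℕ => tc PP j * 47 ^ j *
          (((((n + j).choose (2 * j) : ℕ) : ℝ) / (n : ℝ) ^ (2 * j) : ℝ) : ℂ)) atTop
          (𝓝 (tc PP j * 47 ^ j * ((1 / ((2 * j).factorial : ℝ) : ℝ) : ℂ))) := by
        apply Tendsto.const_mul
        exact (Complex.continuous_ofReal.tendsto _).comp h1
      have h3 : gterm j = tc PP j * 47 ^ j * ((1 / ((2 * j).factorial : ℝ) : ℝ) : ℂ) := by
        unfold gterm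
        push_cast
        ring
      rw [h3]
      refine h2.congr fun n => ?_
      push_cast
      rw [div_pow, pow_mul]
      ring
    · filter_upwards [eventually_gt_atTop 0] with n hn j
      have hn' : (0 : ℝ) < n := by exact_mod_cast hn
      rw [norm_mul, norm_mul, norm_pow, Complex.norm_real, Complex.norm_natCast,
        Real.norm_of_nonneg (by positivity)]
      by_cases hj : j ≤ n
      · have c1 : (((n + j).choose (2 * j) : ℕ) : ℝ) ≤ (2 * (n : ℝ)) ^ (2 * j) / (j.factorial : ℝ) := by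
          calc (((n + j).choose (2 * j) : ℕ) : ℝ) ≤ ((n + j : ℕ) : ℝ) ^ (2 * j) / ((2 * j).factorial : ℝ) :=
                Nat.choose_le_pow_div _ _
            _ ≤ (2 * (n : ℝ)) ^ (2 * j) / (j.factorial : ℝ) := by
                gcongr
                · push_cast
                  have : (j : ℝ) ≤ n := by exact_mod_cast hj
                  linarith
                · omega
        calc ‖tc PP j‖ * (47 / (n : ℝ) ^ 2) ^ j * (((n + j).choose (2 * j) : ℕ) : ℝ)
            ≤ (2 * (25 / 6) ^ j) * (47 / (n : ℝ) ^ 2) ^ j * ((2 * (n : ℝ)) ^ (2 * j) / (j.factorial : ℝ)) := by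
              gcongr
              exact norm_tc_PP j
          _ = 2 * (((25 / 6) ^ j * (47 / (n : ℝ) ^ 2) ^ j * ((2 * (n : ℝ)) ^ 2) ^ j) / (j.factorial : ℝ)) := by
              rw [pow_mul]; ring
          _ = 2 * ((2350 / 3 : ℝ) ^ j / (j.factorial : ℝ)) := by
              rw [← mul_pow, ← mul_pow]
              congr 3
              field_simp
              norm_num
      · rw [Nat.choose_eq_zero_of_lt (by omega)]
        simp only [Nat.cast_zero, mul_zero]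
        positivity
  refine key.congr fun n => ?_
  unfold an
  rw [tsum_eq_sum]
  intro j hj
  rw [Finset.mem_range, not_lt] at hj
  rw [Nat.choose_eq_zero_of_lt (by omega)]
  simp

/-! ### the numerical estimate -/

lemma norm_gterm (j : ℕ) : ‖gterm j‖ ≤ 2 * ((1175 / 6 : ℝ) ^ j / ((2 * j).factorial : ℝ)) := by
  unfold gterm
  rw [norm_div, norm_mul, norm_pow, Complex.norm_natCast]
  have h : ‖(47 : ℂ)‖ = 47 := by simp
  rw [h]
  calc ‖tc PP j‖ * 47 ^ j / ((2 * j).factorial : ℝ) ≤ (2 * (25 / 6) ^ j) * 47 ^ j / ((2 * j).factorial : ℝ) := by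
        gcongr
        exact norm_tc_PP j
    _ = 2 * (((25 / 6) * 47 : ℝ) ^ j / ((2 * j).factorial : ℝ)) := by rw [mul_pow]; ring
    _ = _ := by norm_num

lemma ratio_le (i : ℕ) :
    (1175 / 6 : ℝ) / (((2 * (i + 26) + 2 : ℕ) : ℝ) * ((2 * (i + 26) + 1 : ℕ) : ℝ)) ≤ 1 / 2 := by
  rw [div_le_iff₀ (by positivity)]
  push_cast
  have : (0 : ℝ) ≤ i := Nat.cast_nonneg i
  nlinarith

lemma step_le {x a r p F q t : ℝ} (hF : 0 < F) (hp : 0 ≤ p) (h3 : x / (a * r) ≤ 1 / 2)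
    (ih : p / F ≤ q * t) : x * p / (a * r * F) ≤ q * (t * (1 / 2)) := by
  rw [mul_div_mul_comm]
  have h4 : 0 ≤ p / F := div_nonneg hp hF.le
  have h5 := mul_le_mul h3 ih h4 (by norm_num)
  linarith

lemma fac_succ2 (i : ℕ) : (((2 * (i + 1 + 26)).factorial : ℕ) : ℝ) =
    ((2 * (i + 26) + 2 : ℕ) : ℝ) * ((2 * (i + 26) + 1 : ℕ) : ℝ) * ((2 * (i + 26)).factorial : ℝ) := by
  have : 2 * (i + 1 + 26) = 2 * (i + 26) + 1 + 1 := by ring
  rw [this, Nat.factorial_succ, Nat.factorial_succ]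
  push_cast
  ring

lemma tail_key (i : ℕ) : (1175 / 6 : ℝ) ^ (i + 26) / ((2 * (i + 26)).factorial : ℝ) ≤
    1 / 40000000 * (1 / 2) ^ i := by
  induction i with
  | zero =>
    norm_num [Nat.factorial]
  | succ i ih =>
    rw [fac_succ2]
    have h2 : (1175 / 6 : ℝ) ^ (i + 1 + 26) = (1175 / 6) * (1175 / 6 : ℝ) ^ (i + 26) := by
      rw [← pow_succ']
    rw [h2, pow_succ]
    have h3 : (0 : ℝ) ≤ (1175 / 6 : ℝ) ^ (i + 26) := pow_nonneg (by norm_num) _
    exact step_le (Nat.cast_pos.mpr (Nat.factorial_pos _)) h3 (ratio_le i) ih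

lemma tail_term (i : ℕ) : ‖gterm (i + 26)‖ ≤ 1 / 20000000 * (1 / 2) ^ i := by
  refine (norm_gterm _).trans ?_
  have h := mul_le_mul_of_nonneg_left (tail_key i) (by norm_num : (0 : ℝ) ≤ 2)
  refine h.trans (le_of_eq ?_)
  rw [← mul_assoc]
  norm_num

lemma summable_gterm : Summable gterm := by
  apply Summable.of_norm_bounded (g := fun j : ℕ => 2 * ((1175 / 6 : ℝ) ^ j / (j.factorial : ℝ)))
    ((Real.summable_pow_div_factorial _).mul_left 2)
  intro j
  refine (norm_gterm j).trans ?_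
  gcongr
  omega

lemma headDen_cast : (headDen : ℂ) = QQ ^ 25 * ((Nat.factorial 50 : ℕ) : ℂ) := by
  unfold headDen QQ
  rw [Int.cast_mul, Int.cast_pow, Int.cast_natCast, Int.cast_ofNat]

lemma head_eq : (∑ j ∈ range 26, gterm j) * (headDen : ℂ) = GaussianInt.toComplex headSum := by
  rw [headDen_cast]
  unfold headSum
  rw [map_sum, Finset.sum_mul]
  refine Finset.sum_congr rfl fun j hj => ?_
  rw [Finset.mem_range] at hj
  rw [map_mul, ← tc_PP j hj, toC_mk]
  unfold gterm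
  have hd : ((2 * j).factorial : ℤ) ∣ ((50).factorial : ℤ) := by
    exact_mod_cast Nat.factorial_dvd_factorial (by omega)
  have hne : ((((2 * j).factorial : ℕ) : ℤ) : ℂ) ≠ 0 := by
    exact_mod_cast (Nat.factorial_pos _).ne'
  have hne' : (((2 * j).factorial : ℕ) : ℂ) ≠ 0 := by exact_mod_cast (Nat.factorial_pos _).ne'
  have hq : (QQ : ℂ) ^ 25 = QQ ^ j * QQ ^ (25 - j) := by
    rw [← pow_add]; congr 1; omega
  have hQ : ((1249534 : ℤ) : ℂ) = QQ := by unfold QQ; norm_num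
  rw [Int.cast_mul, Int.cast_mul, Int.cast_div hd hne, Int.cast_pow, Int.cast_pow, hQ, hq,
    Int.cast_natCast, Int.cast_natCast, Int.cast_zero, Int.cast_ofNat]
  generalize ((Nat.factorial 50 : ℕ) : ℂ) = A
  generalize ((Nat.factorial (2 * j) : ℕ) : ℂ) = B at hne'
  field_simp
  ring

lemma head_norm : 1000005 / 1000000 ≤ ‖∑ j ∈ range 26, gterm j‖ := by
  have h1 := congrArg norm head_eq
  rw [norm_mul] at h1
  have hD : (0 : ℝ) < (headDen : ℝ) := by
    have : (0 : ℤ) < headDen := by unfold headDen; positivity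
    exact_mod_cast this
  have h2 : ‖(headDen : ℂ)‖ = (headDen : ℝ) := by
    rw [Complex.norm_intCast, abs_of_pos hD]
  rw [h2] at h1
  have h3 : ‖GaussianInt.toComplex headSum‖ ^ 2 = (headSum.re : ℝ) ^ 2 + (headSum.im : ℝ) ^ 2 := by
    apply norm_sq_mk
    rw [GaussianInt.toComplex_def]
    push_cast
    ring
  have h4 : ((1000005 : ℝ)) ^ 2 * (headDen : ℝ) ^ 2 ≤ 1000000 ^ 2 * ((headSum.re : ℝ) ^ 2 + (headSum.im : ℝ) ^ 2) := by
    exact_mod_cast check6
  rw [← h3, ← h1, ← mul_pow] at h4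
  rw [← mul_pow] at h4
  have h6 := (pow_le_pow_iff_left₀ (by positivity) (by positivity) two_ne_zero).mp h4
  have h7 : 1000005 ≤ 1000000 * ‖∑ j ∈ range 26, gterm j‖ := by
    by_contra hcon
    push Not at hcon
    nlinarith
  linarith

lemma Lam_norm : 1000004 / 1000000 ≤ ‖∑' j, gterm j‖ := by
  have h1 := summable_gterm.sum_add_tsum_nat_add 26
  have h2 : ‖∑' i : ℕ, gterm (i + 26)‖ ≤ 1 / 10000000 := by
    have hs : Summable (fun i : ℕ => (1 / 20000000 : ℝ) * (1 / 2) ^ i) :=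
      (summable_geometric_of_lt_one (by norm_num) (by norm_num)).mul_left _
    have h3 := tsum_of_norm_bounded (hs.hasSum) tail_term
    refine h3.trans ?_
    rw [tsum_mul_left, tsum_geometric_of_lt_one (by norm_num) (by norm_num)]
    norm_num
  have h4 := head_norm
  have h5 : ‖∑ j ∈ range 26, gterm j‖ ≤ ‖∑' j, gterm j‖ + ‖∑' i : ℕ, gterm (i + 26)‖ := by
    have : ∑ j ∈ range 26, gterm j = (∑' j, gterm j) - ∑' i : ℕ, gterm (i + 26) := by
      rw [← h1]; ring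
    rw [this]
    exact norm_sub_le _ _
  linarith

end Pool.Agent.Helper809.KP
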