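import Pool.Agent.Helper809.KPGeom
import Pool.Agent.Helper809.KPCert

set_option autoImplicit false

open Filter Topology Finset Complex

namespace Pool.Agent.Helper809.KP

noncomputable def kap : ℂ := (220 + 21 * I) / 221
noncomputable def nu : ℂ := (255 - 32 * I) / 257
noncomputable def cc : ℝ := 9 / 11
noncomputable def QQ : ℂ := 1249534

lemma norm_kap : ‖kap‖ = 1 := by
  have h : ‖kap‖ ^ 2 = 1 := by
    rw [← Complex.normSq_eq_norm_sq, Complex.normSq_apply]
    have h1 : kap.re = 220 / 221 := by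
      have : kap = ((220 / 221 : ℝ) : ℂ) + ((21 / 221 : ℝ) : ℂ) * I := by
        unfold kap; push_cast; ring
      rw [this]; simp
    have h2 : kap.im = 21 / 221 := by
      have : kap = ((220 / 221 : ℝ) : ℂ) + ((21 / 221 : ℝ) : ℂ) * I := by
        unfold kap; push_cast; ring
      rw [this]; simp
    rw [h1, h2]; norm_num
  nlinarith [norm_nonneg kap]

lemma norm_nu : ‖nu‖ = 1 := by
  have h : ‖nu‖ ^ 2 = 1 := by
    rw [← Complex.normSq_eq_norm_sq, Complex.normSq_apply]
    have e : nu = ((255 / 257 : ℝ) : ℂ) + ((-32 / 257 : ℝ) : ℂ) * I := by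
      unfold nu; push_cast; ring
    have h1 : nu.re = 255 / 257 := by rw [e]; simp
    have h2 : nu.im = -32 / 257 := by rw [e]; simp
    rw [h1, h2]; norm_num
  nlinarith [norm_nonneg nu]

lemma cc_pos : 0 < cc := by unfold cc; norm_num
lemma cc_le : cc ≤ 1 := by unfold cc; norm_num

/-- Taylor series as a formal power series -/
noncomputable def tay (f : ℂ → ℂ) : PowerSeries ℂ := PowerSeries.mk (tc f)

lemma tay_mul {f g : ℂ → ℂ} (hf : AnalyticAt ℂ f 0) (hg : AnalyticAt ℂ g 0) :
    tay (fun z => f z * g z) = tay f * tay g := by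
  ext n
  rw [PowerSeries.coeff_mul]
  simp only [tay, PowerSeries.coeff_mk]
  rw [tc_mul hf hg, Finset.Nat.sum_antidiagonal_eq_sum_range_succ (fun i j => tc f i * tc g j)]

lemma tay_add {f g : ℂ → ℂ} (hf : AnalyticAt ℂ f 0) (hg : AnalyticAt ℂ g 0) :
    tay (fun z => f z + g z) = tay f + tay g := by
  ext n
  simp only [tay, map_add, PowerSeries.coeff_mk]
  rw [tc_add hf hg]

lemma tay_const_mul {f : ℂ → ℂ} (hf : AnalyticAt ℂ f 0) (c : ℂ) :
    tay (fun z => c * f z) = PowerSeries.C c * tay f := by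
  ext n
  rw [PowerSeries.coeff_C_mul]
  simp only [tay, PowerSeries.coeff_mk]
  rw [tc_const_mul hf]

lemma tay_const (c : ℂ) : tay (fun _ => c) = PowerSeries.C c := by
  ext n
  simp only [tay, PowerSeries.coeff_mk, tc_const, PowerSeries.coeff_C]

lemma tay_id : tay (fun z => z) = PowerSeries.X := by
  ext n
  have : (fun z : ℂ => z) = fun z => z ^ 1 := by funext z; simp
  simp only [tay, PowerSeries.coeff_mk, PowerSeries.coeff_X]
  rw [this, tc_pow]

lemma tay_congr {f g : ℂ → ℂ} (h : f =ᶠ[𝓝 0] g) : tay f = tay g := by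
  ext n
  simp only [tay, PowerSeries.coeff_mk, tc_congr h]

/-- series of a certificate -/
noncomputable def cs (a : ℕ → GaussianInt) : PowerSeries ℂ :=
  PowerSeries.mk fun j => GaussianInt.toComplex (a j)

lemma coeff_cs_mul (a b : ℕ → GaussianInt) (j : ℕ) :
    PowerSeries.coeff j (cs a * cs b) = GaussianInt.toComplex (conv a b j) := by
  rw [PowerSeries.coeff_mul]
  unfold conv
  rw [map_sum]
  refine Finset.sum_congr rfl fun p _ => ?_
  simp only [cs, PowerSeries.coeff_mk, map_mul]

lemma coeff_cs (a : ℕ → GaussianInt) (j : ℕ) :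
    PowerSeries.coeff j (cs a) = GaussianInt.toComplex (a j) := by
  simp [cs]

lemma analyticAt_of_slit {f : ℂ → ℂ} (h : ∀ w : ℂ, 1 + 4 * w ∈ slitPlane → DifferentiableAt ℂ f w) :
    AnalyticAt ℂ f 0 := by
  rw [Complex.analyticAt_iff_eventually_differentiableAt]
  have h0 : ∀ᶠ w : ℂ in 𝓝 0, 1 + 4 * w ∈ slitPlane := by
    have hc : ContinuousAt (fun w : ℂ => 1 + 4 * w) 0 := by fun_prop
    apply hc.eventually_mem
    apply isOpen_slitPlane.mem_nhds
    simp
  filter_upwards [h0] with w hw using h w hw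

lemma eventually_slit : ∀ᶠ w : ℂ in 𝓝 0, 1 + 4 * w ∈ slitPlane := by
  have hc : ContinuousAt (fun w : ℂ => 1 + 4 * w) 0 := by fun_prop
  apply hc.eventually_mem
  apply isOpen_slitPlane.mem_nhds
  simp

/-- `(√(1 + 4 w) - 1) / 2` -/
noncomputable def SS (w : ℂ) : ℂ := (R1 w - 1) / 2
/-- `D₁ R₂` -/
noncomputable def EE (w : ℂ) : ℂ := D1 kap w * R2 kap cc w
/-- the function `D₂` for the chosen parameters -/
noncomputable def DD (w : ℂ) : ℂ := D2 kap nu cc w
/-- the function `P` for the chosen parameters -/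
noncomputable def PP (w : ℂ) : ℂ := P kap nu cc w

lemma SS_an : AnalyticAt ℂ SS 0 := analyticAt_of_slit fun _ hw =>
  ((R1_differentiableAt hw).sub_const 1).div_const 2

lemma D1_an : AnalyticAt ℂ (D1 kap) 0 := analyticAt_of_slit fun _ hw => D1_differentiableAt hw

lemma EE_an : AnalyticAt ℂ EE 0 := analyticAt_of_slit fun _ hw =>
  (D1_differentiableAt hw).mul (R2_differentiableAt norm_kap cc_pos cc_le hw)

lemma DD_an : AnalyticAt ℂ DD 0 := analyticAt_of_slit fun _ hw =>
  D2_differentiableAt norm_kap cc_pos cc_le hw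

lemma PP_an : AnalyticAt ℂ PP 0 := analyticAt_of_slit fun _ hw =>
  P_differentiableAt norm_kap norm_nu cc_pos cc_le hw

lemma SS_eq (w : ℂ) : SS w + SS w * SS w = w := by
  have := R1_sq w
  unfold SS
  linear_combination this / 4

lemma D1_eq (w : ℂ) : D1 kap w = 1 + (1 - kap) * SS w := by
  unfold D1 SS
  ring

lemma EE_eq : ∀ᶠ w in 𝓝 (0:ℂ), EE w * EE w = D1 kap w * D1 kap w + (4 * kap * cc) * w := by
  filter_upwards [eventually_slit] with w hw
  have h1 := R2_sq (k := kap) (c := cc) w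
  have h2 := D1_ne_zero norm_kap hw
  have h3 : EE w * EE w = D1 kap w ^ 2 * R2 kap cc w ^ 2 := by unfold EE; ring
  rw [h3, h1]
  unfold A2
  field_simp

lemma DD_eq (w : ℂ) : DD w = (1 - nu) / 2 * EE w + (1 + nu) / 2 * D1 kap w := by
  unfold DD D2 EE
  ring

lemma PP_eq : ∀ᶠ w in 𝓝 (0:ℂ), DD w * PP w = 1 := by
  filter_upwards [eventually_slit] with w hw
  have h := D2_ne_zero norm_kap norm_nu cc_pos cc_le hw
  unfold DD PP P
  exact mul_inv_cancel₀ h

/-- rescaled Taylor series -/
noncomputable def rt (f : ℂ → ℂ) : PowerSeries ℂ := PowerSeries.rescale QQ (tay f)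

lemma coeff_rt (f : ℂ → ℂ) (j : ℕ) : PowerSeries.coeff j (rt f) = QQ ^ j * tc f j := by
  simp [rt, tay, PowerSeries.coeff_rescale]

lemma rt_S : rt SS + rt SS * rt SS = PowerSeries.C QQ * PowerSeries.X := by
  have h : tay SS + tay SS * tay SS = PowerSeries.X := by
    rw [← tay_mul SS_an SS_an, ← tay_add SS_an (SS_an.fun_mul SS_an), ← tay_id]
    congr 1
    funext w
    exact SS_eq w
  have := congrArg (PowerSeries.rescale QQ) h
  rw [map_add, map_mul] at this
  rw [rt, this]
  ext n
  rw [PowerSeries.coeff_rescale, PowerSeries.coeff_C_mul, PowerSeries.coeff_X]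
  by_cases hn : n = 1
  · subst hn; simp
  · simp [hn]

lemma rescale_C (q c : ℂ) : PowerSeries.rescale q (PowerSeries.C c) = PowerSeries.C c := by
  ext n
  rw [PowerSeries.coeff_rescale, PowerSeries.coeff_C]
  by_cases hn : n = 0
  · subst hn; simp
  · simp [hn]

lemma rescale_X' (q : ℂ) : PowerSeries.rescale q PowerSeries.X = PowerSeries.C q * PowerSeries.X := by
  ext n
  rw [PowerSeries.coeff_rescale, PowerSeries.coeff_C_mul, PowerSeries.coeff_X]
  by_cases hn : n = 1
  · subst hn; simp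
  · simp [hn]

lemma rt_D1 : rt (D1 kap) = 1 + PowerSeries.C (1 - kap) * rt SS := by
  have h : tay (D1 kap) = PowerSeries.C 1 + PowerSeries.C (1 - kap) * tay SS := by
    rw [← tay_const_mul SS_an, ← tay_const, ← tay_add (by fun_prop) (analyticAt_const.fun_mul SS_an)]
    congr 1
    funext w
    exact D1_eq w
  rw [rt, h, map_add, map_mul, rescale_C, rescale_C, map_one]
  rfl

lemma rt_E : rt EE * rt EE = rt (D1 kap) * rt (D1 kap) +
    PowerSeries.C (4 * kap * cc * QQ) * PowerSeries.X := by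
  have h : tay EE * tay EE = tay (D1 kap) * tay (D1 kap) +
      PowerSeries.C (4 * kap * cc) * PowerSeries.X := by
    rw [← tay_mul EE_an EE_an, ← tay_mul D1_an D1_an, ← tay_id, ← tay_const_mul (by fun_prop),
      ← tay_add (D1_an.fun_mul D1_an) (by fun_prop)]
    exact tay_congr EE_eq
  have := congrArg (PowerSeries.rescale QQ) h
  rw [map_add, map_mul, map_mul, map_mul, rescale_C, rescale_X'] at this
  rw [rt, rt, this, map_mul PowerSeries.C (4 * kap * cc)]
  ring

lemma rt_D2 : rt DD = PowerSeries.C ((1 - nu) / 2) * rt EE + PowerSeries.C ((1 + nu) / 2) * rt (D1 kap) := by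
  have h : tay DD = PowerSeries.C ((1 - nu) / 2) * tay EE + PowerSeries.C ((1 + nu) / 2) * tay (D1 kap) := by
    rw [← tay_const_mul EE_an, ← tay_const_mul D1_an,
      ← tay_add (analyticAt_const.fun_mul EE_an) (analyticAt_const.fun_mul D1_an)]
    congr 1
    funext w
    exact DD_eq w
  rw [rt, h, map_add, map_mul, map_mul, rescale_C, rescale_C]
  rfl

lemma rt_P : rt DD * rt PP = 1 := by
  have h : tay DD * tay PP = PowerSeries.C 1 := by
    rw [← tay_mul DD_an PP_an, ← tay_const]
    exact tay_congr PP_eq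
  have := congrArg (PowerSeries.rescale QQ) h
  rw [map_mul, rescale_C, map_one] at this
  exact this

/-! ### comparison with the certificate -/

lemma toC_mk (a b : ℤ) : GaussianInt.toComplex ⟨a, b⟩ = (a : ℂ) + b * I := GaussianInt.toComplex_def' a b

lemma cmp_S : (PowerSeries.X : PowerSeries ℂ) ^ 26 ∣ rt SS - cs sS := by
  have hc : (PowerSeries.X : PowerSeries ℂ) ^ 26 ∣ (rt SS - cs sS) * (1 + rt SS + cs sS) := by
    have : (rt SS - cs sS) * (1 + rt SS + cs sS) =
        PowerSeries.C QQ * PowerSeries.X - (cs sS + cs sS * cs sS) := by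
      rw [← rt_S]; ring
    rw [this, PowerSeries.X_pow_dvd_iff]
    intro m hm
    rw [map_sub, map_add, coeff_cs_mul, coeff_cs, ← map_add, check1 m hm, PowerSeries.coeff_C_mul,
      PowerSeries.coeff_X]
    by_cases h : m = 1
    · subst h
      simp only [if_true, mul_one, cQ, toC_mk, QQ]
      push_cast; ring
    · simp [h]
  have hu : IsUnit (1 + rt SS + cs sS) := by
    rw [PowerSeries.isUnit_iff_constantCoeff]
    rw [map_add, map_add, map_one, ← PowerSeries.coeff_zero_eq_constantCoeff_apply,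
      ← PowerSeries.coeff_zero_eq_constantCoeff_apply, coeff_rt, coeff_cs, tc_zero]
    have h1 : SS 0 = 0 := by simp [SS, R1_zero]
    have h2 : sS 0 = 0 := by decide
    rw [h1, h2]; simp
  exact (hu.dvd_mul_right).mp hc

lemma cs_D1 : (PowerSeries.X : PowerSeries ℂ) ^ 26 ∣ cs sD1 - (1 + PowerSeries.C (1 - kap) * cs sS) := by
  rw [PowerSeries.X_pow_dvd_iff]
  intro m hm
  rw [map_sub, map_add, PowerSeries.coeff_C_mul, coeff_cs, coeff_cs, PowerSeries.coeff_one]
  have h := congrArg GaussianInt.toComplex (check2 m hm)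
  rw [map_mul, map_add, map_mul, toC_mk 221 0, toC_mk 1 (-21)] at h
  have hk : (1 - kap) = (1 - 21 * I) / 221 := by unfold kap; ring
  rw [hk]
  by_cases h0 : m = 0
  · rw [if_pos h0, toC_mk 221 0] at h
    rw [if_pos h0]
    push_cast at h
    linear_combination h / 221
  · rw [if_neg h0] at h ⊢
    rw [map_zero] at h
    push_cast at h
    linear_combination h / 221

lemma cmp_D1 : (PowerSeries.X : PowerSeries ℂ) ^ 26 ∣ rt (D1 kap) - cs sD1 := by
  have : rt (D1 kap) - cs sD1 = PowerSeries.C (1 - kap) * (rt SS - cs sS) -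
      (cs sD1 - (1 + PowerSeries.C (1 - kap) * cs sS)) := by
    rw [rt_D1]; ring
  rw [this]
  exact dvd_sub (cmp_S.mul_left _) cs_D1

lemma cmp_E : (PowerSeries.X : PowerSeries ℂ) ^ 26 ∣ rt EE - cs sE := by
  have hc : (PowerSeries.X : PowerSeries ℂ) ^ 26 ∣ (rt EE - cs sE) * (rt EE + cs sE) := by
    have h1 : (rt EE - cs sE) * (rt EE + cs sE) =
        (rt (D1 kap) - cs sD1) * (rt (D1 kap) + cs sD1) -
        (cs sE * cs sE - (cs sD1 * cs sD1 + PowerSeries.C (4 * kap * cc * QQ) * PowerSeries.X)) := by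
      have := rt_E
      linear_combination this
    rw [h1]
    refine dvd_sub (cmp_D1.mul_right _) ?_
    rw [PowerSeries.X_pow_dvd_iff]
    intro m hm
    rw [map_sub, map_add, coeff_cs_mul, coeff_cs_mul, check3 m hm, PowerSeries.coeff_C_mul,
      PowerSeries.coeff_X]
    by_cases h : m = 1
    · subst h
      simp only [if_true, mul_one, map_add, cC, toC_mk, QQ, kap, cc]
      push_cast; ring
    · simp [h]
  have hu : IsUnit (rt EE + cs sE) := by
    rw [PowerSeries.isUnit_iff_constantCoeff]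
    rw [map_add, ← PowerSeries.coeff_zero_eq_constantCoeff_apply,
      ← PowerSeries.coeff_zero_eq_constantCoeff_apply, coeff_rt, coeff_cs, tc_zero]
    have h1 : EE 0 = 1 := by simp [EE, D1_zero, R2_zero]
    have h2 : sE 0 = 1 := by decide
    rw [h1, h2]
    norm_num
  exact (hu.dvd_mul_right).mp hc

lemma cmp_D2 : (PowerSeries.X : PowerSeries ℂ) ^ 26 ∣ rt DD - cs sD2 := by
  have h0 : (PowerSeries.X : PowerSeries ℂ) ^ 26 ∣ cs sD2 -
      (PowerSeries.C ((1 - nu) / 2) * cs sE + PowerSeries.C ((1 + nu) / 2) * cs sD1) := by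
    rw [PowerSeries.X_pow_dvd_iff]
    intro m hm
    rw [map_sub, map_add, PowerSeries.coeff_C_mul, PowerSeries.coeff_C_mul, coeff_cs, coeff_cs, coeff_cs]
    have h := congrArg GaussianInt.toComplex (check4 m hm)
    rw [map_mul, map_add, map_mul, map_mul, toC_mk 257 0, toC_mk 1 16, toC_mk 256 (-16)] at h
    have hk1 : (1 - nu) / 2 = (1 + 16 * I) / 257 := by unfold nu; ring
    have hk2 : (1 + nu) / 2 = (256 - 16 * I) / 257 := by unfold nu; ring
    rw [hk1, hk2]
    push_cast at h
    linear_combination h / 257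
  have : rt DD - cs sD2 = PowerSeries.C ((1 - nu) / 2) * (rt EE - cs sE) +
      PowerSeries.C ((1 + nu) / 2) * (rt (D1 kap) - cs sD1) -
      (cs sD2 - (PowerSeries.C ((1 - nu) / 2) * cs sE + PowerSeries.C ((1 + nu) / 2) * cs sD1)) := by
    rw [rt_D2]; ring
  rw [this]
  exact dvd_sub (dvd_add (cmp_E.mul_left _) (cmp_D1.mul_left _)) h0

lemma cmp_P : (PowerSeries.X : PowerSeries ℂ) ^ 26 ∣ rt PP - cs sP := by
  have hc : (PowerSeries.X : PowerSeries ℂ) ^ 26 ∣ rt DD * (rt PP - cs sP) := by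
    have h1 : rt DD * (rt PP - cs sP) = -((rt DD - cs sD2) * cs sP) - (cs sD2 * cs sP - 1) := by
      have := rt_P
      linear_combination this
    rw [h1]
    refine dvd_sub (dvd_neg.mpr (cmp_D2.mul_right _)) ?_
    rw [PowerSeries.X_pow_dvd_iff]
    intro m hm
    rw [map_sub, coeff_cs_mul, check5 m hm, PowerSeries.coeff_one]
    by_cases h : m = 0
    · simp [h]
    · simp [h]
  have hu : IsUnit (rt DD) := IsUnit.of_mul_eq_one _ rt_P
  exact (hu.dvd_mul_left).mp hc

/-- The first 26 Taylor coefficients of `P`. -/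
lemma tc_PP (j : ℕ) (hj : j < 26) : QQ ^ j * tc PP j = GaussianInt.toComplex (sP j) := by
  have h := PowerSeries.X_pow_dvd_iff.mp cmp_P j hj
  rw [map_sub, coeff_rt, coeff_cs, sub_eq_zero] at h
  exact h

end Pool.Agent.Helper809.KP
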