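import Mathlib

set_option autoImplicit false

open Filter Topology Finset

namespace Pool.Agent.Helper809.KP

/-- The `n`-th Taylor coefficient at `0`. -/
noncomputable def tc (f : ℂ → ℂ) (n : ℕ) : ℂ := iteratedDeriv n f 0 / (n.factorial : ℂ)

lemma tc_congr {f g : ℂ → ℂ} (h : f =ᶠ[𝓝 0] g) (n : ℕ) : tc f n = tc g n := by
  rw [tc, tc, h.iteratedDeriv_eq n]

lemma tc_zero (f : ℂ → ℂ) : tc f 0 = f 0 := by
  simp [tc]

lemma tc_mul {f g : ℂ → ℂ} (hf : AnalyticAt ℂ f 0) (hg : AnalyticAt ℂ g 0) (n : ℕ) :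
    tc (fun z => f z * g z) n = ∑ i ∈ range (n + 1), tc f i * tc g (n - i) := by
  unfold tc
  rw [iteratedDeriv_fun_mul hf.contDiffAt hg.contDiffAt, Finset.sum_div]
  refine Finset.sum_congr rfl fun i hi => ?_
  have hi' : i ≤ n := Nat.lt_succ_iff.mp (Finset.mem_range.mp hi)
  have h1 : ((n.choose i : ℕ) : ℂ) * (i.factorial : ℂ) * ((n - i).factorial : ℂ) = (n.factorial : ℂ) := by
    exact_mod_cast Nat.choose_mul_factorial_mul_factorial hi'
  have h2 : (i.factorial : ℂ) ≠ 0 := by exact_mod_cast i.factorial_ne_zero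
  have h3 : ((n - i).factorial : ℂ) ≠ 0 := by exact_mod_cast (n - i).factorial_ne_zero
  have h4 : (n.choose i : ℂ) ≠ 0 := by exact_mod_cast (Nat.choose_pos hi').ne'
  rw [← h1]
  field_simp

lemma tc_add {f g : ℂ → ℂ} (hf : AnalyticAt ℂ f 0) (hg : AnalyticAt ℂ g 0) (n : ℕ) :
    tc (fun z => f z + g z) n = tc f n + tc g n := by
  unfold tc
  rw [iteratedDeriv_fun_add hf.contDiffAt hg.contDiffAt, add_div]

lemma tc_const_mul {f : ℂ → ℂ} (hf : AnalyticAt ℂ f 0) (c : ℂ) (n : ℕ) :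
    tc (fun z => c * f z) n = c * tc f n := by
  unfold tc
  rw [iteratedDeriv_const_mul c hf.contDiffAt]
  ring

lemma tc_const (c : ℂ) (n : ℕ) : tc (fun _ => c) n = if n = 0 then c else 0 := by
  unfold tc
  rw [iteratedDeriv_const]
  by_cases h : n = 0
  · subst h; simp
  · simp [h]

lemma tc_pow (m n : ℕ) : tc (fun z => z ^ m) n = if n = m then 1 else 0 := by
  unfold tc
  rw [iteratedDeriv_fun_pow_zero]
  by_cases h : n = m
  · subst h
    have h2 : (n.factorial : ℂ) ≠ 0 := by exact_mod_cast n.factorial_ne_zero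
    simp [h2]
  · simp [h]

lemma tc_sum {ι : Type*} (s : Finset ι) (f : ι → ℂ → ℂ) (hf : ∀ i ∈ s, AnalyticAt ℂ (f i) 0) (n : ℕ) :
    tc (fun z => ∑ i ∈ s, f i z) n = ∑ i ∈ s, tc (f i) n := by
  unfold tc
  rw [iteratedDeriv_fun_sum fun i hi => (hf i hi).contDiffAt, Finset.sum_div]

lemma tc_pow_mul {g : ℂ → ℂ} (hg : AnalyticAt ℂ g 0) (m n : ℕ) :
    tc (fun z => z ^ m * g z) n = if m ≤ n then tc g (n - m) else 0 := by
  rw [tc_mul (by fun_prop) hg]
  simp only [tc_pow, ite_mul, one_mul, zero_mul]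
  rw [Finset.sum_ite_eq' (range (n + 1)) m]
  simp only [mem_range, Nat.lt_succ_iff]

/-- Taylor expansion with analytic remainder. -/
lemma exists_rem {f : ℂ → ℂ} (hf : AnalyticAt ℂ f 0) (m : ℕ) :
    ∃ F : ℂ → ℂ, AnalyticAt ℂ F 0 ∧ ∀ z, f z = (∑ j ∈ range m, tc f j * z ^ j) + z ^ m * F z := by
  obtain ⟨F, hF, h⟩ := hf.exists_eq_sum_add_pow_mul m
  refine ⟨F, hF, fun z => ?_⟩
  rw [h z]
  simp only [smul_eq_mul]
  congr 1
  refine Finset.sum_congr rfl fun i _ => ?_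
  unfold tc
  ring

/-- Taylor coefficients of `(1 - z)⁻¹ ^ (d + 1)`. -/
lemma tc_inv_pow (d n : ℕ) : tc (fun z => ((1 - z)⁻¹) ^ (d + 1)) n = ((n + d).choose d : ℕ) := by
  have han : ∀ d : ℕ, AnalyticAt ℂ (fun z : ℂ => ((1 - z)⁻¹) ^ (d + 1)) 0 := by
    intro d
    apply AnalyticAt.pow
    apply AnalyticAt.inv (by fun_prop)
    simp
  have hz1 : ∀ d : ℕ, AnalyticAt ℂ (fun z : ℂ => z ^ 1 * ((1 - z)⁻¹) ^ (d + 1)) 0 := fun d =>
    ((by fun_prop : AnalyticAt ℂ (fun z : ℂ => z ^ 1) 0)).fun_mul (han d)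
  have hz2 : ∀ d : ℕ, AnalyticAt ℂ (fun z : ℂ => (-1) * (z ^ 1 * ((1 - z)⁻¹) ^ (d + 1))) 0 := fun d =>
    analyticAt_const.fun_mul (hz1 d)
  have hne : ∀ᶠ z : ℂ in 𝓝 0, 1 - z ≠ 0 := by
    have : ContinuousAt (fun z : ℂ => 1 - z) 0 := by fun_prop
    exact this.eventually_ne (by simp)
  induction d generalizing n with
  | zero =>
    induction n with
    | zero => rw [tc_zero]; simp
    | succ n ih =>
      have hmul : tc (fun z : ℂ => (1 - z) * ((1 - z)⁻¹) ^ (0 + 1)) (n + 1) = 0 := by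
        have : (fun z : ℂ => (1 - z) * ((1 - z)⁻¹) ^ (0 + 1)) =ᶠ[𝓝 0] fun _ => 1 := by
          filter_upwards [hne] with z hz
          simp [hz]
        rw [tc_congr this, tc_const]
        simp
      have hexp : tc (fun z : ℂ => (1 - z) * ((1 - z)⁻¹) ^ (0 + 1)) (n + 1) =
          tc (fun z : ℂ => ((1 - z)⁻¹) ^ (0 + 1)) (n + 1) - tc (fun z : ℂ => ((1 - z)⁻¹) ^ (0 + 1)) n := by
        have : (fun z : ℂ => (1 - z) * ((1 - z)⁻¹) ^ (0 + 1)) =
            fun z : ℂ => ((1 - z)⁻¹) ^ (0 + 1) + (-1) * (z ^ 1 * ((1 - z)⁻¹) ^ (0 + 1)) := by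
          funext z; ring
        rw [this, tc_add (han 0) (hz2 0), tc_const_mul (hz1 0), tc_pow_mul (han 0)]
        simp
        ring
      rw [hexp, ih] at hmul
      rw [sub_eq_zero.mp hmul]
      simp
  | succ d ihd =>
    induction n with
    | zero => rw [tc_zero]; simp
    | succ n ih =>
      have hexp : tc (fun z : ℂ => ((1 - z)⁻¹) ^ (d + 1)) (n + 1) =
          tc (fun z : ℂ => ((1 - z)⁻¹) ^ (d + 1 + 1)) (n + 1) - tc (fun z : ℂ => ((1 - z)⁻¹) ^ (d + 1 + 1)) n := by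
        have : (fun z : ℂ => ((1 - z)⁻¹) ^ (d + 1)) =ᶠ[𝓝 0]
            fun z : ℂ => ((1 - z)⁻¹) ^ (d + 1 + 1) + (-1) * (z ^ 1 * ((1 - z)⁻¹) ^ (d + 1 + 1)) := by
          filter_upwards [hne] with z hz
          have h5 : ((1 - z)⁻¹) ^ (d + 1) = (1 - z) * ((1 - z)⁻¹) ^ (d + 1 + 1) := by
            rw [pow_succ ((1 - z)⁻¹) (d + 1)]
            field_simp
          rw [h5]
          ring
        rw [tc_congr this, tc_add (han (d + 1)) (hz2 (d + 1)), tc_const_mul (hz1 (d + 1)),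
          tc_pow_mul (han (d + 1))]
        simp
        ring
      rw [ihd, ih] at hexp
      have hc : ((n + 1 + (d + 1)).choose (d + 1) : ℕ) = (n + 1 + d).choose d + (n + (d + 1)).choose (d + 1) := by
        have := Nat.choose_succ_succ (n + 1 + d) d
        rw [show n + 1 + (d + 1) = (n + 1 + d).succ by omega, this, show n + (d + 1) = n + 1 + d by omega]
      rw [hc]
      push_cast
      linear_combination -hexp

/-- Coefficients of `P (k z / N²) / (1 - z)` where `k z = z / (1 - z)²`. -/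
lemma tc_comp {P : ℂ → ℂ} (hP : AnalyticAt ℂ P 0) (q : ℂ) (n : ℕ) :
    tc (fun z => P (q * (z * ((1 - z)⁻¹) ^ 2)) * (1 - z)⁻¹) n =
      ∑ j ∈ range (n + 1), tc P j * q ^ j * ((n + j).choose (2 * j) : ℕ) := by
  obtain ⟨F, hF, h⟩ := exists_rem hP (n + 1)
  have han : ∀ d : ℕ, AnalyticAt ℂ (fun z : ℂ => ((1 - z)⁻¹) ^ d) 0 := by
    intro d
    apply AnalyticAt.pow
    apply AnalyticAt.inv (by fun_prop)
    simp
  have hpow : ∀ d : ℕ, AnalyticAt ℂ (fun z : ℂ => z ^ d) 0 := fun d => by fun_prop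
  have hFu : AnalyticAt ℂ (fun z : ℂ => F (q * (z * ((1 - z)⁻¹) ^ 2))) 0 := by
    have hu : AnalyticAt ℂ (fun z : ℂ => q * (z * ((1 - z)⁻¹) ^ 2)) 0 :=
      analyticAt_const.mul (analyticAt_id.mul (han 2))
    exact AnalyticAt.fun_comp (f := fun z : ℂ => q * (z * ((1 - z)⁻¹) ^ 2)) (by simpa using hF) hu
  have heq : (fun z : ℂ => P (q * (z * ((1 - z)⁻¹) ^ 2)) * (1 - z)⁻¹) = fun z : ℂ =>
      (∑ j ∈ range (n + 1), (tc P j * q ^ j) * (z ^ j * ((1 - z)⁻¹) ^ (2 * j + 1))) +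
        z ^ (n + 1) * (q ^ (n + 1) * ((1 - z)⁻¹) ^ (2 * (n + 1) + 1) * F (q * (z * ((1 - z)⁻¹) ^ 2))) := by
    funext z
    rw [h, add_mul, Finset.sum_mul]
    congr 1
    · refine Finset.sum_congr rfl fun j _ => ?_
      ring
    · ring
  have hR : AnalyticAt ℂ (fun z : ℂ => q ^ (n + 1) * ((1 - z)⁻¹) ^ (2 * (n + 1) + 1) *
      F (q * (z * ((1 - z)⁻¹) ^ 2))) 0 := (analyticAt_const.fun_mul (han _)).fun_mul hFu
  have hS : ∀ j, AnalyticAt ℂ (fun z : ℂ => (tc P j * q ^ j) * (z ^ j * ((1 - z)⁻¹) ^ (2 * j + 1))) 0 :=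
    fun j => analyticAt_const.fun_mul ((hpow j).fun_mul (han _))
  rw [heq, tc_add (by
      apply Finset.analyticAt_fun_sum
      intro j _
      exact hS j) ((hpow _).fun_mul hR), tc_sum _ _ (fun j _ => hS j), tc_pow_mul hR, if_neg (by omega), add_zero]
  refine Finset.sum_congr rfl fun j hj => ?_
  have hj' : j ≤ n := Nat.lt_succ_iff.mp (Finset.mem_range.mp hj)
  rw [tc_const_mul ((hpow j).fun_mul (han _)), tc_pow_mul (han _), if_pos hj', tc_inv_pow,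
    show n - j + 2 * j = n + j by omega]

end Pool.Agent.Helper809.KP
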