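import Mathlib

set_option autoImplicit false

open Complex Real ComplexConjugate

namespace Pool.Agent.Helper809.Spiral

/-- the exponent `2.1 + i/2`. -/
noncomputable def s : ℂ := ⟨21 / 10, 1 / 2⟩

lemma s_re : s.re = 21 / 10 := rfl
lemma s_im : s.im = 1 / 2 := rfl

lemma s_ne : s ≠ 0 := by
  intro h
  have := congrArg Complex.re h
  rw [s_re] at this
  norm_num at this

/-- the ratio function `X(φ) = -i exp(i s (π - 2 φ))`. -/
noncomputable def X (φ : ℝ) : ℂ := -I * Complex.exp (I * s * ((π : ℂ) - 2 * (φ : ℂ)))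

lemma norm_X (φ : ℝ) : ‖X φ‖ = Real.exp (-(1 / 2) * (π - 2 * φ)) := by
  unfold X
  rw [norm_mul, norm_neg, Complex.norm_I, one_mul, Complex.norm_exp]
  congr 1
  simp [Complex.mul_re, Complex.mul_im, s_re, s_im]

lemma norm_X_lt {φ : ℝ} (h : φ < π / 2) : ‖X φ‖ < 1 := by
  rw [norm_X, Real.exp_lt_one_iff]
  nlinarith

lemma X_top : X (π / 2) = -I := by
  unfold X
  have : (π : ℂ) - 2 * ((π / 2 : ℝ) : ℂ) = 0 := by
    push_cast; ring
  rw [this]; simp

lemma one_add_mem {w : ℂ} (h : ‖w‖ < 1) : 1 + w ∈ Complex.slitPlane := by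
  left
  have h1 : |w.re| ≤ ‖w‖ := Complex.abs_re_le_norm w
  have h2 := (abs_le.mp h1).1
  simp only [Complex.add_re, Complex.one_re]
  linarith

lemma one_add_X_mem {φ : ℝ} (h : φ ≤ π / 2) : 1 + X φ ∈ Complex.slitPlane := by
  rcases h.lt_or_eq with h | h
  · exact one_add_mem (norm_X_lt h)
  · rw [h, X_top]
    left
    simp

lemma one_add_X_ne {φ : ℝ} (h : φ ≤ π / 2) : 1 + X φ ≠ 0 :=
  Complex.slitPlane_ne_zero (one_add_X_mem h)

lemma hasDerivAt_X (φ : ℝ) : HasDerivAt X (-2 * I * s * X φ) φ := by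
  unfold X
  have h1 : HasDerivAt (fun φ : ℝ => I * s * ((π : ℂ) - 2 * (φ : ℂ))) (I * s * (-(2 * 1))) φ := by
    have h0 : HasDerivAt (fun φ : ℝ => (φ : ℂ)) 1 φ := Complex.ofRealCLM.hasDerivAt (x := φ)
    exact ((h0.const_mul (2 : ℂ)).const_sub (π : ℂ)).const_mul (I * s)
  have h2 := (h1.cexp).const_mul (-I)
  convert! h2 using 1
  ring

/-- the monotone transversal coordinate. -/
noncomputable def T (φ : ℝ) : ℝ :=
  Complex.normSq s * φ + (conj s * Complex.log (1 + X φ)).im

lemma hasDerivAt_T {φ : ℝ} (h : φ ≤ π / 2) :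
    HasDerivAt T (Complex.normSq s + (conj s * ((-2 * I * s * X φ) / (1 + X φ))).im) φ := by
  have h1 : HasDerivAt (fun φ : ℝ => 1 + X φ) (-2 * I * s * X φ) φ :=
    (hasDerivAt_X φ).const_add 1
  have h2 := (h1.clog_real (one_add_X_mem h)).const_mul (conj s)
  have h3 : HasDerivAt (fun φ : ℝ => (conj s * Complex.log (1 + X φ)).im)
      ((conj s * ((-2 * I * s * X φ) / (1 + X φ))).im) φ :=
    Complex.imCLM.hasFDerivAt.comp_hasDerivAt φ h2
  have h4 : HasDerivAt (fun φ : ℝ => Complex.normSq s * φ) (Complex.normSq s * 1) φ :=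
    (hasDerivAt_id φ).const_mul _
  have h5 := h4.add h3
  rw [mul_one] at h5
  exact h5

lemma deriv_T_pos {φ : ℝ} (h : φ < π / 2) :
    0 < Complex.normSq s + (conj s * ((-2 * I * s * X φ) / (1 + X φ))).im := by
  set w := X φ with hw
  have hw1 : ‖w‖ < 1 := norm_X_lt h
  have hne : 1 + w ≠ 0 := one_add_X_ne h.le
  have e1 : conj s * ((-2 * I * s * w) / (1 + w)) = (Complex.normSq s : ℂ) * (-2 * I * (w / (1 + w))) := by
    rw [Complex.normSq_eq_conj_mul_self]
    ring
  rw [e1]
  have e2 : ((Complex.normSq s : ℂ) * (-2 * I * (w / (1 + w)))).im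
      = Complex.normSq s * (-2 * (w / (1 + w)).re) := by
    rw [Complex.im_ofReal_mul]
    congr 1
    simp [Complex.mul_im, Complex.mul_re]
  rw [e2]
  have hs : 0 < Complex.normSq s := Complex.normSq_pos.mpr s_ne
  have hN : 0 < Complex.normSq (1 + w) := Complex.normSq_pos.mpr hne
  have e3 : (w / (1 + w)).re = (w.re + Complex.normSq w) / Complex.normSq (1 + w) := by
    rw [Complex.div_re]
    simp only [Complex.add_re, Complex.one_re, Complex.add_im, Complex.one_im, zero_add,
      Complex.normSq_apply w]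
    rw [← add_div]
    ring_nf
  have hw2 : Complex.normSq w < 1 := by
    rw [Complex.normSq_eq_norm_sq]
    have := norm_nonneg w
    nlinarith
  have e4 : Complex.normSq (1 + w) = 1 + 2 * w.re + Complex.normSq w := by
    simp only [Complex.normSq_apply, Complex.add_re, Complex.one_re, Complex.add_im,
      Complex.one_im]
    ring
  have e5 : (w / (1 + w)).re < 1 / 2 := by
    rw [e3, div_lt_iff₀ hN, e4]
    linarith
  nlinarith

lemma T_strictMono : StrictMonoOn T (Set.Icc (-(π / 2)) (π / 2)) := by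
  apply strictMonoOn_of_deriv_pos (convex_Icc _ _)
  · intro x hx
    exact (hasDerivAt_T hx.2).continuousAt.continuousWithinAt
  · intro x hx
    rw [interior_Icc] at hx
    rw [(hasDerivAt_T hx.2.le).deriv]
    exact deriv_T_pos hx.2

lemma log_one_sub_I : Complex.log (1 + -I) = ⟨Real.log 2 / 2, -(π / 4)⟩ := by
  have h : Complex.exp ⟨Real.log 2 / 2, -(π / 4)⟩ = 1 + -I := by
    rw [Complex.exp_eq_exp_re_mul_sin_add_cos]
    have h1 : Real.exp (Real.log 2 / 2) = √2 := by
      rw [Real.sqrt_eq_rpow, Real.rpow_def_of_pos (by norm_num)]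
      congr 1; ring
    simp only
    rw [← Complex.ofReal_exp, h1, ← Complex.ofReal_cos, ← Complex.ofReal_sin, Real.cos_neg,
      Real.sin_neg, Real.cos_pi_div_four, Real.sin_pi_div_four]
    have h2 : (√2 : ℝ) * √2 = 2 := Real.mul_self_sqrt (by norm_num)
    apply Complex.ext
    · simp
      nlinarith
    · simp
      nlinarith
  rw [← h, Complex.log_exp]
  · simp only
    have := Real.pi_pos
    linarith
  · simp only
    have := Real.pi_pos
    linarith

lemma normSq_s : Complex.normSq s = 466 / 100 := by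
  rw [Complex.normSq_apply, s_re, s_im]; norm_num

lemma norm_s_le : ‖s‖ ≤ 216 / 100 := by
  have h : ‖s‖ ^ 2 = 466 / 100 := by
    rw [← Complex.normSq_eq_norm_sq, normSq_s]
  have := norm_nonneg s
  nlinarith

lemma T_top : T (π / 2) = 466 / 100 * (π / 2) - 21 / 40 * π - Real.log 2 / 4 := by
  unfold T
  rw [normSq_s, X_top, log_one_sub_I]
  simp only [Complex.mul_im, Complex.conj_re, Complex.conj_im, s_re, s_im]
  ring

lemma exp_neg_pi_le : Real.exp (-π) ≤ 1 / 20 := by
  have h1 : Real.exp (-π) ≤ Real.exp (-3) := Real.exp_le_exp.mpr (by linarith [Real.pi_gt_three])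
  have h2 : (20 : ℝ) ≤ Real.exp 3 := by
    have h3 : Real.exp 3 = Real.exp 1 ^ 3 := by
      rw [← Real.exp_nat_mul]; norm_num
    rw [h3]
    have h4 := Real.exp_one_gt_d9
    calc (20 : ℝ) ≤ 2.7182818283 ^ 3 := by norm_num
      _ ≤ Real.exp 1 ^ 3 := by
        apply pow_le_pow_left₀ (by norm_num) h4.le
  calc Real.exp (-π) ≤ Real.exp (-3) := h1
    _ = (Real.exp 3)⁻¹ := Real.exp_neg 3
    _ ≤ 1 / 20 := by
      rw [one_div]
      exact inv_anti₀ (by norm_num) h2

lemma T_bot : -(466 / 100 * (π / 2)) - 162 / 1000 ≤ T (-(π / 2)) := by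
  unfold T
  rw [normSq_s]
  have hX : ‖X (-(π / 2))‖ ≤ 1 / 20 := by
    rw [norm_X]
    have : -(1 / 2) * (π - 2 * -(π / 2)) = -π := by ring
    rw [this]
    exact exp_neg_pi_le
  have hL : ‖Complex.log (1 + X (-(π / 2)))‖ ≤ 3 / 2 * (1 / 20) := by
    refine (Complex.norm_log_one_add_half_le_self (by linarith)).trans ?_
    linarith
  have hI : |(conj s * Complex.log (1 + X (-(π / 2)))).im| ≤ 162 / 1000 := by
    refine (Complex.abs_im_le_norm _).trans ?_
    rw [norm_mul, RCLike.norm_conj]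
    calc ‖s‖ * ‖Complex.log (1 + X (-(π / 2)))‖ ≤ (216 / 100) * (3 / 2 * (1 / 20)) := by
          apply mul_le_mul norm_s_le hL (norm_nonneg _) (by norm_num)
      _ ≤ 162 / 1000 := by norm_num
  have := (abs_le.mp hI).1
  linarith

lemma T_range {a b : ℝ} (ha : a ∈ Set.Icc (-(π / 2)) (π / 2))
    (hb : b ∈ Set.Icc (-(π / 2)) (π / 2)) : T a - T b < 21 / 5 * π := by
  have hpi := Real.pi_gt_three
  have hp2 : -(π / 2) ≤ π / 2 := by linarith
  have h1 : T a ≤ T (π / 2) := T_strictMono.monotoneOn ha (Set.right_mem_Icc.mpr hp2) ha.2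
  have h2 : T (-(π / 2)) ≤ T b := T_strictMono.monotoneOn (Set.left_mem_Icc.mpr hp2) hb hb.1
  have h3 := T_top
  have h4 := T_bot
  have h5 : 0 < Real.log 2 := Real.log_pos (by norm_num)
  linarith

/-- injectivity in logarithmic coordinates. -/
theorem inj_log {ζ ζ' : ℂ} (h : |ζ.im| < π / 2) (h' : |ζ'.im| < π / 2)
    (heq : Complex.exp (s * ζ) * (1 + X ζ.im) = Complex.exp (s * ζ') * (1 + X ζ'.im)) :
    ζ = ζ' := by
  have hm : ζ.im ∈ Set.Icc (-(π / 2)) (π / 2) :=
    ⟨(abs_lt.mp h).1.le, (abs_lt.mp h).2.le⟩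
  have hm' : ζ'.im ∈ Set.Icc (-(π / 2)) (π / 2) :=
    ⟨(abs_lt.mp h').1.le, (abs_lt.mp h').2.le⟩
  have e1 : Complex.exp (s * ζ + Complex.log (1 + X ζ.im))
      = Complex.exp (s * ζ' + Complex.log (1 + X ζ'.im)) := by
    rw [Complex.exp_add, Complex.exp_add, Complex.exp_log (one_add_X_ne hm.2),
      Complex.exp_log (one_add_X_ne hm'.2)]
    exact heq
  obtain ⟨n, hn⟩ := Complex.exp_eq_exp_iff_exists_int.mp e1
  have key : T ζ.im = T ζ'.im + n * (21 / 5 * π) := by
    have e2 := congrArg (fun v : ℂ => (conj s * v).im) hn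
    beta_reduce at e2
    have e3 : ∀ (ξ L : ℂ), (conj s * (s * ξ + L)).im = Complex.normSq s * ξ.im + (conj s * L).im := by
      intro ξ L
      have : conj s * (s * ξ + L) = (Complex.normSq s : ℂ) * ξ + conj s * L := by
        rw [Complex.normSq_eq_conj_mul_self]; ring
      rw [this, Complex.add_im, Complex.im_ofReal_mul]
    rw [mul_add (conj s) (s * ζ' + _), Complex.add_im, e3, e3] at e2
    have e4 : (conj s * ((n : ℂ) * (2 * (π : ℂ) * I))).im = n * (21 / 5 * π) := by
      have : conj s * ((n : ℂ) * (2 * (π : ℂ) * I)) = ((n * (2 * π) : ℝ) : ℂ) * (conj s * I) := by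
        push_cast; ring
      rw [this, Complex.im_ofReal_mul]
      simp only [Complex.mul_im, Complex.conj_re, Complex.conj_im, s_re, s_im, Complex.I_re,
        Complex.I_im]
      ring
    rw [e4] at e2
    exact e2
  have hn0 : n = 0 := by
    have r1 := T_range hm hm'
    have r2 := T_range hm' hm
    have hpi := Real.pi_pos
    have hlt : (n : ℝ) < 1 := by
      by_contra hc
      push Not at hc
      nlinarith
    have hgt : (-1 : ℝ) < n := by
      by_contra hc
      push Not at hc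
      nlinarith
    have h1 : n < 1 := by exact_mod_cast hlt
    have h2 : -1 < n := by exact_mod_cast hgt
    omega
  rw [hn0] at key hn
  have him : ζ.im = ζ'.im := by
    apply T_strictMono.injOn hm hm'
    simpa using key
  rw [him] at hn
  have : s * ζ = s * ζ' := by
    simpa using hn
  exact mul_left_cancel₀ s_ne this

end Pool.Agent.Helper809.Spiral
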