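import Mathlib
import Pool.Agent.Helper809.SpiralT

set_option autoImplicit false

open Complex Real ComplexConjugate

namespace Pool.Agent.Helper809.Spiral

/-- the half plane variable. -/
noncomputable def W (z : ℂ) : ℂ := (1 + z) / (1 - z)

lemma one_sub_ne {z : ℂ} (hz : ‖z‖ < 1) : 1 - z ≠ 0 := by
  intro h
  have : z = 1 := by linear_combination -h
  rw [this] at hz
  simp at hz

lemma one_add_ne {z : ℂ} (hz : ‖z‖ < 1) : 1 + z ≠ 0 := by
  intro h
  have : z = -1 := by linear_combination h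
  rw [this] at hz
  simp at hz

lemma W_re_pos {z : ℂ} (hz : ‖z‖ < 1) : 0 < (W z).re := by
  unfold W
  rw [Complex.div_re, ← add_div]
  apply div_pos _ (Complex.normSq_pos.mpr (one_sub_ne hz))
  have h1 : ‖z‖ ^ 2 < 1 := by
    have := norm_nonneg z
    nlinarith
  rw [← Complex.normSq_eq_norm_sq, Complex.normSq_apply] at h1
  simp only [Complex.add_re, Complex.one_re, Complex.sub_re, Complex.add_im, Complex.one_im,
    Complex.sub_im]
  nlinarith

lemma W_mem {z : ℂ} (hz : ‖z‖ < 1) : W z ∈ Complex.slitPlane := Or.inl (W_re_pos hz)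

lemma W_ne {z : ℂ} (hz : ‖z‖ < 1) : W z ≠ 0 := Complex.slitPlane_ne_zero (W_mem hz)

lemma W_inj {z w : ℂ} (hz : ‖z‖ < 1) (hw : ‖w‖ < 1) (h : W z = W w) : z = w := by
  unfold W at h
  rw [div_eq_div_iff (one_sub_ne hz) (one_sub_ne hw)] at h
  linear_combination h / 2

lemma W_conj (z : ℂ) : W (conj z) = conj (W z) := by
  unfold W
  simp

/-- the logarithm of the half plane variable. -/
noncomputable def ell (z : ℂ) : ℂ := Complex.log (W z)

lemma ell_im {z : ℂ} (hz : ‖z‖ < 1) : |(ell z).im| < π / 2 := by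
  unfold ell
  rw [Complex.log_im, Complex.abs_arg_lt_pi_div_two_iff]
  exact Or.inl (W_re_pos hz)

lemma ell_conj {z : ℂ} (hz : ‖z‖ < 1) : ell (conj z) = conj (ell z) := by
  unfold ell
  rw [W_conj, Complex.log_conj]
  exact Complex.slitPlane_arg_ne_pi (W_mem hz)

lemma exp_ell {z : ℂ} (hz : ‖z‖ < 1) : Complex.exp (ell z) = W z := Complex.exp_log (W_ne hz)

lemma hasDerivAt_W {z : ℂ} (hz : ‖z‖ < 1) : HasDerivAt W (2 / (1 - z) ^ 2) z := by
  unfold W
  have h1 : HasDerivAt (fun z : ℂ => 1 + z) 1 z := (hasDerivAt_id z).const_add 1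
  have h2 : HasDerivAt (fun z : ℂ => 1 - z) (-1) z := (hasDerivAt_id z).const_sub 1
  have h3 := h1.div h2 (one_sub_ne hz)
  convert! h3 using 1
  congr 1
  ring

lemma hasDerivAt_ell {z : ℂ} (hz : ‖z‖ < 1) :
    HasDerivAt ell (2 / ((1 - z) * (1 + z))) z := by
  have h := (hasDerivAt_W hz).clog (W_mem hz)
  convert! h using 1
  unfold W
  have h1 := one_sub_ne hz
  have h2 := one_add_ne hz
  field_simp

/-- the power function. -/
noncomputable def P (z : ℂ) : ℂ := Complex.exp (s * ell z)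

lemma hasDerivAt_P {z : ℂ} (hz : ‖z‖ < 1) :
    HasDerivAt P (P z * (s * (2 / ((1 - z) * (1 + z))))) z := by
  have h := ((hasDerivAt_ell hz).const_mul s).cexp
  exact h

/-- the conjugate power function. -/
noncomputable def Q : ℂ → ℂ := conj ∘ P ∘ conj

lemma Q_apply (z : ℂ) : Q z = conj (P (conj z)) := rfl

lemma norm_conj' (z : ℂ) : ‖conj z‖ = ‖z‖ := RCLike.norm_conj z

lemma hasDerivAt_Q {z : ℂ} (hz : ‖z‖ < 1) :
    HasDerivAt Q (conj (P (conj z) * (s * (2 / ((1 - conj z) * (1 + conj z)))))) z := by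
  have hz' : ‖conj z‖ < 1 := by rw [norm_conj']; exact hz
  have h := (hasDerivAt_P hz').conj_conj
  rw [Complex.conj_conj] at h
  exact h

/-- the conjugate of the second coefficient. -/
noncomputable def cb : ℂ := -I * Complex.exp (I * π * s)

lemma norm_cb : ‖cb‖ = Real.exp (-(π / 2)) := by
  unfold cb
  rw [norm_mul, norm_neg, Complex.norm_I, one_mul, Complex.norm_exp]
  congr 1
  simp [Complex.mul_re, Complex.mul_im, s_re, s_im]
  ring

lemma norm_cb_lt : ‖cb‖ < 1 := by
  rw [norm_cb, Real.exp_lt_one_iff]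
  have := Real.pi_pos
  linarith

lemma combine {z : ℂ} (hz : ‖z‖ < 1) :
    P z + cb * P (conj z) = Complex.exp (s * ell z) * (1 + X (ell z).im) := by
  have h1 : P (conj z) = Complex.exp (s * conj (ell z)) := by
    unfold P
    rw [ell_conj hz]
  have h2 : cb * Complex.exp (s * conj (ell z))
      = Complex.exp (s * ell z) * X (ell z).im := by
    unfold cb X
    have e : Complex.exp (s * ell z) * (-I * Complex.exp (I * s * ((π : ℂ) - 2 * ((ell z).im : ℂ))))
        = -I * (Complex.exp (s * ell z) * Complex.exp (I * s * ((π : ℂ) - 2 * ((ell z).im : ℂ)))) := by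
      ring
    rw [e, ← Complex.exp_add, mul_assoc, ← Complex.exp_add]
    congr 2
    have e2 : ell z - conj (ell z) = 2 * ((ell z).im : ℂ) * I := by
      rw [Complex.sub_conj]
      push_cast
      ring
    linear_combination (-s) * e2
  rw [h1, h2]
  unfold P
  ring

lemma base_inj {z w : ℂ} (hz : ‖z‖ < 1) (hw : ‖w‖ < 1)
    (h : P z + cb * P (conj z) = P w + cb * P (conj w)) : z = w := by
  rw [combine hz, combine hw] at h
  have h1 := inj_log (ell_im hz) (ell_im hw) h
  apply W_inj hz hw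
  rw [← exp_ell hz, ← exp_ell hw, h1]

lemma P_zero : P 0 = 1 := by
  unfold P ell W
  simp

lemma Q_zero : Q 0 = 1 := by
  rw [Q_apply]
  simp [P_zero]

/-- the complex coefficient. -/
noncomputable def c : ℂ := conj cb

lemma norm_c : ‖c‖ = ‖cb‖ := norm_conj' cb

lemma conj_c : conj c = cb := Complex.conj_conj cb

/-- the constant `1 - |c|^2`. -/
noncomputable def k : ℝ := 1 - Complex.normSq cb

lemma k_pos : 0 < k := by
  unfold k
  rw [Complex.normSq_eq_norm_sq]
  have := norm_cb_lt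
  have := norm_nonneg cb
  nlinarith

lemma k_ne : (k : ℂ) ≠ 0 := by exact_mod_cast k_pos.ne'

lemma cb_mul_c : cb * c = 1 - (k : ℂ) := by
  unfold c k
  rw [Complex.mul_conj]
  push_cast
  ring

/-- analytic part before the affine normalisation. -/
noncomputable def A (z : ℂ) : ℂ := (P z - 1) / (2 * s)

/-- co-analytic part before the affine normalisation. -/
noncomputable def B (z : ℂ) : ℂ := c * ((Q z - 1) / (2 * conj s))

/-- analytic part. -/
noncomputable def h (z : ℂ) : ℂ := (A z - cb * B z) / k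

/-- co-analytic part. -/
noncomputable def g (z : ℂ) : ℂ := (B z - c * A z) / k

lemma cs_ne : conj s ≠ 0 := by
  rw [Ne, map_eq_zero]
  exact s_ne

lemma A_zero : A 0 = 0 := by unfold A; rw [P_zero]; simp

lemma B_zero : B 0 = 0 := by unfold B; rw [Q_zero]; simp

lemma h_zero : h 0 = 0 := by unfold h; rw [A_zero, B_zero]; simp

lemma g_zero : g 0 = 0 := by unfold g; rw [A_zero, B_zero]; simp

/-- derivative of `A`. -/
noncomputable def dA (z : ℂ) : ℂ := P z * (s * (2 / ((1 - z) * (1 + z)))) / (2 * s)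

/-- derivative of `B`. -/
noncomputable def dB (z : ℂ) : ℂ :=
  c * (conj (P (conj z) * (s * (2 / ((1 - conj z) * (1 + conj z))))) / (2 * conj s))

lemma hasDerivAt_A {z : ℂ} (hz : ‖z‖ < 1) : HasDerivAt A (dA z) z :=
  ((hasDerivAt_P hz).sub_const 1).div_const (2 * s)

lemma hasDerivAt_B {z : ℂ} (hz : ‖z‖ < 1) : HasDerivAt B (dB z) z :=
  (((hasDerivAt_Q hz).sub_const 1).div_const (2 * conj s)).const_mul c

lemma hasDerivAt_h {z : ℂ} (hz : ‖z‖ < 1) : HasDerivAt h ((dA z - cb * dB z) / k) z :=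
  ((hasDerivAt_A hz).sub ((hasDerivAt_B hz).const_mul cb)).div_const _

lemma hasDerivAt_g {z : ℂ} (hz : ‖z‖ < 1) : HasDerivAt g ((dB z - c * dA z) / k) z :=
  ((hasDerivAt_B hz).sub ((hasDerivAt_A hz).const_mul c)).div_const _

lemma dA_eq {z : ℂ} : dA z = P z / ((1 - z) * (1 + z)) := by
  unfold dA
  have := s_ne
  field_simp

lemma dB_eq {z : ℂ} : dB z = c * conj (P (conj z) / ((1 - conj z) * (1 + conj z))) := by
  unfold dB
  have := s_ne
  have h2 := cs_ne
  have e : P (conj z) * (s * (2 / ((1 - conj z) * (1 + conj z))))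
      = (2 * s) * (P (conj z) / ((1 - conj z) * (1 + conj z))) := by ring
  rw [e, map_mul, map_mul]
  have h3 : conj (2 : ℂ) = 2 := Complex.conj_ofNat 2
  rw [h3]
  field_simp

lemma dA_zero : dA 0 = 1 := by rw [dA_eq, P_zero]; simp

lemma dB_zero : dB 0 = c := by rw [dB_eq, map_zero, P_zero]; simp

lemma deriv_h_zero : deriv h 0 = 1 := by
  rw [(hasDerivAt_h (by simp)).deriv, dA_zero, dB_zero, cb_mul_c]
  rw [sub_sub_cancel, div_self k_ne]

lemma deriv_g_zero : deriv g 0 = 0 := by
  rw [(hasDerivAt_g (by simp)).deriv, dA_zero, dB_zero]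
  simp

/-- the basic hyperbolic identity. -/
lemma hyp_identity (a b : ℂ) :
    Complex.normSq (a - cb * b) - Complex.normSq (b - c * a)
      = k * (Complex.normSq a - Complex.normSq b) := by
  unfold c k
  simp only [Complex.normSq_apply, Complex.sub_re, Complex.sub_im, Complex.mul_re, Complex.mul_im,
    Complex.conj_re, Complex.conj_im]
  ring

lemma norm_dB_lt {z : ℂ} (hz : ‖z‖ < 1) : ‖dB z‖ < ‖dA z‖ := by
  rw [dB_eq, dA_eq, norm_mul, norm_conj', norm_div, norm_div]
  have e1 : ‖(1 - conj z) * (1 + conj z)‖ = ‖(1 - z) * (1 + z)‖ := by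
    rw [← norm_conj' ((1 - z) * (1 + z))]
    simp
  rw [e1]
  have hpos : 0 < ‖(1 - z) * (1 + z)‖ :=
    norm_pos_iff.mpr (mul_ne_zero (one_sub_ne hz) (one_add_ne hz))
  rw [← mul_div_assoc]
  apply div_lt_div_of_pos_right _ hpos
  rw [norm_c, norm_cb]
  have h1 : P (conj z) = Complex.exp (s * conj (ell z)) := by
    unfold P
    rw [ell_conj hz]
  rw [h1]
  unfold P
  rw [Complex.norm_exp, Complex.norm_exp, ← Real.exp_add]
  apply Real.exp_lt_exp.mpr
  have h2 := (abs_lt.mp (ell_im hz)).2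
  simp only [Complex.mul_re, Complex.conj_re, Complex.conj_im, s_re, s_im]
  linarith

lemma norm_lt_of_normSq {a b : ℂ} (hab : Complex.normSq a < Complex.normSq b) : ‖a‖ < ‖b‖ := by
  rw [Complex.normSq_eq_norm_sq, Complex.normSq_eq_norm_sq] at hab
  exact lt_of_pow_lt_pow_left₀ 2 (norm_nonneg _) hab

lemma normSq_lt_of_norm {a b : ℂ} (hab : ‖a‖ < ‖b‖) : Complex.normSq a < Complex.normSq b := by
  rw [Complex.normSq_eq_norm_sq, Complex.normSq_eq_norm_sq]
  exact pow_lt_pow_left₀ hab (norm_nonneg _) (by norm_num)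

lemma dilatation {z : ℂ} (hz : ‖z‖ < 1) : ‖deriv g z‖ < ‖deriv h z‖ := by
  rw [(hasDerivAt_h hz).deriv, (hasDerivAt_g hz).deriv, norm_div, norm_div]
  have hk : 0 < ‖(k : ℂ)‖ := norm_pos_iff.mpr k_ne
  apply div_lt_div_of_pos_right _ hk
  apply norm_lt_of_normSq
  have h1 := hyp_identity (dA z) (dB z)
  have h2 := normSq_lt_of_norm (norm_dB_lt hz)
  have h3 := k_pos
  nlinarith

lemma affine_inj {u v : ℂ} (huv : u - cb * conj u = v - cb * conj v) : u = v := by
  have h1 : u - v = cb * conj (u - v) := by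
    rw [map_sub]
    linear_combination huv
  have h2 : ‖u - v‖ = ‖cb‖ * ‖u - v‖ := by
    calc ‖u - v‖ = ‖cb * conj (u - v)‖ := by rw [← h1]
      _ = ‖cb‖ * ‖u - v‖ := by rw [norm_mul, norm_conj']
  have h3 := norm_cb_lt
  have h4 := norm_nonneg (u - v)
  have h5 : ‖u - v‖ = 0 := by nlinarith
  exact sub_eq_zero.mp (norm_eq_zero.mp h5)

lemma f_inj {z w : ℂ} (hz : ‖z‖ < 1) (hw : ‖w‖ < 1)
    (hzw : h z + conj (g z) = h w + conj (g w)) : z = w := by
  have key : ∀ z : ℂ, h z + conj (g z)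
      = ((A z + conj (B z)) - cb * conj (A z + conj (B z))) / k := by
    intro z
    unfold h g
    rw [map_div₀, Complex.conj_ofReal, map_sub, map_mul, conj_c, map_add, Complex.conj_conj]
    ring
  have key2 : ∀ z : ℂ, A z + conj (B z) = (P z + cb * P (conj z) - (1 + cb)) / (2 * s) := by
    intro z
    unfold A B
    rw [map_mul, conj_c, map_div₀, map_sub, Q_apply, Complex.conj_conj, map_one, map_mul,
      Complex.conj_conj]
    have h3 : conj (2 : ℂ) = 2 := Complex.conj_ofNat 2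
    rw [h3]
    ring
  rw [key, key] at hzw
  have h1 := affine_inj ((div_left_inj' k_ne).mp hzw)
  rw [key2, key2] at h1
  have h2s : (2 * s) ≠ 0 := mul_ne_zero two_ne_zero s_ne
  have h2 := (div_left_inj' h2s).mp h1
  apply base_inj hz hw
  linear_combination h2

end Pool.Agent.Helper809.Spiral
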