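import Mathlib
import Pool.Agent.Helper809.SpiralD

set_option autoImplicit false

open Complex Real ComplexConjugate

namespace Pool.Agent.Helper809.Spiral

lemma iteratedDeriv_conj_conj (f : ℂ → ℂ) (n : ℕ) :
    iteratedDeriv n (conj ∘ f ∘ conj) = conj ∘ iteratedDeriv n f ∘ conj := by
  induction n with
  | zero => simp
  | succ n ih => rw [iteratedDeriv_succ, ih, iteratedDeriv_succ, deriv_conj_conj]

lemma mem_ball_iff {z : ℂ} : z ∈ Metric.ball (0 : ℂ) 1 ↔ ‖z‖ < 1 := by simp

lemma A_diff : DifferentiableOn ℂ A (Metric.ball (0 : ℂ) 1) := fun _ hz =>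
  (hasDerivAt_A (mem_ball_iff.mp hz)).differentiableAt.differentiableWithinAt

lemma B_diff : DifferentiableOn ℂ B (Metric.ball (0 : ℂ) 1) := fun _ hz =>
  (hasDerivAt_B (mem_ball_iff.mp hz)).differentiableAt.differentiableWithinAt

lemma h_diff : DifferentiableOn ℂ h (Metric.ball (0 : ℂ) 1) := fun _ hz =>
  (hasDerivAt_h (mem_ball_iff.mp hz)).differentiableAt.differentiableWithinAt

lemma g_diff : DifferentiableOn ℂ g (Metric.ball (0 : ℂ) 1) := fun _ hz =>
  (hasDerivAt_g (mem_ball_iff.mp hz)).differentiableAt.differentiableWithinAt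

lemma A_cda (n : ℕ) : ContDiffAt ℂ n A 0 :=
  (A_diff.analyticAt (Metric.ball_mem_nhds 0 one_pos)).contDiffAt

lemma B_cda (n : ℕ) : ContDiffAt ℂ n B 0 :=
  (B_diff.analyticAt (Metric.ball_mem_nhds 0 one_pos)).contDiffAt

lemma B_eq : B = fun z => c * (conj ∘ A ∘ conj) z := by
  funext z
  unfold B
  congr 1
  simp only [Function.comp_apply]
  unfold A
  rw [Q_apply, map_div₀, map_sub, map_one, map_mul, Complex.conj_ofNat]

/-- Taylor coefficient of `A`. -/
noncomputable def u (n : ℕ) : ℂ := iteratedDeriv n A 0 / (n.factorial : ℂ)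

lemma coeff_B (n : ℕ) : iteratedDeriv n B 0 / (n.factorial : ℂ) = c * conj (u n) := by
  rw [B_eq, iteratedDeriv_const_mul_field, iteratedDeriv_conj_conj]
  simp only [Function.comp_apply, map_zero]
  unfold u
  rw [map_div₀, Complex.conj_natCast, mul_div_assoc]

lemma coeff_h (n : ℕ) : iteratedDeriv n h 0 / (n.factorial : ℂ) =
    (u n - cb * (c * conj (u n))) / k := by
  have h1 : iteratedDeriv n h 0 = (iteratedDeriv n A 0 - cb * iteratedDeriv n B 0) / k := by
    have e : h = fun z => ((fun z => A z) - (fun z => cb * B z)) z / (k : ℂ) := by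
      funext z; rfl
    rw [e, iteratedDeriv_div_const, iteratedDeriv_sub (A_cda n) (contDiffAt_const.mul (B_cda n)),
      iteratedDeriv_const_mul_field]
  rw [h1, ← coeff_B]
  unfold u
  ring

lemma coeff_g (n : ℕ) : iteratedDeriv n g 0 / (n.factorial : ℂ) =
    (c * conj (u n) - c * u n) / k := by
  have h1 : iteratedDeriv n g 0 = (iteratedDeriv n B 0 - c * iteratedDeriv n A 0) / k := by
    have e : g = fun z => ((fun z => B z) - (fun z => c * A z)) z / (k : ℂ) := by
      funext z; rfl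
    rw [e, iteratedDeriv_div_const, iteratedDeriv_sub (B_cda n) (contDiffAt_const.mul (A_cda n)),
      iteratedDeriv_const_mul_field]
  rw [h1, ← coeff_B]
  unfold u
  ring

/-- the Jacobian-type identity for coefficients. -/
lemma coeff_identity (n : ℕ) :
    ‖iteratedDeriv n h 0 / (n.factorial : ℂ)‖ ^ 2 - ‖iteratedDeriv n g 0 / (n.factorial : ℂ)‖ ^ 2
      = ‖u n‖ ^ 2 := by
  rw [coeff_h, coeff_g, norm_div, norm_div, div_pow, div_pow, ← sub_div,
    ← Complex.normSq_eq_norm_sq, ← Complex.normSq_eq_norm_sq, hyp_identity,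
    ← Complex.normSq_eq_norm_sq (k : ℂ), Complex.normSq_ofReal, Complex.normSq_mul,
    Complex.normSq_conj, ← Complex.normSq_eq_norm_sq]
  have h1 : Complex.normSq c = 1 - k := by
    unfold c k
    rw [Complex.normSq_conj]; ring
  rw [h1]
  have := k_pos.ne'
  field_simp
  ring

lemma coeff_sum_le (n : ℕ) :
    ‖iteratedDeriv n h 0 / (n.factorial : ℂ)‖ + ‖iteratedDeriv n g 0 / (n.factorial : ℂ)‖
      ≤ 4 / k * ‖u n‖ := by
  rw [coeff_h, coeff_g, norm_div, norm_div, ← add_div]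
  have hk : ‖(k : ℂ)‖ = k := by
    rw [Complex.norm_real, Real.norm_eq_abs, abs_of_pos k_pos]
  rw [hk, div_mul_eq_mul_div]
  apply div_le_div_of_nonneg_right _ k_pos.le
  have hc : ‖c‖ ≤ 1 := by rw [norm_c]; exact norm_cb_lt.le
  have hcb : ‖cb‖ ≤ 1 := norm_cb_lt.le
  have hu := norm_nonneg (u n)
  have h1 : ‖u n - cb * (c * conj (u n))‖ ≤ 2 * ‖u n‖ := by
    refine (norm_sub_le _ _).trans ?_
    rw [norm_mul, norm_mul, norm_conj']
    have : ‖cb‖ * (‖c‖ * ‖u n‖) ≤ 1 * (1 * ‖u n‖) := by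
      apply mul_le_mul hcb _ (by positivity) zero_le_one
      exact mul_le_mul_of_nonneg_right hc hu
    linarith
  have h2 : ‖c * conj (u n) - c * u n‖ ≤ 2 * ‖u n‖ := by
    refine (norm_sub_le _ _).trans ?_
    rw [norm_mul, norm_mul, norm_conj']
    have : ‖c‖ * ‖u n‖ ≤ 1 * ‖u n‖ := mul_le_mul_of_nonneg_right hc hu
    linarith
  linarith

lemma u_bound {n : ℕ} {C : ℝ} (hC : 0 ≤ C)
    (hn : |‖iteratedDeriv n h 0 / (n.factorial : ℂ)‖ -
          ‖iteratedDeriv n g 0 / (n.factorial : ℂ)‖| ≤ C) : ‖u n‖ ≤ 4 / k * C := by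
  set a := ‖iteratedDeriv n h 0 / (n.factorial : ℂ)‖
  set b := ‖iteratedDeriv n g 0 / (n.factorial : ℂ)‖
  have h1 : a ^ 2 - b ^ 2 = ‖u n‖ ^ 2 := coeff_identity n
  have h2 : a + b ≤ 4 / k * ‖u n‖ := coeff_sum_le n
  have ha : 0 ≤ a := norm_nonneg _
  have hb : 0 ≤ b := norm_nonneg _
  have h3 := (abs_le.mp hn).2
  have hu := norm_nonneg (u n)
  rcases hu.eq_or_lt with h0 | h0
  · rw [← h0]
    have := k_pos
    positivity
  · have h4 : ‖u n‖ * ‖u n‖ ≤ (4 / k * C) * ‖u n‖ := by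
      calc ‖u n‖ * ‖u n‖ = (a - b) * (a + b) := by nlinarith
        _ ≤ C * (a + b) := mul_le_mul_of_nonneg_right h3 (by linarith)
        _ ≤ C * (4 / k * ‖u n‖) := mul_le_mul_of_nonneg_left h2 hC
        _ = (4 / k * C) * ‖u n‖ := by ring
    exact le_of_mul_le_mul_right h4 h0

/-- the growth of `P` on the positive radius. -/
lemma norm_P_real {r : ℝ} (h0 : 0 < r) (h1 : r < 1) :
    Real.exp (21 / 10 * Real.log (1 / (1 - r))) ≤ ‖P (r : ℂ)‖ := by
  unfold P ell
  rw [Complex.norm_exp]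
  apply Real.exp_le_exp.mpr
  have hW : W (r : ℂ) = (((1 + r) / (1 - r) : ℝ) : ℂ) := by
    unfold W; push_cast; ring
  have hpos : 0 < 1 - r := by linarith
  have hpos2 : 0 < (1 + r) / (1 - r) := by positivity
  rw [hW, ← Complex.ofReal_log hpos2.le, Complex.re_mul_ofReal, s_re]
  apply mul_le_mul_of_nonneg_left _ (by norm_num)
  apply Real.log_le_log (by positivity)
  apply div_le_div_of_nonneg_right _ hpos.le
  linarith

lemma P_eq_A (z : ℂ) : P z = 1 + 2 * s * A z := by
  unfold A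
  have := s_ne
  field_simp
  ring

theorem contradiction_of_bound
    (H : ∀ n : ℕ, 2 ≤ n →
        |‖iteratedDeriv n h 0 / (n.factorial : ℂ)‖ -
          ‖iteratedDeriv n g 0 / (n.factorial : ℂ)‖| ≤ (n : ℝ)) : False := by
  set C : ℝ := 4 / k with hC
  have hCpos : 0 < C := by have := k_pos; positivity
  set D : ℝ := ‖u 0‖ + ‖u 1‖ with hD
  have hDnn : 0 ≤ D := by positivity
  have hu : ∀ n : ℕ, ‖u n‖ ≤ C * n + D := by
    intro n
    rcases Nat.lt_or_ge n 2 with hn | hn
    · interval_cases n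
      · have := norm_nonneg (u 1)
        simp; linarith
      · have := norm_nonneg (u 0)
        simp; linarith
    · have := u_bound (Nat.cast_nonneg n) (H n hn)
      linarith
  have growth : ∀ r : ℝ, 0 < r → r < 1 → ‖A (r : ℂ)‖ ≤ (C + D) / (1 - r) ^ 2 := by
    intro r h0 h1
    have hrn : ‖(r : ℂ)‖ < 1 := by
      rw [Complex.norm_real, Real.norm_eq_abs, abs_of_pos h0]; exact h1
    have hs := Complex.hasSum_taylorSeries_on_ball A_diff (mem_ball_iff.mpr hrn)
    have hrr : ‖r‖ < 1 := by rw [Real.norm_eq_abs, abs_of_pos h0]; exact h1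
    have g1 := (hasSum_coe_mul_geometric_of_norm_lt_one hrr).mul_left C
    have g2 := (hasSum_geometric_of_norm_lt_one hrr).mul_left D
    have hb := hs.norm_le_of_bounded (g1.add g2) (by
      intro n
      have e : ((n.factorial : ℂ)⁻¹ • ((r : ℂ) - 0) ^ n • iteratedDeriv n A 0) = (r : ℂ) ^ n * u n := by
        unfold u
        simp only [smul_eq_mul, sub_zero]
        ring
      rw [e, norm_mul, norm_pow, Complex.norm_real, Real.norm_eq_abs, abs_of_pos h0]
      have := hu n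
      have hp : 0 < r ^ n := by positivity
      calc r ^ n * ‖u n‖ ≤ r ^ n * (C * n + D) := mul_le_mul_of_nonneg_left this hp.le
        _ = C * (n * r ^ n) + D * r ^ n := by ring)
    refine hb.trans ?_
    have hpos : 0 < 1 - r := by linarith
    rw [add_div]
    apply add_le_add
    · rw [← mul_div_assoc]
      apply div_le_div_of_nonneg_right _ (by positivity)
      nlinarith
    · rw [div_eq_mul_inv]
      apply mul_le_mul_of_nonneg_left _ hDnn
      apply inv_anti₀ (by positivity)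
      nlinarith
  obtain ⟨E, hE⟩ : ∃ E : ℝ, E = 1 + 2 * ‖s‖ * (C + D) := ⟨_, rfl⟩
  have hEpos : 1 ≤ E := by
    have := norm_nonneg s
    have : 0 ≤ 2 * ‖s‖ * (C + D) := by positivity
    linarith
  obtain ⟨M, hM⟩ : ∃ M : ℝ, M = E + 1 := ⟨_, rfl⟩
  have hM2 : 2 ≤ M := by linarith
  have hM1 : 1 ≤ M := by linarith
  have hMpos : 0 < M := by linarith
  have hM10 : 1 < M ^ 10 := one_lt_pow₀ (by linarith) (by norm_num)
  obtain ⟨r, hr⟩ : ∃ r : ℝ, r = 1 - 1 / M ^ 10 := ⟨_, rfl⟩
  have hr0 : 0 < r := by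
    have : 1 / M ^ 10 < 1 := by
      rw [div_lt_one (by positivity)]; exact hM10
    linarith
  have hr1 : r < 1 := by
    have : 0 < 1 / M ^ 10 := by positivity
    linarith
  have h1r : 1 - r = 1 / M ^ 10 := by rw [hr]; ring
  have hP := norm_P_real hr0 hr1
  have hlog : Real.exp (21 / 10 * Real.log (1 / (1 - r))) = M ^ 21 := by
    rw [h1r, one_div_one_div, Real.log_pow]
    have : (21 / 10 : ℝ) * (((10 : ℕ) : ℝ) * Real.log M) = ((21 : ℕ) : ℝ) * Real.log M := by
      push_cast; ring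
    rw [this, Real.exp_nat_mul, Real.exp_log hMpos]
  rw [hlog] at hP
  have hup : ‖P (r : ℂ)‖ ≤ E * M ^ 20 := by
    rw [P_eq_A]
    have hA := growth r hr0 hr1
    rw [h1r] at hA
    have e1 : (C + D) / (1 / M ^ 10) ^ 2 = (C + D) * M ^ 20 := by
      field_simp
    rw [e1] at hA
    calc ‖1 + 2 * s * A (r : ℂ)‖ ≤ 1 + 2 * ‖s‖ * ‖A (r : ℂ)‖ := by
          refine (norm_add_le _ _).trans ?_
          rw [norm_one, norm_mul, norm_mul]
          simp
      _ ≤ 1 + 2 * ‖s‖ * ((C + D) * M ^ 20) := by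
          have := norm_nonneg s
          gcongr
      _ ≤ E * M ^ 20 := by
          have h20 : 1 ≤ M ^ 20 := one_le_pow₀ hM1
          rw [hE]
          nlinarith
  have h20 : 0 < M ^ 20 := pow_pos hMpos 20
  have hEM : E < M := by rw [hM]; linarith
  have hfin : E * M ^ 20 < M ^ 21 := by
    rw [pow_succ' M 20]
    exact mul_lt_mul_of_pos_right hEM h20
  exact absurd (hP.trans hup) (not_le.mpr hfin)

end Pool.Agent.Helper809.Spiral
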