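import Mathlib

set_option autoImplicit false

open Filter Topology Complex

namespace Pool.Agent.Helper809.Star

/-- `(exp u - 1) / u`, extended analytically -/
noncomputable def q (u : ℂ) : ℂ := dslope exp 0 u

lemma q_mul (u : ℂ) : u * q u = exp u - 1 := by
  have := sub_smul_dslope exp 0 u
  simpa [q] using this

lemma q_of_ne {u : ℂ} (hu : u ≠ 0) : q u = (exp u - 1) / u := by
  rw [← q_mul u]
  field_simp

lemma q_diff : Differentiable ℂ q := by
  have h : DifferentiableOn ℂ (dslope exp 0) Set.univ :=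
    (Complex.differentiableOn_dslope (by simp)).mpr Complex.differentiable_exp.differentiableOn
  exact differentiableOn_univ.mp h

lemma exists_E : ∃ E : ℂ → ℂ, E 0 = 0 ∧ ∀ u : ℂ, HasDerivAt E (q u) u := by
  obtain ⟨E, h0, h⟩ := (q_diff.isExactOn_univ).with_val_at 0 0
  exact ⟨E, h0, fun u => h u (Set.mem_univ u)⟩

noncomputable def E : ℂ → ℂ := exists_E.choose

lemma E_zero : E 0 = 0 := exists_E.choose_spec.1

lemma E_deriv (u : ℂ) : HasDerivAt E (q u) u := exists_E.choose_spec.2 u

lemma E_diff : Differentiable ℂ E := fun u => (E_deriv u).differentiableAt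

lemma q_conj (u : ℂ) : q ((starRingEnd ℂ) u) = (starRingEnd ℂ) (q u) := by
  by_cases hu : u = 0
  · subst hu
    simp [q]
  · have hu' : (starRingEnd ℂ) u ≠ 0 := by simpa using hu
    rw [q_of_ne hu, q_of_ne hu', map_div₀, map_sub, map_one, Complex.exp_conj]

lemma E_conj (u : ℂ) : E ((starRingEnd ℂ) u) = (starRingEnd ℂ) (E u) := by
  have h1 : ∀ u : ℂ, HasDerivAt (fun z => (starRingEnd ℂ) (E ((starRingEnd ℂ) z)) - E z) 0 u := by
    intro u
    have h2 : HasDerivAt (fun z => (starRingEnd ℂ) (E ((starRingEnd ℂ) z))) (q u) u := by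
      have := (E_deriv ((starRingEnd ℂ) u)).conj_conj
      rw [q_conj] at this
      simpa [Function.comp_def] using this
    have h5 := h2.sub (E_deriv u)
    rw [sub_self] at h5
    exact h5
  have h3 : ∀ x y : ℂ, (fun z => (starRingEnd ℂ) (E ((starRingEnd ℂ) z)) - E z) x =
      (fun z => (starRingEnd ℂ) (E ((starRingEnd ℂ) z)) - E z) y :=
    is_const_of_deriv_eq_zero (fun u => (h1 u).differentiableAt) (fun u => (h1 u).deriv)
  have h4 := h3 u 0
  simp only [map_zero, E_zero, sub_zero] at h4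
  rw [sub_eq_zero] at h4
  rw [← h4]
  simp

lemma E_real (x : ℝ) : (E x).im = 0 := by
  have h := E_conj (x : ℂ)
  rw [Complex.conj_ofReal] at h
  exact Complex.conj_eq_iff_im.mp h.symm

/-- derivative along a ray -/
lemma E_ray (a : ℂ) (r : ℝ) : HasDerivAt (fun r : ℝ => E (r * a)) (q (r * a) * a) r := by
  have h1 : HasDerivAt (fun r : ℝ => (r : ℂ) * a) (1 * a) r :=
    (Complex.ofRealCLM.hasDerivAt (x := r)).mul_const a
  rw [one_mul] at h1
  exact (E_deriv (r * a)).comp r h1

lemma q_ray {a : ℂ} (ha : a ≠ 0) {r : ℝ} (hr : r ≠ 0) : q (r * a) * a = (exp (r * a) - 1) / r := by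
  have hr' : (r : ℂ) ≠ 0 := by exact_mod_cast hr
  rw [q_of_ne (mul_ne_zero hr' ha)]
  field_simp

lemma E_ray_im {a : ℂ} (r : ℝ) : HasDerivAt (fun r : ℝ => (E (r * a)).im) (q (r * a) * a).im r := by
  have h := E_ray a r
  exact (Complex.imCLM.hasFDerivAt.comp_hasDerivAt r h)

lemma E_ray_re {a : ℂ} (r : ℝ) : HasDerivAt (fun r : ℝ => (E (r * a)).re) (q (r * a) * a).re r := by
  have h := E_ray a r
  exact (Complex.reCLM.hasFDerivAt.comp_hasDerivAt r h)

lemma norm_q_le {u : ℂ} (hu : ‖u‖ ≤ 1) : ‖q u‖ ≤ 2 := by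
  by_cases h0 : u = 0
  · subst h0
    simp [q]
  · have h1 : ‖exp u - 1‖ ≤ 2 * ‖u‖ := by
      have := Complex.norm_exp_sub_one_le hu
      linarith
    rw [q_of_ne h0, norm_div]
    rw [div_le_iff₀ (norm_pos_iff.mpr h0)]
    exact h1

lemma norm_E_le {u : ℂ} (hu : ‖u‖ ≤ 1) : ‖E u‖ ≤ 2 := by
  have h := (convex_closedBall (0:ℂ) 1).norm_image_sub_le_of_norm_hasDerivWithin_le (f := E) (f' := q) (C := 2)
    (fun x _ => (E_deriv x).hasDerivWithinAt) (fun x hx => norm_q_le (by simpa using hx))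
    (show (0:ℂ) ∈ Metric.closedBall (0:ℂ) 1 by simp) (show u ∈ Metric.closedBall (0:ℂ) 1 by simpa using hu)
  rw [E_zero, sub_zero, sub_zero] at h
  linarith

/-! ### barrier estimates -/

lemma ray_im_eq {a : ℂ} (ha : a ≠ 0) {r : ℝ} (hr : r ≠ 0) :
    (q (r * a) * a).im = Real.exp (r * a.re) * Real.sin (r * a.im) / r := by
  rw [q_ray ha hr, Complex.div_ofReal_im, Complex.sub_im, Complex.exp_im]
  simp

lemma ray_re_eq {a : ℂ} (ha : a ≠ 0) {r : ℝ} (hr : r ≠ 0) :
    (q (r * a) * a).re = (Real.exp (r * a.re) * Real.cos (r * a.im) - 1) / r := by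
  rw [q_ray ha hr, Complex.div_ofReal_re, Complex.sub_re, Complex.exp_re]
  simp

lemma im_E_one {a : ℂ} (hre : 0 ≤ a.re) (him : 0 < a.im) (ha1 : a.im ≤ 1) :
    3 / 4 * a.im ≤ (E a).im := by
  have ha : a ≠ 0 := by intro h; rw [h] at him; simp at him
  have hmono : MonotoneOn (fun r : ℝ => (E (r * a)).im - 3 / 4 * a.im * r) (Set.Icc 0 1) := by
    have hd : ∀ r : ℝ, HasDerivAt (fun r : ℝ => (E (r * a)).im - 3 / 4 * a.im * r)
        ((q (r * a) * a).im - 3 / 4 * a.im) r := by
      intro r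
      have h1 := (E_ray_im (a := a) r).sub ((hasDerivAt_id r).const_mul (3 / 4 * a.im))
      rw [mul_one] at h1
      exact h1
    apply monotoneOn_of_deriv_nonneg (convex_Icc 0 1)
    · exact fun r _ => (hd r).continuousAt.continuousWithinAt
    · exact fun r _ => (hd r).differentiableAt.differentiableWithinAt
    · intro r hr
      rw [interior_Icc] at hr
      rw [(hd r).deriv, ray_im_eq ha hr.1.ne']
      have hr0 := hr.1
      have hx0 : 0 < r * a.im := mul_pos hr0 him
      have hx1 : r * a.im ≤ 1 := by nlinarith [hr.2]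
      have hs := Real.sin_gt_sub_cube hx0
      have hs2 : 3 / 4 * (r * a.im) ≤ Real.sin (r * a.im) := by
        have : (r * a.im) ^ 3 ≤ r * a.im := by
          have : (r * a.im) ^ 2 ≤ 1 := by nlinarith
          nlinarith
        linarith
      have he : 1 ≤ Real.exp (r * a.re) := Real.one_le_exp (by positivity)
      have : 3 / 4 * a.im ≤ Real.exp (r * a.re) * Real.sin (r * a.im) / r := by
        rw [le_div_iff₀ hr0]
        nlinarith
      linarith
  have h := hmono (show (0:ℝ) ∈ Set.Icc (0:ℝ) 1 by simp) (show (1:ℝ) ∈ Set.Icc (0:ℝ) 1 by simp) zero_le_one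
  simp only [Complex.ofReal_zero, zero_mul, E_zero, Complex.zero_im, mul_zero, sub_zero, Complex.ofReal_one,
    one_mul, mul_one] at h
  linarith

lemma im_E_imag {r : ℝ} (hr : 1 ≤ r) : 1 / 4 ≤ (E (r * I)).im := by
  have ha : (I : ℂ) ≠ 0 := Complex.I_ne_zero
  have hmono : MonotoneOn (fun r : ℝ => (E (r * I)).im + (Real.cos r - 1) / r) (Set.Icc 1 r) := by
    have hd : ∀ r : ℝ, r ≠ 0 → HasDerivAt (fun r : ℝ => (E (r * I)).im + (Real.cos r - 1) / r)
        ((q (r * I) * I).im + ((-Real.sin r) * r - (Real.cos r - 1) * 1) / r ^ 2) r := by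
      intro r hr
      exact (E_ray_im (a := I) r).add (((Real.hasDerivAt_cos r).sub_const 1).div (hasDerivAt_id r) hr)
    apply monotoneOn_of_deriv_nonneg (convex_Icc 1 r)
    · intro s hs
      exact (hd s (by linarith [hs.1])).continuousAt.continuousWithinAt
    · intro s hs
      rw [interior_Icc] at hs
      exact (hd s (by linarith [hs.1])).differentiableAt.differentiableWithinAt
    · intro s hs
      rw [interior_Icc] at hs
      have hs0 : 0 < s := by linarith [hs.1]
      rw [(hd s hs0.ne').deriv, ray_im_eq ha hs0.ne']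
      simp only [Complex.I_re, Complex.I_im, mul_zero, Real.exp_zero, one_mul, mul_one]
      have : Real.sin s / s + (-Real.sin s * s - (Real.cos s - 1)) / s ^ 2 = (1 - Real.cos s) / s ^ 2 := by
        field_simp
        ring
      rw [this]
      have := Real.cos_le_one s
      positivity
  have h := hmono (show (1:ℝ) ∈ Set.Icc (1:ℝ) r by simp [hr]) (show r ∈ Set.Icc (1:ℝ) r by simp [hr]) hr
  simp only [Complex.ofReal_one, one_mul, div_one] at h
  have h1 := im_E_one (a := I) (by simp) (by simp) (by simp)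
  simp only [Complex.I_im] at h1
  have h2 : 1 - (1:ℝ) ^ 2 / 2 ≤ Real.cos 1 := Real.one_sub_sq_div_two_le_cos
  have h3 : (Real.cos r - 1) / r ≤ 0 := by
    apply div_nonpos_of_nonpos_of_nonneg
    · linarith [Real.cos_le_one r]
    · linarith
  linarith

lemma barrier {a : ℝ} (ha0 : 0 < a) (ha1 : a ≤ Real.pi / 2) {r : ℝ} (hr : 1 ≤ r) (h : r = 1 ∨ a = Real.pi / 2) :
    a ≤ 8 * (E (r * exp (a * I))).im := by
  have hpi := Real.pi_le_four
  have hpi0 := Real.pi_pos
  rcases h with h | h
  · subst h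
    have hs : 0 < Real.sin a := Real.sin_pos_of_pos_of_lt_pi ha0 (by linarith)
    have hc : 0 ≤ Real.cos a := Real.cos_nonneg_of_neg_pi_div_two_le_of_le (by linarith) ha1
    have h1 := im_E_one (a := exp (a * I)) (by rw [Complex.exp_ofReal_mul_I_re]; exact hc)
      (by rw [Complex.exp_ofReal_mul_I_im]; exact hs) (by rw [Complex.exp_ofReal_mul_I_im]; exact Real.sin_le_one a)
    rw [Complex.exp_ofReal_mul_I_im] at h1
    have h2 := Real.mul_le_sin ha0.le ha1
    have h3 : 1 / 2 * a ≤ 2 / Real.pi * a := by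
      have h4 : (1:ℝ) / 2 ≤ 2 / Real.pi := by
        rw [div_le_div_iff₀ (by norm_num) hpi0]
        linarith
      exact mul_le_mul_of_nonneg_right h4 ha0.le
    rw [Complex.ofReal_one, one_mul]
    linarith
  · subst h
    have h1 : exp (((Real.pi / 2 : ℝ) : ℂ) * I) = I := by
      push_cast
      exact Complex.exp_pi_div_two_mul_I
    rw [h1]
    have := im_E_imag hr
    linarith

/-- upper bound for `-Re E` in the left half plane -/
lemma neg_re_E_le {u : ℂ} (hu : u.re < 0) (h1 : 1 ≤ ‖u‖) : -(E u).re ≤ 2 + 2 * Real.log ‖u‖ := by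
  have hu0 : (0:ℝ) < ‖u‖ := by linarith
  set a : ℂ := u / ‖u‖ with ha
  have hne : (‖u‖ : ℂ) ≠ 0 := by exact_mod_cast hu0.ne'
  have hua : u = (‖u‖ : ℂ) * a := by rw [ha]; field_simp
  have hna : ‖a‖ = 1 := by rw [ha, norm_div, Complex.norm_real, norm_norm]; exact div_self hu0.ne'
  have ha0 : a ≠ 0 := by intro h; rw [h] at hna; simp at hna
  have hare : a.re < 0 := by
    rw [ha, Complex.div_ofReal_re]
    exact div_neg_of_neg_of_pos hu hu0
  have hanti : AntitoneOn (fun r : ℝ => -(E (r * a)).re - 2 * Real.log r) (Set.Icc 1 ‖u‖) := by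
    have hd : ∀ r : ℝ, r ≠ 0 → HasDerivAt (fun r : ℝ => -(E (r * a)).re - 2 * Real.log r)
        (-(q (r * a) * a).re - 2 * r⁻¹) r := by
      intro r hr
      exact (E_ray_re (a := a) r).neg.sub ((Real.hasDerivAt_log hr).const_mul 2)
    apply antitoneOn_of_deriv_nonpos (convex_Icc 1 ‖u‖)
    · intro s hs
      exact (hd s (by linarith [hs.1])).continuousAt.continuousWithinAt
    · intro s hs
      rw [interior_Icc] at hs
      exact (hd s (by linarith [hs.1])).differentiableAt.differentiableWithinAt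
    · intro s hs
      rw [interior_Icc] at hs
      have hs0 : 0 < s := by linarith [hs.1]
      rw [(hd s hs0.ne').deriv, ray_re_eq ha0 hs0.ne']
      have he : Real.exp (s * a.re) ≤ 1 := by
        rw [Real.exp_le_one_iff]; nlinarith
      have he0 := Real.exp_pos (s * a.re)
      have hc := Real.neg_one_le_cos (s * a.im)
      have hc' := Real.cos_le_one (s * a.im)
      have hp : -1 ≤ Real.exp (s * a.re) * Real.cos (s * a.im) := by nlinarith
      have : -((Real.exp (s * a.re) * Real.cos (s * a.im) - 1) / s) - 2 * s⁻¹ =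
          -(Real.exp (s * a.re) * Real.cos (s * a.im) + 1) / s := by
        field_simp
        ring
      rw [this]
      apply div_nonpos_of_nonpos_of_nonneg _ hs0.le
      linarith
  have h := hanti (show (1:ℝ) ∈ Set.Icc (1:ℝ) ‖u‖ by simp [h1]) (show ‖u‖ ∈ Set.Icc (1:ℝ) ‖u‖ by simp [h1]) h1
  simp only [Complex.ofReal_one, one_mul, Real.log_one, mul_zero, sub_zero] at h
  rw [← hua] at h
  have h2 : -(E a).re ≤ 2 := by
    have h3 := norm_E_le hna.le
    have h4 := (abs_le.mp (Complex.abs_re_le_norm (E a))).1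
    linarith
  linarith

end Pool.Agent.Helper809.Star
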