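import Pool.Agent.Helper809.StarMain

set_option autoImplicit false

open Filter Topology Complex

namespace Pool.Agent.Helper809.Star

variable {T : ℝ} {N : ℕ}

lemma exists_angle (a : ℂ) (ha : ‖a‖ = 1) : ∃ y : ℝ, 0 ≤ y ∧ y < 2 * Real.pi ∧ a = exp (y * I) := by
  have hpi := Real.pi_pos
  have h := Complex.norm_mul_exp_arg_mul_I a
  rw [ha, Complex.ofReal_one, one_mul] at h
  by_cases h0 : 0 ≤ a.arg
  · exact ⟨a.arg, h0, by linarith [Complex.arg_le_pi a], h.symm⟩
  · push Not at h0
    refine ⟨a.arg + 2 * Real.pi, by linarith [Complex.neg_pi_lt_arg a], by linarith, ?_⟩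
    have h2 : exp (((a.arg + 2 * Real.pi : ℝ) : ℂ) * I) = exp (a.arg * I) := by
      push_cast
      rw [add_mul, Complex.exp_add, Complex.exp_two_pi_mul_I, mul_one]
    rw [h2, h]

lemma star_bound (hT : 1 ≤ T) (hN : N ≠ 0) {w : ℂ} (h : InStar (F T N) w) :
    ‖w‖ ≤ Real.exp 16 * T ^ 16 := by
  have hT0 : 0 < T := by linarith
  have hpi := Real.pi_pos
  have hpos : 0 < Real.exp 16 * T ^ 16 := by positivity
  by_cases hw : w = 0
  · rw [hw, norm_zero]; exact hpos.le
  have hn : 0 < ‖w‖ := norm_pos_iff.mpr hw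
  have hnC : (‖w‖ : ℂ) ≠ 0 := by exact_mod_cast hn.ne'
  set a : ℂ := w / ‖w‖ with ha
  have hwa : w = (‖w‖ : ℂ) * a := by rw [ha]; field_simp
  have hna : ‖a‖ = 1 := by rw [ha, norm_div, Complex.norm_real, norm_norm]; exact div_self hn.ne'
  have hnaN : ‖a ^ N‖ = 1 := by rw [norm_pow, hna, one_pow]
  obtain ⟨y, hy0, hy2, hya⟩ := exists_angle (a ^ N) hnaN
  rcases hy0.eq_or_lt with hy | hy
  · -- exceptional ray
    rw [← hy] at hya
    simp only [Complex.ofReal_zero, zero_mul, Complex.exp_zero] at hya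
    have h1 : InStar (F T N) ((‖w‖ : ℂ) * a) := by rw [← hwa]; exact h
    have h2 := ray_bound hT0 hN hya hn h1
    refine h2.trans ?_
    rw [div_le_iff₀ hT0]
    have : 1 ≤ T ^ 16 * T := by
      have := one_le_pow₀ hT (n := 17)
      calc (1:ℝ) ≤ T ^ 17 := this
        _ = _ := by ring
    have he := Real.exp_pos 16
    nlinarith
  -- generic direction
  obtain ⟨γ, hc, h0, hγ⟩ := h
  have h1I : (1:ℝ) ∈ Set.Icc (0:ℝ) 1 := by simp
  set Z : ℝ → ℂ := fun t => ((T : ℂ) * γ t) ^ N with hZ
  set A : ℝ → ℝ := fun t => y + 8 * (E (Z t)).im with hA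
  have hZc : ContinuousOn Z (Set.Icc (0:ℝ) 1) := (continuousOn_const.mul hc).pow N
  have hAc : ContinuousOn A (Set.Icc (0:ℝ) 1) := by
    apply continuousOn_const.add
    apply continuousOn_const.mul
    exact Complex.continuous_im.comp_continuousOn (E_diff.continuous.comp_continuousOn hZc)
  have hZ0 : Z 0 = 0 := by simp [hZ, h0, hN]
  have hA0 : A 0 = y := by simp [hA, hZ0, E_zero]
  have hN' : (N : ℂ) ≠ 0 := by exact_mod_cast hN
  have hpolar : ∀ t ∈ Set.Icc (0:ℝ) 1, Z t = (‖Z t‖ : ℂ) * exp (A t * I) := by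
    intro t ht
    have h2 := (hγ t ht).2.1
    have h3 : γ t = t * w * exp ((8 / N) * E (Z t)) := by
      rw [← h2]
      unfold F
      have : γ t * exp (-(8 / N) * E (((T : ℂ) * γ t) ^ N)) * exp ((8 / N) * E (Z t)) =
          γ t * (exp (-(8 / N) * E (Z t)) * exp ((8 / N) * E (Z t))) := by
        simp only [hZ]; ring
      rw [this, ← Complex.exp_add]
      ring_nf
      simp
    have h4 : Z t = (((T * t * ‖w‖) ^ N * Real.exp (8 * (E (Z t)).re) : ℝ) : ℂ) * exp (A t * I) := by
      have e1 : Z t = ((T : ℂ) * (t * w * exp ((8 / N) * E (Z t)))) ^ N := by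
        conv_lhs => rw [hZ]
        simp only
        rw [h3]
      have e2 : (exp ((8 / N) * E (Z t))) ^ N = exp (8 * E (Z t)) := by
        rw [← Complex.exp_nat_mul]
        congr 1
        field_simp
      have e3 : exp (8 * E (Z t)) = exp (8 * (E (Z t)).re) * exp (8 * (E (Z t)).im * I) := by
        rw [← Complex.exp_add]
        congr 1
        conv_lhs => rw [← Complex.re_add_im (E (Z t))]
        ring
      have e4 : exp (A t * I) = exp (y * I) * exp (8 * (E (Z t)).im * I) := by
        rw [← Complex.exp_add]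
        congr 1
        simp only [hA]
        push_cast
        ring
      conv_lhs => rw [e1]
      rw [mul_pow, mul_pow, mul_pow, e2, e3, e4, ← hya, hwa, mul_pow]
      have e5 : ‖(‖w‖ : ℂ) * a‖ = ‖w‖ := by rw [← hwa]
      rw [e5]
      push_cast
      ring
    have h5 : 0 ≤ (T * t * ‖w‖) ^ N * Real.exp (8 * (E (Z t)).re) := by
      have := ht.1
      positivity
    have h6 : ‖Z t‖ = (T * t * ‖w‖) ^ N * Real.exp (8 * (E (Z t)).re) := by
      have h7 := congrArg norm h4
      rw [norm_mul, Complex.norm_real, Complex.norm_exp_ofReal_mul_I, mul_one, Real.norm_of_nonneg h5] at h7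
      exact h7
    rw [h6]
    exact h4
  -- the argument stays in (0, 2 pi)
  have hrealpt : ∀ t ∈ Set.Icc (0:ℝ) 1, exp (A t * I) = 1 → A t = y := by
    intro t ht he
    have h2 := hpolar t ht
    rw [he, mul_one] at h2
    simp only [hA]
    rw [h2, E_real]
    ring
  have hApos : ∀ t ∈ Set.Icc (0:ℝ) 1, 0 < A t := by
    intro t ht
    by_contra hcon
    push Not at hcon
    have hsub : Set.Icc 0 t ⊆ Set.Icc (0:ℝ) 1 := Set.Icc_subset_Icc_right ht.2
    have hI := intermediate_value_Icc' ht.1 (hAc.mono hsub)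
    obtain ⟨s, hs, hAs⟩ := hI (show (0:ℝ) ∈ Set.Icc (A t) (A 0) from ⟨hcon, by rw [hA0]; exact hy.le⟩)
    have := hrealpt s (hsub hs) (by rw [hAs]; simp)
    linarith
  have hAlt : ∀ t ∈ Set.Icc (0:ℝ) 1, A t < 2 * Real.pi := by
    intro t ht
    by_contra hcon
    push Not at hcon
    have hsub : Set.Icc 0 t ⊆ Set.Icc (0:ℝ) 1 := Set.Icc_subset_Icc_right ht.2
    have hI := intermediate_value_Icc ht.1 (hAc.mono hsub)
    obtain ⟨s, hs, hAs⟩ := hI (show (2 * Real.pi) ∈ Set.Icc (A 0) (A t) from ⟨by rw [hA0]; exact hy2.le, hcon⟩)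
    have := hrealpt s (hsub hs) (by rw [hAs]; push_cast; exact Complex.exp_two_pi_mul_I)
    linarith
  -- the path does not cross the barrier
  have hbar : ∀ t ∈ Set.Icc (0:ℝ) 1, 1 ≤ ‖Z t‖ → 0 ≤ (Z t).re → (‖Z t‖ = 1 ∨ (Z t).re = 0) → False := by
    intro t ht h1 h2 h3
    have hp := hpolar t ht
    have hre : (Z t).re = ‖Z t‖ * Real.cos (A t) := by
      conv_lhs => rw [hp]
      rw [Complex.re_ofReal_mul, Complex.exp_ofReal_mul_I_re]
    have hcos : 0 ≤ Real.cos (A t) := by
      by_contra hcon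
      push Not at hcon
      have : ‖Z t‖ * Real.cos (A t) < 0 := mul_neg_of_pos_of_neg (by linarith) hcon
      linarith
    have hcos0 : (Z t).re = 0 → Real.cos (A t) = 0 := by
      intro h
      rw [hre] at h
      rcases mul_eq_zero.mp h with h | h
      · linarith
      · exact h
    have hA1 := hApos t ht
    have hA2 := hAlt t ht
    rcases le_or_gt (A t) (Real.pi / 2) with hc1 | hc1
    · have h4 : ‖Z t‖ = 1 ∨ A t = Real.pi / 2 := by
        rcases h3 with h3 | h3
        · left; exact h3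
        · right
          by_contra hne
          have hlt : A t < Real.pi / 2 := lt_of_le_of_ne hc1 hne
          have := Real.cos_pos_of_mem_Ioo (x := A t) ⟨by linarith, hlt⟩
          linarith [hcos0 h3]
      have h5 := barrier hA1 hc1 h1 h4
      rw [← hp] at h5
      simp only [hA] at h5
      linarith
    · have hc2 : 3 * Real.pi / 2 ≤ A t := by
        by_contra hcon
        push Not at hcon
        have := Real.cos_neg_of_pi_div_two_lt_of_lt hc1 (by linarith)
        linarith
      set A' : ℝ := 2 * Real.pi - A t with hA'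
      have hA'cos : Real.cos A' = Real.cos (A t) := by
        rw [hA']; exact Real.cos_two_pi_sub (A t)
      have h4 : ‖Z t‖ = 1 ∨ A' = Real.pi / 2 := by
        rcases h3 with h3 | h3
        · left; exact h3
        · right
          by_contra hne
          have hlt : A' < Real.pi / 2 := lt_of_le_of_ne (by linarith) hne
          have := Real.cos_pos_of_mem_Ioo (x := A') ⟨by linarith, hlt⟩
          linarith [hcos0 h3]
      have h5 := barrier (a := A') (by linarith) (by linarith) h1 h4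
      have h6 : (‖Z t‖ : ℂ) * exp (A' * I) = (starRingEnd ℂ) (Z t) := by
        conv_rhs => rw [hp]
        rw [map_mul, Complex.conj_ofReal, ← Complex.exp_conj, map_mul, Complex.conj_ofReal, Complex.conj_I, hA']
        push_cast
        rw [sub_mul, Complex.exp_sub, Complex.exp_two_pi_mul_I, mul_neg, Complex.exp_neg, one_div]
      rw [h6, E_conj, Complex.conj_im] at h5
      have : A t = y + 8 * (E (Z t)).im := rfl
      linarith
  have hregion : ∀ t ∈ Set.Icc (0:ℝ) 1, ‖Z t‖ < 1 ∨ (Z t).re < 0 := by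
    intro t ht
    by_contra hcon
    push Not at hcon
    obtain ⟨hcon1, hcon2⟩ := hcon
    set m : ℝ → ℝ := fun s => max (1 - ‖Z s‖) (-(Z s).re) with hm
    have hmc1 : ContinuousOn (fun s => 1 - ‖Z s‖) (Set.Icc (0:ℝ) 1) := continuousOn_const.sub hZc.norm
    have hmc2 : ContinuousOn (fun s => -(Z s).re) (Set.Icc (0:ℝ) 1) :=
      (Complex.continuous_re.comp_continuousOn hZc).neg
    have hmc : ContinuousOn m (Set.Icc (0:ℝ) 1) := hmc1.sup hmc2
    have hsub : Set.Icc 0 t ⊆ Set.Icc (0:ℝ) 1 := Set.Icc_subset_Icc_right ht.2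
    have hI := intermediate_value_Icc' ht.1 (hmc.mono hsub)
    have hmt : m t ≤ 0 := by
      simp only [hm]
      apply max_le <;> linarith
    have hm0 : 0 ≤ m 0 := by
      simp [hm, hZ0]
    obtain ⟨s, hs, hms⟩ := hI (show (0:ℝ) ∈ Set.Icc (m t) (m 0) from ⟨hmt, hm0⟩)
    simp only [hm] at hms
    have h1 : 1 - ‖Z s‖ ≤ 0 := by rw [← hms]; exact le_max_left _ _
    have h2 : -(Z s).re ≤ 0 := by rw [← hms]; exact le_max_right _ _
    refine hbar s (hsub hs) (by linarith) (by linarith) ?_
    rcases max_choice (1 - ‖Z s‖) (-(Z s).re) with h3 | h3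
    · left; rw [h3] at hms; linarith
    · right; rw [h3] at hms; linarith
  -- conclusion
  obtain ⟨hγ1, hγ2, -⟩ := hγ 1 h1I
  have hγn : ‖γ 1‖ < 1 := by simpa using hγ1
  have hw2 : w = γ 1 * exp (-(8 / N) * E (Z 1)) := by
    have := hγ2
    unfold F at this
    rw [Complex.ofReal_one, one_mul] at this
    exact this.symm
  have hN1 : (1:ℝ) ≤ N := by exact_mod_cast Nat.one_le_iff_ne_zero.mpr hN
  have hlogT : 0 ≤ Real.log T := Real.log_nonneg hT
  have hZn : ‖Z 1‖ ≤ T ^ N := by
    simp only [hZ]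
    rw [norm_pow, norm_mul, Complex.norm_real, Real.norm_of_nonneg hT0.le]
    apply pow_le_pow_left₀ (by positivity)
    nlinarith [norm_nonneg (γ 1)]
  have hEre : -(E (Z 1)).re ≤ 2 + 2 * (N * Real.log T) := by
    have hsmall : ‖Z 1‖ ≤ 1 → -(E (Z 1)).re ≤ 2 + 2 * (N * Real.log T) := by
      intro hle
      have h3 := norm_E_le hle
      have h4 := (abs_le.mp (Complex.abs_re_le_norm (E (Z 1)))).1
      have : 0 ≤ (N:ℝ) * Real.log T := by positivity
      linarith
    rcases hregion 1 h1I with h2 | h2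
    · exact hsmall h2.le
    · rcases le_or_gt ‖Z 1‖ 1 with h3 | h3
      · exact hsmall h3
      · have h4 := neg_re_E_le h2 h3.le
        have h5 : Real.log ‖Z 1‖ ≤ N * Real.log T := by
          rw [← Real.log_pow]
          exact Real.log_le_log (by linarith) hZn
        linarith
  have hre : (-(8 / N : ℂ) * E (Z 1)).re = (8 / N : ℝ) * (-(E (Z 1)).re) := by
    have : (-(8 / N : ℂ)) = (((-(8 / N : ℝ)) : ℝ) : ℂ) := by push_cast; ring
    rw [this, Complex.re_ofReal_mul]
    ring
  have hnw : ‖w‖ = ‖γ 1‖ * Real.exp ((8 / N : ℝ) * (-(E (Z 1)).re)) := by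
    conv_lhs => rw [hw2]
    rw [norm_mul, Complex.norm_exp, hre]
  have h80 : (0:ℝ) ≤ 8 / N := by positivity
  have hexp : (8 / N : ℝ) * (-(E (Z 1)).re) ≤ 16 + 16 * Real.log T := by
    calc (8 / N : ℝ) * (-(E (Z 1)).re) ≤ (8 / N : ℝ) * (2 + 2 * (N * Real.log T)) := by gcongr
      _ = 16 / N + 16 * Real.log T := by
          have : (N:ℝ) ≠ 0 := by positivity
          field_simp
          ring
      _ ≤ 16 + 16 * Real.log T := by
          have : (16:ℝ) / N ≤ 16 := by
            rw [div_le_iff₀ (by linarith)]; nlinarith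
          linarith
  rw [hnw]
  calc ‖γ 1‖ * Real.exp ((8 / N : ℝ) * (-(E (Z 1)).re)) ≤ 1 * Real.exp (16 + 16 * Real.log T) := by
        gcongr
    _ = Real.exp 16 * T ^ 16 := by
        rw [one_mul, Real.exp_add]
        congr 1
        have : (16:ℝ) * Real.log T = Real.log (T ^ 16) := by rw [Real.log_pow]; norm_num
        rw [this, Real.exp_log (by positivity)]

theorem main : ¬ (∃ B : ℝ, 0 < B ∧
      ∀ f : ℂ → ℂ, DifferentiableOn ℂ f (Metric.ball (0 : ℂ) 1) → f 0 = 0 → deriv f 0 = 1 →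
        ∃ c : ℂ, Metric.ball c B ⊆ {w : ℂ | InStar f w}) := by
  rintro ⟨B, hB, H⟩
  have hpi := Real.pi_pos
  have he := Real.exp_pos 16
  set T : ℝ := 2 * Real.exp 16 / B + 1 with hT
  have hT1 : 1 ≤ T := by
    have : 0 ≤ 2 * Real.exp 16 / B := by positivity
    linarith
  have hT0 : 0 < T := by linarith
  have hTB : Real.exp 16 / T < B / 2 := by
    rw [div_lt_div_iff₀ hT0 (by norm_num), hT]
    have : B * (2 * Real.exp 16 / B + 1) = 2 * Real.exp 16 + B := by field_simp
    rw [this]
    linarith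
  set M : ℝ := Real.exp 16 * T ^ 16 with hM
  have hM0 : 0 < M := by positivity
  obtain ⟨N, hNM⟩ := exists_nat_gt (M * Real.pi / B)
  have hNpos : (0:ℝ) < N := lt_trans (by positivity) hNM
  have hN : N ≠ 0 := by
    intro h; rw [h] at hNpos; simp at hNpos
  obtain ⟨c, hc⟩ := H (F T N) (F_diff hN).differentiableOn F_zero (F_deriv_zero hN)
  have hcS : InStar (F T N) c := hc (Metric.mem_ball_self hB)
  have hcM := star_bound hT1 hN hcS
  rcases le_or_gt (B / 2) ‖c‖ with hcB | hcB
  · -- the nearest exceptional ray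
    have hc0 : 0 < ‖c‖ := by linarith
    set θ : ℝ := c.arg with hθ
    set j : ℤ := round (θ * N / (2 * Real.pi)) with hj
    set φ : ℝ := 2 * Real.pi * j / N with hφ
    have hdist : |θ - φ| ≤ Real.pi / N := by
      have h1 := abs_sub_round (θ * N / (2 * Real.pi))
      have h2 : θ - φ = (2 * Real.pi / N) * (θ * N / (2 * Real.pi) - j) := by
        rw [hφ]; field_simp
      rw [h2, abs_mul, abs_of_pos (by positivity)]
      calc 2 * Real.pi / N * |θ * N / (2 * Real.pi) - j| ≤ 2 * Real.pi / N * (1 / 2) := by gcongr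
        _ = Real.pi / N := by ring
    set ω : ℂ := exp (φ * I) with hω
    have hωN : ω ^ N = 1 := by
      rw [hω, ← Complex.exp_nat_mul]
      have : (N : ℂ) * (φ * I) = j * (2 * Real.pi * I) := by
        rw [hφ]
        push_cast
        have : (N : ℂ) ≠ 0 := by exact_mod_cast hN
        field_simp
      rw [this]
      exact Complex.exp_int_mul_two_pi_mul_I j
    have hcpol : c = (‖c‖ : ℂ) * exp (θ * I) := (Complex.norm_mul_exp_arg_mul_I c).symm
    have hwmem : (‖c‖ : ℂ) * ω ∈ Metric.ball c B := by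
      rw [Metric.mem_ball, dist_eq_norm]
      have h1 : (‖c‖ : ℂ) * ω - c = -((‖c‖ : ℂ) * (exp (φ * I) * (exp (I * ((θ - φ : ℝ) : ℂ)) - 1))) := by
        conv_lhs => rw [hcpol]
        have : exp (θ * I) = exp (φ * I) * exp (I * ((θ - φ : ℝ) : ℂ)) := by
          rw [← Complex.exp_add]
          congr 1
          push_cast
          ring
        rw [this]
        have e5 : ‖(‖c‖ : ℂ) * (exp (φ * I) * exp (I * ((θ - φ : ℝ) : ℂ)))‖ = ‖c‖ := by
          rw [← this, ← hcpol]
        rw [e5]
        ring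
      rw [h1, norm_neg, norm_mul, norm_mul, Complex.norm_real, norm_norm, Complex.norm_exp_ofReal_mul_I, one_mul]
      have h2 : ‖exp (I * ((θ - φ : ℝ) : ℂ)) - 1‖ ≤ |θ - φ| := by
        have := Real.norm_exp_I_mul_ofReal_sub_one_le (x := θ - φ)
        simpa using this
      calc ‖c‖ * ‖exp (I * ((θ - φ : ℝ) : ℂ)) - 1‖ ≤ M * (Real.pi / N) := by
            gcongr
            exact h2.trans hdist
        _ < B := by
            rw [div_lt_iff₀ hB] at hNM
            rw [mul_div_assoc', div_lt_iff₀ hNpos]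
            linarith
    have h3 := ray_bound hT0 hN hωN hc0 (hc hwmem)
    linarith
  · have hwmem : ((B / 2 : ℝ) : ℂ) * 1 ∈ Metric.ball c B := by
      rw [Metric.mem_ball, dist_eq_norm, mul_one]
      calc ‖((B / 2 : ℝ) : ℂ) - c‖ ≤ ‖((B / 2 : ℝ) : ℂ)‖ + ‖c‖ := norm_sub_le _ _
        _ = B / 2 + ‖c‖ := by rw [Complex.norm_real, Real.norm_of_nonneg (by positivity)]
        _ < B := by linarith
    have h3 := ray_bound hT0 hN (one_pow N) (show 0 < B / 2 by positivity) (hc hwmem)
    linarith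

end Pool.Agent.Helper809.Star
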