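import Pool.Agent.Helper809.StarE

set_option autoImplicit false

open Filter Topology Complex

namespace Pool.Agent.Helper809.Star

/-- the example -/
noncomputable def F (T : ℝ) (N : ℕ) (z : ℂ) : ℂ := z * exp (-(8 / N) * E (((T : ℂ) * z) ^ N))

/-- membership in the principal star -/
def InStar (f : ℂ → ℂ) (w : ℂ) : Prop :=
  ∃ γ : ℝ → ℂ, ContinuousOn γ (Set.Icc (0 : ℝ) 1) ∧ γ 0 = 0 ∧
    ∀ t ∈ Set.Icc (0 : ℝ) 1, γ t ∈ Metric.ball (0 : ℂ) 1 ∧ f (γ t) = (t : ℂ) * w ∧ deriv f (γ t) ≠ 0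

variable {T : ℝ} {N : ℕ}

lemma F_hasDerivAt (hN : N ≠ 0) (z : ℂ) :
    HasDerivAt (F T N) (exp (-(8 / N) * E (((T : ℂ) * z) ^ N)) * (1 - 8 * (exp (((T : ℂ) * z) ^ N) - 1))) z := by
  have h1 : HasDerivAt (fun z : ℂ => ((T : ℂ) * z) ^ N) (N * ((T : ℂ) * z) ^ (N - 1) * (T * 1)) z :=
    ((hasDerivAt_id z).const_mul (T : ℂ)).pow N
  have h2 : HasDerivAt (fun z : ℂ => -(8 / N : ℂ) * E (((T : ℂ) * z) ^ N))
      (-(8 / N : ℂ) * (q (((T : ℂ) * z) ^ N) * (N * ((T : ℂ) * z) ^ (N - 1) * (T * 1)))) z :=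
    (HasDerivAt.comp z (E_deriv _) h1).const_mul _
  have h3 := (hasDerivAt_id z).mul h2.cexp
  convert! h3 using 1
  have hN' : (N : ℂ) ≠ 0 := by exact_mod_cast hN
  have h4 : ((T : ℂ) * z) ^ N = ((T : ℂ) * z) ^ (N - 1) * (T * z) := by
    rw [← pow_succ, Nat.sub_add_cancel (Nat.pos_of_ne_zero hN)]
  have h5 := q_mul (((T : ℂ) * z) ^ N)
  simp only [id]
  set X := exp (-(8 / (N : ℂ)) * E (((T : ℂ) * z) ^ N)) with hX
  have h6 : z * (X * (-(8 / (N : ℂ)) * (q (((T : ℂ) * z) ^ N) * (N * ((T : ℂ) * z) ^ (N - 1) * (T * 1))))) =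
      X * (-8 * (((T : ℂ) * z) ^ (N - 1) * (T * z) * q (((T : ℂ) * z) ^ N))) := by
    field_simp
  rw [h6, ← h4, h5]
  ring

lemma F_deriv (hN : N ≠ 0) (z : ℂ) :
    deriv (F T N) z = exp (-(8 / N) * E (((T : ℂ) * z) ^ N)) * (1 - 8 * (exp (((T : ℂ) * z) ^ N) - 1)) :=
  (F_hasDerivAt hN z).deriv

lemma F_diff (hN : N ≠ 0) : Differentiable ℂ (F T N) := fun z => (F_hasDerivAt hN z).differentiableAt

lemma F_zero : F T N 0 = 0 := by simp [F]

lemma F_deriv_zero (hN : N ≠ 0) : deriv (F T N) 0 = 1 := by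
  rw [F_deriv hN]
  simp [hN, E_zero]

lemma F_conj (z : ℂ) : F T N ((starRingEnd ℂ) z) = (starRingEnd ℂ) (F T N z) := by
  unfold F
  have h1 : ((T : ℂ) * (starRingEnd ℂ) z) ^ N = (starRingEnd ℂ) (((T : ℂ) * z) ^ N) := by
    rw [map_pow, map_mul, Complex.conj_ofReal]
  have h8 : (starRingEnd ℂ) (8 : ℂ) = 8 := map_ofNat _ 8
  rw [h1, E_conj, map_mul, ← Complex.exp_conj, map_mul, map_neg, map_div₀, h8, map_natCast]

/-- lifts of real segments are real -/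
lemma real_lift (hN : N ≠ 0) {r : ℝ} {δ : ℝ → ℂ} (hc : ContinuousOn δ (Set.Icc (0 : ℝ) 1)) (h0 : δ 0 = 0)
    (h : ∀ t ∈ Set.Icc (0 : ℝ) 1, F T N (δ t) = (t : ℂ) * r ∧ deriv (F T N) (δ t) ≠ 0) :
    ∀ t ∈ Set.Icc (0 : ℝ) 1, (δ t).im = 0 := by
  have key : Set.Icc (0 : ℝ) 1 ⊆ {t : ℝ | (δ t).im = 0} := by
    apply IsClosed.Icc_subset_of_forall_mem_nhdsWithin
    · have h1 : ContinuousOn (fun t => (δ t).im) (Set.Icc (0 : ℝ) 1) :=
        Complex.continuous_im.comp_continuousOn hc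
      have h2 := h1.preimage_isClosed_of_isClosed isClosed_Icc (isClosed_singleton (x := (0 : ℝ)))
      convert! h2 using 1
      ext t
      simp [and_comm]
    · simp [h0]
    · rintro x ⟨hx, hx1⟩
      have hxI : x ∈ Set.Icc (0 : ℝ) 1 := ⟨hx1.1, hx1.2.le⟩
      have hd := (h x hxI).2
      have hs : HasStrictDerivAt (F T N) (deriv (F T N) (δ x)) (δ x) :=
        ((F_diff hN).analyticAt (δ x)).hasStrictDerivAt
      have e1 := hs.eventually_left_inverse hd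
      have hreal : (starRingEnd ℂ) (δ x) = δ x := Complex.conj_eq_iff_im.mpr hx
      have hcc : Tendsto (fun z : ℂ => (starRingEnd ℂ) z) (𝓝 (δ x)) (𝓝 (δ x)) := by
        have := Complex.continuous_conj.tendsto (δ x)
        rwa [hreal] at this
      have e2 := hcc.eventually e1
      have h3 : Tendsto δ (𝓝[>] x) (𝓝 (δ x)) := by
        have h4 : ContinuousWithinAt δ (Set.Icc (0:ℝ) 1) x := hc x hxI
        exact h4.tendsto.mono_left (nhdsWithin_le_of_mem (Icc_mem_nhdsGT_of_mem hx1))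
      have e3 := h3.eventually (e1.and e2)
      have e4 : ∀ᶠ t in 𝓝[>] x, t ∈ Set.Icc (0:ℝ) 1 := Icc_mem_nhdsGT_of_mem hx1
      filter_upwards [e3, e4] with t ht ht2
      obtain ⟨ht3, ht4⟩ := ht
      have hF := (h t ht2).1
      have hF2 : F T N ((starRingEnd ℂ) (δ t)) = F T N (δ t) := by
        rw [F_conj, hF, map_mul, Complex.conj_ofReal, Complex.conj_ofReal]
      rw [hF2, ht3] at ht4
      exact Complex.conj_eq_iff_im.mp ht4.symm
  exact key

/-- on the exceptional rays the star is short -/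
lemma ray_bound (hT : 0 < T) (hN : N ≠ 0) {ω : ℂ} (hω : ω ^ N = 1) {r : ℝ} (hr : 0 < r)
    (h : InStar (F T N) (r * ω)) : r ≤ Real.exp 16 / T := by
  obtain ⟨γ, hc, h0, hγ⟩ := h
  have hω0 : ω ≠ 0 := by
    intro h; rw [h, zero_pow hN] at hω; exact zero_ne_one hω
  have hωi : (ω⁻¹) ^ N = 1 := by rw [inv_pow, hω, inv_one]
  have hnorm : ‖ω‖ = 1 := by
    have := congrArg norm hω
    rw [norm_pow, norm_one] at this
    exact (pow_eq_one_iff_of_nonneg (norm_nonneg ω) hN).mp this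
  -- rotate the path
  set δ : ℝ → ℂ := fun t => ω⁻¹ * γ t with hδ
  have hpow : ∀ z : ℂ, ((T : ℂ) * (ω⁻¹ * z)) ^ N = ((T : ℂ) * z) ^ N := by
    intro z
    have : (T : ℂ) * (ω⁻¹ * z) = ω⁻¹ * (T * z) := by ring
    rw [this, mul_pow, hωi, one_mul]
  have hδc : ContinuousOn δ (Set.Icc (0:ℝ) 1) := continuousOn_const.mul hc
  have hδ0 : δ 0 = 0 := by simp [hδ, h0]
  have hδF : ∀ t ∈ Set.Icc (0:ℝ) 1, F T N (δ t) = (t : ℂ) * r ∧ deriv (F T N) (δ t) ≠ 0 := by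
    intro t ht
    obtain ⟨-, h2, h3⟩ := hγ t ht
    constructor
    · have : F T N (δ t) = ω⁻¹ * F T N (γ t) := by
        unfold F
        simp only [hδ]
        rw [hpow]
        ring
      rw [this, h2]
      field_simp
    · rw [F_deriv hN] at h3 ⊢
      simp only [hδ]
      rw [hpow]
      exact h3
  have hreal := real_lift hN hδc hδ0 hδF
  set g : ℝ → ℝ := fun t => (δ t).re with hg
  have hgδ : ∀ t ∈ Set.Icc (0:ℝ) 1, δ t = (g t : ℂ) := by
    intro t ht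
    apply Complex.ext
    · simp [hg]
    · simp [hreal t ht]
  have hgc : ContinuousOn g (Set.Icc (0:ℝ) 1) := Complex.continuous_re.comp_continuousOn hδc
  have h1I : (1:ℝ) ∈ Set.Icc (0:ℝ) 1 := by simp
  have h0I : (0:ℝ) ∈ Set.Icc (0:ℝ) 1 := by simp
  -- the critical point
  have hl0 : 0 < Real.log (9 / 8) := Real.log_pos (by norm_num)
  have hl1 : Real.log (9 / 8) ≤ 1 := by
    have := Real.log_le_sub_one_of_pos (show (0:ℝ) < 9 / 8 by norm_num)
    linarith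
  set x : ℝ := (Real.log (9 / 8)) ^ ((N : ℝ)⁻¹) / T with hx
  have hx0 : 0 < x := by positivity
  have hxN : (T * x) ^ N = Real.log (9 / 8) := by
    have : T * x = (Real.log (9 / 8)) ^ ((N : ℝ)⁻¹) := by rw [hx]; field_simp
    rw [this]
    exact Real.rpow_inv_natCast_pow hl0.le hN
  have hTx : T * x ≤ 1 := by
    by_contra hcon
    push Not at hcon
    have : 1 < (T * x) ^ N := one_lt_pow₀ hcon hN
    linarith
  have hxcrit : ∀ t ∈ Set.Icc (0:ℝ) 1, g t ≠ x := by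
    intro t ht hgt
    apply (hδF t ht).2
    rw [F_deriv hN, hgδ t ht, hgt]
    have : ((T : ℂ) * (x : ℂ)) ^ N = ((Real.log (9 / 8) : ℝ) : ℂ) := by
      rw [← hxN]; push_cast; ring
    rw [this, ← Complex.ofReal_exp, Real.exp_log (by norm_num)]
    push_cast
    ring
  have hg1 : g 1 < x := by
    by_contra hcon
    push Not at hcon
    have hg0 : g 0 = 0 := by simp [hg, hδ0]
    have := intermediate_value_Icc (zero_le_one) hgc
    have hmem : x ∈ Set.Icc (g 0) (g 1) := ⟨by rw [hg0]; exact hx0.le, hcon⟩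
    obtain ⟨t, ht, hgt⟩ := this hmem
    exact hxcrit t ht hgt
  -- value at the end point
  have hval := (hδF 1 h1I).1
  rw [hgδ 1 h1I] at hval
  have hval2 : F T N (g 1) = ((g 1 * Real.exp (-(8 / N) * (E ((((T * g 1) ^ N : ℝ)) : ℂ)).re) : ℝ) : ℂ) := by
    unfold F
    have e1 : ((T : ℂ) * (g 1 : ℂ)) ^ N = (((T * g 1) ^ N : ℝ) : ℂ) := by push_cast; ring
    rw [e1]
    have e2 : E (((T * g 1) ^ N : ℝ) : ℂ) = (((E (((T * g 1) ^ N : ℝ) : ℂ)).re : ℝ) : ℂ) := by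
      apply Complex.ext
      · simp
      · rw [E_real]; simp
    rw [e2, Complex.ofReal_re]
    push_cast
    ring
  rw [hval2] at hval
  have hval3 : g 1 * Real.exp (-(8 / N) * (E ((((T * g 1) ^ N : ℝ)) : ℂ)).re) = r := by
    have : ((1:ℝ):ℂ) * (r : ℂ) = ((r : ℝ) : ℂ) := by simp
    rw [this] at hval
    exact_mod_cast hval
  have hgpos : 0 < g 1 := by
    by_contra hcon
    push Not at hcon
    have : g 1 * Real.exp (-(8 / N) * (E ((((T * g 1) ^ N : ℝ)) : ℂ)).re) ≤ 0 :=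
      mul_nonpos_of_nonpos_of_nonneg hcon (Real.exp_pos _).le
    linarith
  have hTg : T * g 1 ≤ 1 := by
    have : T * g 1 ≤ T * x := by gcongr
    linarith
  have hE : ‖E ((((T * g 1) ^ N : ℝ)) : ℂ)‖ ≤ 2 := by
    apply norm_E_le
    rw [Complex.norm_real, Real.norm_of_nonneg (by positivity)]
    exact pow_le_one₀ (by positivity) hTg
  have hE2 := (abs_le.mp ((Complex.abs_re_le_norm _).trans hE)).1
  have hN1 : (1:ℝ) ≤ N := by exact_mod_cast Nat.one_le_iff_ne_zero.mpr hN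
  have h8 : (8:ℝ) / N ≤ 8 := by
    rw [div_le_iff₀ (by linarith)]; nlinarith
  have h80 : (0:ℝ) ≤ 8 / N := by positivity
  have hexp : Real.exp (-(8 / N) * (E ((((T * g 1) ^ N : ℝ)) : ℂ)).re) ≤ Real.exp 16 := by
    apply Real.exp_le_exp.mpr
    nlinarith
  rw [← hval3, le_div_iff₀ hT]
  calc g 1 * Real.exp (-(8 / N) * (E ((((T * g 1) ^ N : ℝ)) : ℂ)).re) * T
      = (T * g 1) * Real.exp (-(8 / N) * (E ((((T * g 1) ^ N : ℝ)) : ℂ)).re) := by ring
    _ ≤ 1 * Real.exp 16 := by gcongr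
    _ = Real.exp 16 := one_mul _

end Pool.Agent.Helper809.Star
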